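import Pool.Agent.Lib.CR5.E.Spec

/-!
# CR5, block E: sizes of `L θ`, `Lb θ` and of the divergences
-/

set_option autoImplicit false

open MeasureTheory Set Filter Topology
open scoped ENNReal ComplexConjugate

noncomputable section

namespace Pool.Agent.CR5

namespace ESzAux

theorem pd_coord4 (i : Fin 5) (h : i ≠ 4) (x : E5) : pd 4 (fun y : E5 => (y i : ℂ)) x = 0 := by
  have h1 : HasFDerivAt (fun y : E5 => (y i : ℂ))
      (Complex.ofRealCLM.comp (EuclideanSpace.proj i : E5 →L[ℝ] ℝ)) x :=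
    (Complex.ofRealCLM.hasFDerivAt).comp x ((EuclideanSpace.proj i : E5 →L[ℝ] ℝ).hasFDerivAt)
  show fderiv ℝ (fun y : E5 => (y i : ℂ)) x (e5 4) = 0
  rw [h1.fderiv]
  simp [e5, h]

theorem pd4_zc (j : Fin 2) (x : E5) : pd 4 (zc j) x = 0 := by
  have h : ∀ i k : Fin 5, i ≠ 4 → k ≠ 4 →
      pd 4 (fun y : E5 => (y i : ℂ) + Complex.I * (y k : ℂ)) x = 0 := by
    intro i k hi hk
    rw [pd_add (Sm.coord i) (Sm.mul (Sm.const _) (Sm.coord k)), pd_const_mul (Sm.coord k),
      pd_coord4 i hi, pd_coord4 k hk]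
    ring
  fin_cases j
  · have e : zc 0 = fun y : E5 => (y 0 : ℂ) + Complex.I * (y 1 : ℂ) := by
      funext y
      simp [zc]
    show pd 4 (zc 0) x = 0
    rw [e]
    exact h 0 1 (by decide) (by decide)
  · have e : zc 1 = fun y : E5 => (y 2 : ℂ) + Complex.I * (y 3 : ℂ) := by
      funext y
      simp [zc]
    show pd 4 (zc 1) x = 0
    rw [e]
    exact h 2 3 (by decide) (by decide)

theorem nI : ‖Complex.I‖ = 1 := Complex.norm_I

theorem half {u v : ℂ} {B : ℝ} (hu : ‖u‖ ≤ B) (hv : ‖v‖ ≤ B) :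
    ‖(u + Complex.I * v) / 2‖ ≤ B ∧ ‖(u - Complex.I * v) / 2‖ ≤ B := by
  have h2 : ‖(2 : ℂ)‖ = 2 := by simp
  constructor
  · rw [norm_div, h2, div_le_iff₀ (by norm_num)]
    refine (norm_add_le _ _).trans ?_
    rw [norm_mul, Complex.norm_I]
    linarith
  · rw [norm_div, h2, div_le_iff₀ (by norm_num)]
    refine (norm_sub_le _ _).trans ?_
    rw [norm_mul, Complex.norm_I]
    linarith

theorem dz_le {θ : E5 → ℂ} {x : E5} {B : ℝ} (h : ∀ k, ‖pd k θ x‖ ≤ B) (l : Fin 3) :
    ‖dz l θ x‖ ≤ B ∧ ‖db l θ x‖ ≤ B := by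
  rcases fin3_cases l with rfl | rfl | rfl
  · rw [dz_zero, db_zero]
    exact ⟨(half (h 0) (h 1)).2, (half (h 0) (h 1)).1⟩
  · rw [dz_one, db_one]
    exact ⟨(half (h 2) (h 3)).2, (half (h 2) (h 3)).1⟩
  · rw [dz_two, db_two]
    exact ⟨h 4, h 4⟩

theorem coord_le (x : E5) (i : Fin 5) : |x i| ≤ ‖x‖ := by
  have := PiLp.norm_apply_le x i
  rwa [Real.norm_eq_abs] at this

theorem a0_le {x : E5} (hx : ‖x‖ ≤ 1) (j : Fin 2) (l : Fin 3) : ‖a0 j l x‖ ≤ 2 := by
  have h : ∀ i k : Fin 5, ‖(x i : ℂ) + Complex.I * (x k : ℂ)‖ ≤ 2 := by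
    intro i k
    refine (norm_add_le _ _).trans ?_
    rw [norm_mul, Complex.norm_I, one_mul, Complex.norm_real, Complex.norm_real,
      Real.norm_eq_abs, Real.norm_eq_abs]
    have h1 := coord_le x i
    have h2 := coord_le x k
    linarith
  unfold a0
  split
  · rw [norm_neg, norm_mul, Complex.norm_I, one_mul]
    unfold zc
    split
    · exact h 0 1
    · exact h 2 3
  · simp

theorem db_conj_a0 (j : Fin 2) (l : Fin 3) (x : E5) :
    db l (fun y => conj (a0 j l y)) x = 0 := by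
  rcases fin3_cases l with rfl | rfl | rfl
  · have e : (fun y => conj (a0 j 0 y)) = fun _ => (0 : ℂ) := by
      funext y
      simp [a0]
    rw [e, db_const]
  · have e : (fun y => conj (a0 j 1 y)) = fun _ => (0 : ℂ) := by
      funext y
      simp [a0]
    rw [e, db_const]
  · rw [db_two, pd_conj (smS_a0 j 2)]
    have e : a0 j 2 = fun y => (-Complex.I) * zc j y := by
      funext y
      simp [a0]
    rw [e, pd_const_mul (Sm.zc j), pd4_zc]
    simp

/-- the norm from the square -/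
theorem le_one_of_sq {r : ℝ} (h0 : 0 ≤ r) (h : r ^ 2 ≤ 1 ^ 2) : r ≤ 1 := by
  nlinarith

theorem dv_le {a : Str} (ha : Near a 1 1) (j : Fin 2) (x : E5) : ‖dv a j x‖ ≤ 3 := by
  have hl : ∀ l : Fin 3, ‖db l (fun y => conj (a j l y)) x‖ ≤ 1 := by
    intro l
    have hs : Sm (fun y => a j l y - a0 j l y) := Sm.sub (ha.sm j l) (smS_a0 j l)
    have e : (fun y => conj (a j l y))
        = fun y => conj ((fun y => a j l y - a0 j l y) y) + conj (a0 j l y) := by
      funext y
      simp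
    rw [e, db_add (Sm.conj hs) (Sm.conj (smS_a0 j l)), db_conj_a0, add_zero, db_conj hs,
      Complex.norm_conj]
    refine (dz_le (B := 1) ?_ l).1
    intro k
    have h1 := ha.bd j l 1 le_rfl x
    apply le_one_of_sq (norm_nonneg _)
    refine le_trans ?_ h1
    rw [sq_succ]
    exact Finset.single_le_sum (f := fun k => sq 0 (pd k fun y => a j l y - a0 j l y) x)
      (fun _ _ => sq_nonneg' _ _ _) (Finset.mem_univ k)
  unfold dv
  refine (norm_sum_le _ _).trans ?_
  rw [Fin.sum_univ_three]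
  have h0 := hl 0
  have h1 := hl 1
  have h2 := hl 2
  linarith

theorem a_le {a : Str} (ha : Near a 1 1) {x : E5} (hx : ‖x‖ ≤ 1) (j : Fin 2) (l : Fin 3) :
    ‖a j l x‖ ≤ 3 := by
  have h1 : ‖a j l x - a0 j l x‖ ≤ 1 := by
    apply le_one_of_sq (norm_nonneg _)
    exact ha.bd j l 0 (by omega) x
  have h2 := a0_le hx j l
  have h3 : a j l x = (a j l x - a0 j l x) + a0 j l x := by ring
  rw [h3]
  refine (norm_add_le _ _).trans ?_
  linarith

end ESzAux

open ESzAux in
theorem pESz : S_ESz := by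
  refine ⟨10, by norm_num, ?_⟩
  intro a ha x hx j
  have hx1 : ‖x‖ ≤ 1 := by
    have : ‖x‖ < 1 := by rwa [Metric.mem_ball, dist_zero_right] at hx
    exact this.le
  refine ⟨(dv_le ha j x).trans (by norm_num), ?_⟩
  intro θ hθ B hB
  have hB0 : 0 ≤ B := (norm_nonneg _).trans (hB 0)
  have hd := fun l => dz_le hB l
  have ha' := fun l => a_le ha hx1 j l
  have hm : ∀ {c d : ℂ}, ‖c‖ ≤ 3 → ‖d‖ ≤ B → ‖c * d‖ ≤ 3 * B := by
    intro c d hc hd
    rw [norm_mul]
    exact mul_le_mul hc hd (norm_nonneg _) (by norm_num)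
  constructor
  · unfold L
    refine (norm_add_le _ _).trans ?_
    have h1 := (hd j.castSucc).2
    have h2 : ‖∑ l, a j l x * dz l θ x‖ ≤ 3 * B + 3 * B + 3 * B := by
      refine (norm_sum_le _ _).trans ?_
      rw [Fin.sum_univ_three]
      have e0 := hm (ha' 0) (hd 0).1
      have e1 := hm (ha' 1) (hd 1).1
      have e2 := hm (ha' 2) (hd 2).1
      linarith
    linarith
  · unfold Lb
    refine (norm_add_le _ _).trans ?_
    have h1 := (hd j.castSucc).1
    have hc : ∀ l, ‖conj (a j l x)‖ ≤ 3 := by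
      intro l
      rw [Complex.norm_conj]
      exact ha' l
    have h2 : ‖∑ l, conj (a j l x) * db l θ x‖ ≤ 3 * B + 3 * B + 3 * B := by
      refine (norm_sum_le _ _).trans ?_
      rw [Fin.sum_univ_three]
      have e0 := hm (hc 0) (hd 0).2
      have e1 := hm (hc 1) (hd 1).2
      have e2 := hm (hc 2) (hd 2).2
      linarith
    linarith

end Pool.Agent.CR5
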