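import Pool.Agent.Lib.CR5.E.Spec

/-! # CR5, block E: bounds for the new data -/

set_option autoImplicit false

open MeasureTheory Set Filter Topology
open scoped ENNReal ComplexConjugate

noncomputable section

namespace Pool.Agent.CR5

namespace EBdAux

theorem nsq_sub3 (x y z : ℂ) : ‖x - (y - z)‖ ^ 2 ≤ 3 * (‖x‖ ^ 2 + ‖y‖ ^ 2 + ‖z‖ ^ 2) := by
  have h : ‖x - (y - z)‖ ≤ ‖x‖ + (‖y‖ + ‖z‖) :=
    (norm_sub_le _ _).trans (add_le_add le_rfl (norm_sub_le _ _))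
  have h2 : ‖x - (y - z)‖ ^ 2 ≤ (‖x‖ + (‖y‖ + ‖z‖)) ^ 2 := pow_le_pow_left₀ (norm_nonneg _) h 2
  nlinarith [sq_nonneg (‖x‖ - ‖y‖), sq_nonneg (‖x‖ - ‖z‖), sq_nonneg (‖y‖ - ‖z‖)]

theorem nsq_add3 (x y z : ℂ) : ‖x - (y + z)‖ ^ 2 ≤ 3 * (‖x‖ ^ 2 + ‖y‖ ^ 2 + ‖z‖ ^ 2) := by
  have h : ‖x - (y + z)‖ ≤ ‖x‖ + (‖y‖ + ‖z‖) :=
    (norm_sub_le _ _).trans (add_le_add le_rfl (norm_add_le _ _))
  have h2 : ‖x - (y + z)‖ ^ 2 ≤ (‖x‖ + (‖y‖ + ‖z‖)) ^ 2 := pow_le_pow_left₀ (norm_nonneg _) h 2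
  nlinarith [sq_nonneg (‖x‖ - ‖y‖), sq_nonneg (‖x‖ - ‖z‖), sq_nonneg (‖y‖ - ‖z‖)]

theorem nsq5 (p q r s t : ℂ) : ‖p + q + r - s - t‖ ^ 2
    ≤ 5 * (‖p‖ ^ 2 + ‖q‖ ^ 2 + ‖r‖ ^ 2 + ‖s‖ ^ 2 + ‖t‖ ^ 2) := by
  have h : ‖p + q + r - s - t‖ ≤ ‖p‖ + ‖q‖ + ‖r‖ + ‖s‖ + ‖t‖ :=
    (norm_sub_le _ _).trans (add_le_add ((norm_sub_le _ _).trans (add_le_add
      ((norm_add_le _ _).trans (add_le_add (norm_add_le _ _) le_rfl)) le_rfl)) le_rfl)
  have h2 : ‖p + q + r - s - t‖ ^ 2 ≤ (‖p‖ + ‖q‖ + ‖r‖ + ‖s‖ + ‖t‖) ^ 2 :=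
    pow_le_pow_left₀ (norm_nonneg _) h 2
  nlinarith [sq_nonneg (‖p‖ - ‖q‖), sq_nonneg (‖p‖ - ‖r‖), sq_nonneg (‖p‖ - ‖s‖),
    sq_nonneg (‖p‖ - ‖t‖), sq_nonneg (‖q‖ - ‖r‖), sq_nonneg (‖q‖ - ‖s‖), sq_nonneg (‖q‖ - ‖t‖),
    sq_nonneg (‖r‖ - ‖s‖), sq_nonneg (‖r‖ - ‖t‖), sq_nonneg (‖s‖ - ‖t‖)]

theorem sqs_add_le {f g : E5 → ℂ} (hf : Sm f) (hg : Sm g) (m : ℕ) (x : E5) :
    sqs m (fun y => f y + g y) x ≤ 2 * (sqs m f x + sqs m g x) := by
  unfold sqs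
  rw [← Finset.sum_add_distrib, Finset.mul_sum]
  exact Finset.sum_le_sum fun i _ => (sq_add_le i hf hg x).trans (by linarith)

theorem sqs_sub_le {f g : E5 → ℂ} (hf : Sm f) (hg : Sm g) (m : ℕ) (x : E5) :
    sqs m (fun y => f y - g y) x ≤ 2 * (sqs m f x + sqs m g x) := by
  unfold sqs
  rw [← Finset.sum_add_distrib, Finset.mul_sum]
  exact Finset.sum_le_sum fun i _ => (sq_sub_le i hf hg x).trans (by linarith)

/-- Sum of the bounds for `sq i (P f)`. -/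
theorem sqs_P_le {C : ℝ} (hC : 0 ≤ C) (a : Str) (m : ℕ) {f g : E5 → ℂ} {x : E5}
    (h : ∀ i ≤ m, sq i g x ≤ C * (gq a i f x + sqs i f x)) :
    sqs m g x ≤ C * (∑ i ∈ Finset.range (m + 1), gq a i f x + (m + 1) * sqs m f x) := by
  have h1 : sqs m g x ≤ ∑ i ∈ Finset.range (m + 1), C * (gq a i f x + sqs m f x) := by
    refine Finset.sum_le_sum fun i hi => ?_
    have hi' : i ≤ m := Nat.lt_succ_iff.1 (Finset.mem_range.1 hi)
    exact (h i hi').trans (mul_le_mul_of_nonneg_left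
      (add_le_add le_rfl (sqs_mono hi' f x)) hC)
  refine h1.trans (le_of_eq ?_)
  rw [← Finset.mul_sum, Finset.sum_add_distrib, Finset.sum_const, Finset.card_range,
    nsmul_eq_mul]
  push_cast
  ring

end EBdAux

open EBdAux in
theorem pEBd (hOp : S_EOp) (hCm : S_ECm) (hGq : S_EGq) : S_EBd := by
  intro m B
  obtain ⟨B', hB'⟩ := hOp m B
  obtain ⟨C1, hC1, h1⟩ := hCm m B'
  obtain ⟨C2, hC2, h2⟩ := hGq m B
  refine ⟨5 + 6 * C1 + 20 * C1 * C2 * (m + 1), ?_, ?_⟩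
  · have : 0 ≤ C1 * C2 * (m + 1) := by positivity
    linarith
  intro a ha hBa w f β b hw hf hβ hb I hI x hx
  have hIm : I.length ≤ m := hI.le
  have cL : ∀ j g, Sm g → ‖cm (L a j) I g x‖ ^ 2 ≤ C1 * sqs m g x := fun j g hg => by
    have := h1 (L a j) (hB' a ha hBa j).1 g hg I hIm x hx
    rwa [hI] at this
  have cS : ∀ j g, Sm g → ‖cm (Ls a j) I g x‖ ^ 2 ≤ C1 * sqs m g x := fun j g hg => by
    have := h1 (Ls a j) (hB' a ha hBa j).2.2 g hg I hIm x hx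
    rwa [hI] at this
  have cSS : ∀ j g, Sm g → ‖cmS a I g j x‖ ^ 2 ≤ C1 * sqs m g x := fun j g hg => by
    unfold cmS
    by_cases h : j = 0
    · simp only [h, if_true, norm_neg]; exact cS 1 g hg
    · simp only [h, if_false]; exact cS 0 g hg
  have pL : ∀ g, ‖pdL I g x‖ ^ 2 ≤ sqs m g x := fun g => by
    rw [← hI]
    have e := sq_eq_sL I.length g x
    exact (le_sL (F := fun I => ‖pdL I g x‖ ^ 2) (fun _ _ => by positivity) rfl).trans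
      (e.ge.trans (sq_le_sqs le_rfl g x))
  have n0 := sqs_nonneg m (w 0) x
  have n1 := sqs_nonneg m (w 1) x
  have nβ := sqs_nonneg m β x
  have nb := sqs_nonneg m b x
  have nf0 := sqs_nonneg m (f 0) x
  have nf1 := sqs_nonneg m (f 1) x
  set G : ℝ := ∑ i ∈ Finset.range (m + 1), (gq a i (w 0) x + gq a i (w 1) x) with hG
  have nG : 0 ≤ G := Finset.sum_nonneg fun i _ =>
    add_nonneg (gq_nonneg _ _ _ _) (gq_nonneg _ _ _ _)
  have eG : G = ∑ i ∈ Finset.range (m + 1), gq a i (w 0) x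
      + ∑ i ∈ Finset.range (m + 1), gq a i (w 1) x := Finset.sum_add_distrib
  have ng0 : 0 ≤ ∑ i ∈ Finset.range (m + 1), gq a i (w 0) x :=
    Finset.sum_nonneg fun i _ => gq_nonneg _ _ _ _
  have ng1 : 0 ≤ ∑ i ∈ Finset.range (m + 1), gq a i (w 1) x :=
    Finset.sum_nonneg fun i _ => gq_nonneg _ _ _ _
  have sP : ∀ k j, sqs m (Ls a k (w j)) x
      ≤ C2 * (∑ i ∈ Finset.range (m + 1), gq a i (w j) x + (m + 1) * sqs m (w j) x) :=
    fun k j => sqs_P_le hC2 a m fun i hi => (h2 a ha hBa (w j) (hw j) i hi x hx k).2.2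
  have sQ : ∀ k j, sqs m (L a k (w j)) x
      ≤ C2 * (∑ i ∈ Finset.range (m + 1), gq a i (w j) x + (m + 1) * sqs m (w j) x) :=
    fun k j => sqs_P_le hC2 a m fun i hi => (h2 a ha hBa (w j) (hw j) i hi x hx k).1
  have bD0 : sqs m (D0s a w) x ≤ 2 * C2 * (G + (m + 1) * (sqs m (w 0) x + sqs m (w 1) x)) := by
    have h := sqs_add_le ((hw 0).Ls ha 0) ((hw 1).Ls ha 1) m x
    have e : (fun y => Ls a 0 (w 0) y + Ls a 1 (w 1) y) = D0s a w := rfl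
    rw [e] at h
    have := sP 0 0
    have := sP 1 1
    rw [eG]
    nlinarith
  have bD1 : sqs m (D1 a w) x ≤ 2 * C2 * (G + (m + 1) * (sqs m (w 0) x + sqs m (w 1) x)) := by
    have h := sqs_sub_le ((hw 1).L ha 0) ((hw 0).L ha 1) m x
    have e : (fun y => L a 0 (w 1) y - L a 1 (w 0) y) = D1 a w := rfl
    rw [e] at h
    have := sQ 0 1
    have := sQ 1 0
    rw [eG]
    nlinarith
  have K0 : 0 ≤ C1 * C2 * (m + 1) := by positivity
  have K1 : C1 * C2 ≤ C1 * C2 * (m + 1) := by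
    have : 0 ≤ C1 * C2 := mul_nonneg hC1 hC2
    have hm : (0 : ℝ) ≤ m := Nat.cast_nonneg m
    nlinarith
  constructor
  · have e1 : ‖βI a w β I x‖ ^ 2 ≤ 3 * (sqs m β x + C1 * sqs m (w 1) x + C1 * sqs m (w 0) x) :=
      (nsq_sub3 _ _ _).trans (mul_le_mul_of_nonneg_left
        (add_le_add (add_le_add (pL β) (cL 0 _ (hw 1))) (cL 1 _ (hw 0))) (by norm_num))
    have e2 : ‖bI a w b I x‖ ^ 2 ≤ 3 * (sqs m b x + C1 * sqs m (w 0) x + C1 * sqs m (w 1) x) :=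
      (nsq_add3 _ _ _).trans (mul_le_mul_of_nonneg_left
        (add_le_add (add_le_add (pL b) (cS 0 _ (hw 0))) (cS 1 _ (hw 1))) (by norm_num))
    set S := sqs m β x + sqs m b x + sqs m (w 0) x + sqs m (w 1) x with hS
    have nS : 0 ≤ S := by positivity
    calc ‖βI a w β I x‖ ^ 2 + ‖bI a w b I x‖ ^ 2
        ≤ 3 * (sqs m β x + sqs m b x) + 6 * C1 * (sqs m (w 0) x + sqs m (w 1) x) := by linarith
      _ ≤ 3 * S + 6 * C1 * S := by
          have : 6 * C1 * (sqs m (w 0) x + sqs m (w 1) x) ≤ 6 * C1 * S :=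
            mul_le_mul_of_nonneg_left (by rw [hS]; linarith) (by positivity)
          have : 3 * (sqs m β x + sqs m b x) ≤ 3 * S := by rw [hS]; linarith
          linarith
      _ ≤ (5 + 6 * C1 + 20 * C1 * C2 * (m + 1)) * S := by nlinarith [mul_nonneg K0 nS]
  · intro j
    have fj : sqs m (f j) x ≤ sqs m (f 0) x + sqs m (f 1) x := by
      rcases Fin.exists_fin_two.1 ⟨j, rfl⟩ with h | h
      · rw [← h]; linarith
      · rw [← h]; linarith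
    have e1 : ‖RI a w f β b I j x‖ ^ 2 ≤ 5 * (sqs m (f j) x + C1 * sqs m β x + C1 * sqs m b x
        + C1 * sqs m (D0s a w) x + C1 * sqs m (D1 a w) x) :=
      (nsq5 _ _ _ _ _).trans (mul_le_mul_of_nonneg_left
        (add_le_add (add_le_add (add_le_add (add_le_add (pL (f j)) (cSS j β hβ)) (cL j b hb))
          (cL j _ (Sm.D0s ha hw))) (cSS j _ (Sm.D1 ha hw))) (by norm_num))
    have e2 : C1 * sqs m (D0s a w) x
        ≤ C1 * (2 * C2 * (G + (m + 1) * (sqs m (w 0) x + sqs m (w 1) x))) :=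
      mul_le_mul_of_nonneg_left bD0 hC1
    have e3 : C1 * sqs m (D1 a w) x
        ≤ C1 * (2 * C2 * (G + (m + 1) * (sqs m (w 0) x + sqs m (w 1) x))) :=
      mul_le_mul_of_nonneg_left bD1 hC1
    set W := sqs m (w 0) x + sqs m (w 1) x with hW
    have nW : 0 ≤ W := by positivity
    have e4 : C1 * C2 * G ≤ C1 * C2 * (m + 1) * G := mul_le_mul_of_nonneg_right K1 nG
    have q1 : 0 ≤ C1 * sqs m β x := mul_nonneg hC1 nβ
    have q2 : 0 ≤ C1 * sqs m b x := mul_nonneg hC1 nb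
    have q3 : 0 ≤ C1 * W := mul_nonneg hC1 nW
    have q4 : 0 ≤ C1 * G := mul_nonneg hC1 nG
    have q5 : 0 ≤ C1 * (sqs m (f 0) x + sqs m (f 1) x) := mul_nonneg hC1 (by positivity)
    have q6 : 0 ≤ C1 * C2 * (m + 1) * (sqs m (f 0) x + sqs m (f 1) x) :=
      mul_nonneg K0 (by positivity)
    have q7 : 0 ≤ C1 * C2 * (m + 1) * (sqs m β x + sqs m b x) := mul_nonneg K0 (by positivity)
    have e5 : ‖RI a w f β b I j x‖ ^ 2 ≤ 5 * (sqs m (f 0) x + sqs m (f 1) x)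
        + 5 * C1 * (sqs m β x + sqs m b x) + 20 * (C1 * C2 * G)
        + 20 * (C1 * C2 * (m + 1) * W) := by
      nlinarith
    have e6 : (5 + 6 * C1 + 20 * C1 * C2 * (m + 1)) * (sqs m (f 0) x + sqs m (f 1) x
        + sqs m β x + sqs m b x + sqs m (w 0) x + sqs m (w 1) x + G)
        = 5 * (sqs m (f 0) x + sqs m (f 1) x) + 5 * (sqs m β x + sqs m b x) + 5 * W + 5 * G
          + 6 * (C1 * (sqs m (f 0) x + sqs m (f 1) x)) + 6 * C1 * (sqs m β x + sqs m b x)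
          + 6 * (C1 * W) + 6 * (C1 * G)
          + 20 * (C1 * C2 * (m + 1) * (sqs m (f 0) x + sqs m (f 1) x))
          + 20 * (C1 * C2 * (m + 1) * (sqs m β x + sqs m b x))
          + 20 * (C1 * C2 * (m + 1) * W) + 20 * (C1 * C2 * (m + 1) * G) := by
      rw [hW]; ring
    rw [e6]
    linarith

end Pool.Agent.CR5
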