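import Pool.Agent.Lib.CR5.E.Spec

/-!
# CR5, block E: commutators of first order operators with iterated derivatives
-/

set_option autoImplicit false

open MeasureTheory Set Filter Topology
open scoped ENNReal ComplexConjugate

noncomputable section

namespace Pool.Agent.CR5

namespace ECmx

theorem sm_FO {c : Fin 5 → E5 → ℂ} {d : E5 → ℂ} (hc : ∀ k, Sm (c k)) (hd : Sm d) {f : E5 → ℂ}
    (hf : Sm f) : Sm (FO c d f) :=
  (Sm.sum _ fun k _ => (hc k).mul (hf.pd k)).add (hd.mul hf)

theorem pd_FO {c : Fin 5 → E5 → ℂ} {d : E5 → ℂ} (hc : ∀ k, Sm (c k)) (hd : Sm d) {f : E5 → ℂ}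
    (hf : Sm f) (k : Fin 5) :
    pd k (FO c d f) = fun x => FO c d (pd k f) x + FO (fun l => pd k (c l)) (pd k d) f x := by
  funext x
  have e : FO c d f = fun y => (∑ l, c l y * pd l f y) + d y * f y := rfl
  rw [e, pd_add (Sm.sum _ fun l _ => (hc l).mul (hf.pd l)) (hd.mul hf),
    pd_sum _ (fun l _ => (hc l).mul (hf.pd l)), pd_mul hd hf]
  have e1 : ∀ l, pd k (fun y => c l y * pd l f y) x
      = c l x * pd l (pd k f) x + pd k (c l) x * pd l f x := by
    intro l
    rw [pd_mul (hc l) (hf.pd l), pd_comm hf k l]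
  simp only [e1, Finset.sum_add_distrib]
  unfold FO
  ring

theorem sq_pd_lem (i : ℕ) (k : Fin 5) (c : E5 → ℂ) (x : E5) : sq i (pd k c) x ≤ sq (i + 1) c x :=
  Finset.single_le_sum (f := fun l : Fin 5 => sq i (pd l c) x) (fun _ _ => sq_nonneg' _ _ _)
    (Finset.mem_univ k)

theorem sqs_pd_le (n : ℕ) (k : Fin 5) (f : E5 → ℂ) (x : E5) :
    sqs n (pd k f) x ≤ sqs (n + 1) f x := by
  unfold sqs
  rw [Finset.sum_range_succ' (fun i => sq i f x) (n + 1)]
  have h1 : ∑ i ∈ Finset.range (n + 1), sq i (pd k f) x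
      ≤ ∑ i ∈ Finset.range (n + 1), sq (i + 1) f x :=
    Finset.sum_le_sum fun i _ => sq_pd_lem i k f x
  have h2 : 0 ≤ sq 0 f x := sq_nonneg' _ _ _
  linarith

theorem norm_add_sqm (a b : ℂ) : ‖a + b‖ ^ 2 ≤ 2 * ‖a‖ ^ 2 + 2 * ‖b‖ ^ 2 := by
  have h := norm_add_le a b
  have h1 : ‖a + b‖ ^ 2 ≤ (‖a‖ + ‖b‖) ^ 2 := pow_le_pow_left₀ (norm_nonneg _) h 2
  nlinarith [sq_nonneg (‖a‖ - ‖b‖)]

end ECmx

open ECmx in
theorem pECm (hLe : S_ELe) : S_ECm := by
  intro n
  induction n with
  | zero =>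
    intro B
    refine ⟨0, le_rfl, ?_⟩
    intro P _ f _ I hI x _
    have h0 : I = [] := List.length_eq_zero_iff.1 (Nat.le_zero.1 hI)
    subst h0
    have h1 : cm P [] f x = 0 := sub_self _
    rw [h1]
    simp
  | succ n ih =>
    intro B
    obtain ⟨C1, hC1, h1⟩ := ih B
    obtain ⟨C2, hC2, h2⟩ := hLe n B
    refine ⟨2 * C1 + 2 * C2, by positivity, ?_⟩
    intro P hP f hf I hI x hx
    have hPn : OpB n B P := hP.mono (Nat.le_succ n)
    obtain ⟨c, d, hc, hd, hcB, hdB, hPe⟩ := hP
    cases I with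
    | nil =>
      have h3 : cm P [] f x = 0 := sub_self _
      rw [h3]
      have h4 : 0 ≤ sqs ([] : List (Fin 5)).length f x := sqs_nonneg _ _ _
      have h5 : 0 ≤ (2 * C1 + 2 * C2) * sqs ([] : List (Fin 5)).length f x := by positivity
      simpa using h5
    | cons k J =>
      have hJ : J.length ≤ n := by simpa using hI
      -- the operator with the differentiated coefficients
      have hP' : OpB n B (FO (fun l => pd k (c l)) (pd k d)) := by
        refine ⟨fun l => pd k (c l), pd k d, fun l => (hc l).pd k, hd.pd k, ?_, ?_, fun _ _ => rfl⟩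
        · intro l i hi y hy
          exact (sq_pd_lem i k (c l) y).trans (hcB l (i + 1) (Nat.succ_le_succ hi) y hy)
        · intro i hi y hy
          exact (sq_pd_lem i k d y).trans (hdB (i + 1) (Nat.succ_le_succ hi) y hy)
      have e : pd k (P f) = fun y => P (pd k f) y + FO (fun l => pd k (c l)) (pd k d) f y := by
        rw [hPe f hf, hPe (pd k f) (hf.pd k)]
        exact pd_FO hc hd hf k
      have sP : Sm (P (pd k f)) := by
        rw [hPe (pd k f) (hf.pd k)]
        exact sm_FO hc hd (hf.pd k)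
      have sP' : Sm (FO (fun l => pd k (c l)) (pd k d) f) :=
        sm_FO (fun l => (hc l).pd k) (hd.pd k) hf
      have key : cm P (k :: J) f x
          = cm P J (pd k f) x + pdL J (FO (fun l => pd k (c l)) (pd k d) f) x := by
        show pdL J (pd k (P f)) x - P (pdL J (pd k f)) x = _
        rw [e, pdL_add sP sP']
        unfold cm
        ring
      have b1 := h1 P hPn (pd k f) (hf.pd k) J hJ x hx
      have b2 := sqs_pd_le J.length k f x
      have b3 : ‖pdL J (FO (fun l => pd k (c l)) (pd k d) f) x‖ ^ 2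
          ≤ C2 * sqs (J.length + 1) f x :=
        (norm_pdL_sq_le rfl x).trans (h2 _ hP' f hf J.length hJ x hx)
      have b4 : C1 * sqs J.length (pd k f) x ≤ C1 * sqs (J.length + 1) f x :=
        mul_le_mul_of_nonneg_left b2 hC1
      have b5 := norm_add_sqm (cm P J (pd k f) x)
        (pdL J (FO (fun l => pd k (c l)) (pd k d) f) x)
      rw [key]
      show _ ≤ (2 * C1 + 2 * C2) * sqs (J.length + 1) f x
      linarith

end Pool.Agent.CR5
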