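import Pool.Agent.Lib.CR5.E.Spec
import Pool.Agent.Lib.CR5.SpecB

/-!
# CR5, E/ECom: the commutator of `L 0` and `Lb 0`
-/

set_option autoImplicit false

open MeasureTheory Set Filter Topology
open scoped ENNReal ComplexConjugate

noncomputable section

namespace Pool.Agent.CR5

namespace EComAux

theorem nh (z : ℂ) : ‖z / 2‖ ≤ ‖z‖ := by
  rw [norm_div]
  simp only [Complex.norm_ofNat]
  have := norm_nonneg z
  linarith

theorem db_le (l : Fin 3) (f : E5 → ℂ) (x : E5) : ‖db l f x‖ ≤ ∑ k, ‖pd k f x‖ := by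
  rw [Fin.sum_univ_five]
  have n0 := norm_nonneg (pd 0 f x)
  have n1 := norm_nonneg (pd 1 f x)
  have n2 := norm_nonneg (pd 2 f x)
  have n3 := norm_nonneg (pd 3 f x)
  have n4 := norm_nonneg (pd 4 f x)
  rcases fin3_cases l with rfl | rfl | rfl
  · rw [db_zero]
    have h1 := nh (pd 0 f x + Complex.I * pd 1 f x)
    have h2 := norm_add_le (pd 0 f x) (Complex.I * pd 1 f x)
    rw [norm_mul, Complex.norm_I, one_mul] at h2
    linarith
  · rw [db_one]
    have h1 := nh (pd 2 f x + Complex.I * pd 3 f x)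
    have h2 := norm_add_le (pd 2 f x) (Complex.I * pd 3 f x)
    rw [norm_mul, Complex.norm_I, one_mul] at h2
    linarith
  · rw [db_two]
    linarith

theorem dz_le (l : Fin 3) (f : E5 → ℂ) (x : E5) : ‖dz l f x‖ ≤ ∑ k, ‖pd k f x‖ := by
  rw [Fin.sum_univ_five]
  have n0 := norm_nonneg (pd 0 f x)
  have n1 := norm_nonneg (pd 1 f x)
  have n2 := norm_nonneg (pd 2 f x)
  have n3 := norm_nonneg (pd 3 f x)
  have n4 := norm_nonneg (pd 4 f x)
  rcases fin3_cases l with rfl | rfl | rfl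
  · rw [dz_zero]
    have h1 := nh (pd 0 f x - Complex.I * pd 1 f x)
    have h2 := norm_sub_le (pd 0 f x) (Complex.I * pd 1 f x)
    rw [norm_mul, Complex.norm_I, one_mul] at h2
    linarith
  · rw [dz_one]
    have h1 := nh (pd 2 f x - Complex.I * pd 3 f x)
    have h2 := norm_sub_le (pd 2 f x) (Complex.I * pd 3 f x)
    rw [norm_mul, Complex.norm_I, one_mul] at h2
    linarith
  · rw [dz_two]
    linarith

end EComAux

open EComAux in
theorem pECom (hCmm : S_Cmm) (hCfs : S_Cfs) : S_ECom := by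
  obtain ⟨C, hC, h⟩ := hCfs
  have hC2 : 1 ≤ C ^ 2 := one_le_pow₀ hC
  refine ⟨180 * C ^ 2, by linarith, ?_⟩
  intro ε hε hε1 a ha f hf x _
  obtain ⟨hA, hB, -⟩ := h a ε hε hε1 ha
  have h1 := hCmm a ha.smS 0 0 f hf x
  rw [if_pos rfl] at h1
  have h2 : L a 0 (Lb a 0 f) x - Lb a 0 (L a 0 f) x - 2 * Complex.I * pd 4 f x
      = ∑ l, (cA a 0 0 l x * db l f x - cB a 0 0 l x * dz l f x) := by
    rw [h1]
    ring
  rw [h2]
  obtain ⟨S, hS⟩ : ∃ S, S = ∑ k, ‖pd k f x‖ := ⟨_, rfl⟩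
  have hS0 : 0 ≤ S := by
    rw [hS]
    exact Finset.sum_nonneg fun k _ => norm_nonneg _
  have hCe : 0 ≤ C * ε := by positivity
  have h3 : ‖∑ l, (cA a 0 0 l x * db l f x - cB a 0 0 l x * dz l f x)‖ ≤ 6 * (C * ε * S) := by
    calc ‖∑ l, (cA a 0 0 l x * db l f x - cB a 0 0 l x * dz l f x)‖
        ≤ ∑ l : Fin 3, ‖cA a 0 0 l x * db l f x - cB a 0 0 l x * dz l f x‖ := norm_sum_le _ _
      _ ≤ ∑ l : Fin 3, 2 * (C * ε * S) := by
          refine Finset.sum_le_sum fun l _ => ?_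
          have e1 := (hA 0 0 l).2.2.1 x
          have e2 := (hB 0 0 l).2.2.1 x
          have e3 := db_le l f x
          have e4 := dz_le l f x
          rw [← hS] at e3 e4
          have e5 := norm_sub_le (cA a 0 0 l x * db l f x) (cB a 0 0 l x * dz l f x)
          rw [norm_mul, norm_mul] at e5
          have e6 := mul_le_mul e1 e3 (norm_nonneg _) hCe
          have e7 := mul_le_mul e2 e4 (norm_nonneg _) hCe
          linarith
      _ = 6 * (C * ε * S) := by
          simp only [Finset.sum_const, Finset.card_univ, Fintype.card_fin, nsmul_eq_mul]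
          push_cast
          ring
  have h4 : S ^ 2 ≤ 5 * ∑ k, ‖pd k f x‖ ^ 2 := by
    rw [hS]
    have := sq_sum_le_card_mul_sum_sq (s := (Finset.univ : Finset (Fin 5)))
      (f := fun k => ‖pd k f x‖)
    simpa using this
  calc ‖∑ l, (cA a 0 0 l x * db l f x - cB a 0 0 l x * dz l f x)‖ ^ 2
      ≤ (6 * (C * ε * S)) ^ 2 := pow_le_pow_left₀ (norm_nonneg _) h3 2
    _ = 36 * C ^ 2 * ε ^ 2 * S ^ 2 := by ring
    _ ≤ 36 * C ^ 2 * ε ^ 2 * (5 * ∑ k, ‖pd k f x‖ ^ 2) :=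
        mul_le_mul_of_nonneg_left h4 (by positivity)
    _ = 180 * C ^ 2 * ε ^ 2 * ∑ k, ‖pd k f x‖ ^ 2 := by ring

end Pool.Agent.CR5
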