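import Pool.Agent.Lib.CR5.E.Spec

/-!
# CR5, block E: the energy inequality with a cutoff function
-/

set_option autoImplicit false

open MeasureTheory Set Filter Topology
open scoped ENNReal ComplexConjugate

noncomputable section

namespace Pool.Agent.CR5

namespace EEnAux

/-- Integration of a pointwise inequality with three majorants. -/
theorem int_le3 {f g₁ g₂ g₃ : E5 → ℝ} {α β γ : ℝ} (h0 : ∀ x, 0 ≤ f x)
    (i₁ : Integrable g₁ volume) (i₂ : Integrable g₂ volume) (i₃ : Integrable g₃ volume)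
    (h : ∀ x, f x ≤ α * g₁ x + β * g₂ x + γ * g₃ x) :
    ∫ x, f x ≤ α * (∫ x, g₁ x) + β * (∫ x, g₂ x) + γ * ∫ x, g₃ x := by
  have e : ∫ x, (α * g₁ x + β * g₂ x + γ * g₃ x)
      = α * (∫ x, g₁ x) + β * (∫ x, g₂ x) + γ * ∫ x, g₃ x := by
    have e1 := integral_add (μ := (volume : Measure E5)) (f := fun x => α * g₁ x + β * g₂ x)
      (g := fun x => γ * g₃ x) ((i₁.const_mul α).add (i₂.const_mul β)) (i₃.const_mul γ)
    have e2 := integral_add (μ := (volume : Measure E5)) (f := fun x => α * g₁ x)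
      (g := fun x => β * g₂ x) (i₁.const_mul α) (i₂.const_mul β)
    rw [e1, e2, integral_const_mul, integral_const_mul, integral_const_mul]
  rw [← e]
  exact integral_mono_of_nonneg (Eventually.of_forall h0)
    (((i₁.const_mul α).add (i₂.const_mul β)).add (i₃.const_mul γ)) (Eventually.of_forall h)

theorem int_sq {f : E5 → ℂ} (h : Tst f) : Integrable (fun x => ‖f x‖ ^ 2) volume :=
  Continuous.integrable_of_hasCompactSupport (h.sm.cont.norm.pow 2)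
    (h.cs.comp_left (g := fun w : ℂ => ‖w‖ ^ 2) (by simp))

theorem sq_add_le (p q : ℝ) : (p + q) ^ 2 ≤ 2 * p ^ 2 + 2 * q ^ 2 := by
  nlinarith [sq_nonneg (p - q)]

theorem norm_add_sq_le (p q : ℂ) : ‖p + q‖ ^ 2 ≤ 2 * ‖p‖ ^ 2 + 2 * ‖q‖ ^ 2 :=
  (pow_le_pow_left₀ (norm_nonneg _) (norm_add_le p q) 2).trans (sq_add_le _ _)

theorem norm_sub_sq_le (p q : ℂ) : ‖p - q‖ ^ 2 ≤ 2 * ‖p‖ ^ 2 + 2 * ‖q‖ ^ 2 :=
  (pow_le_pow_left₀ (norm_nonneg _) (norm_sub_le p q) 2).trans (sq_add_le _ _)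

theorem young (κ p q : ℝ) (hκ : 0 < κ) : p * q ≤ κ * q ^ 2 + 1 / (4 * κ) * p ^ 2 := by
  have h1 : 0 ≤ (p - 2 * κ * q) ^ 2 / (4 * κ) := by positivity
  have h2 : (p - 2 * κ * q) ^ 2 / (4 * κ) = κ * q ^ 2 + 1 / (4 * κ) * p ^ 2 - p * q := by
    field_simp
    ring
  linarith

theorem aux1 {z K n t : ℝ} (ht : 0 ≤ t) (h : t ≤ 2 * K * z) :
    t ^ 2 * n ^ 2 ≤ 4 * K ^ 2 * (z ^ 2 * n ^ 2) := by
  have h5 : t ^ 2 ≤ (2 * K * z) ^ 2 := pow_le_pow_left₀ ht h 2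
  have h6 : t ^ 2 * n ^ 2 ≤ (2 * K * z) ^ 2 * n ^ 2 := mul_le_mul_of_nonneg_right h5 (sq_nonneg n)
  calc t ^ 2 * n ^ 2 ≤ (2 * K * z) ^ 2 * n ^ 2 := h6
    _ = 4 * K ^ 2 * (z ^ 2 * n ^ 2) := by ring

theorem aux2 {κ K z s P Q n0 n1 : ℝ} (hκ : 0 < κ) (hz : 0 ≤ z) (hs : 0 ≤ s)
    (hQ : Q ≤ z ^ 4 * P + 4 * K * z ^ 3 * (n0 + n1)) :
    s * Q ≤ κ * (z ^ 4 * P ^ 2) + (1 / (4 * κ) + 1 / 2) * (z ^ 4 * s ^ 2)
        + 16 * K ^ 2 * (z ^ 2 * (n0 ^ 2 + n1 ^ 2)) := by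
  have y1 : s * Q ≤ s * (z ^ 4 * P + 4 * K * z ^ 3 * (n0 + n1)) := mul_le_mul_of_nonneg_left hQ hs
  have y2 : z ^ 4 * (s * P) ≤ z ^ 4 * (κ * P ^ 2 + 1 / (4 * κ) * s ^ 2) :=
    mul_le_mul_of_nonneg_left (young κ s P hκ) (pow_nonneg hz 4)
  have y3 : (z ^ 2 * s) * (4 * K * z * (n0 + n1))
      ≤ 1 / 2 * (z ^ 2 * s) ^ 2 + 1 / 2 * (4 * K * z * (n0 + n1)) ^ 2 := by
    have := sq_nonneg (z ^ 2 * s - 4 * K * z * (n0 + n1))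
    linarith [show (z ^ 2 * s - 4 * K * z * (n0 + n1)) ^ 2 = (z ^ 2 * s) ^ 2
      + (4 * K * z * (n0 + n1)) ^ 2 - 2 * ((z ^ 2 * s) * (4 * K * z * (n0 + n1))) by ring]
  have y4 : (n0 + n1) ^ 2 ≤ 2 * (n0 ^ 2 + n1 ^ 2) := by
    have := sq_add_le n0 n1
    linarith
  have y5 : (4 * K * z * (n0 + n1)) ^ 2 ≤ 32 * K ^ 2 * (z ^ 2 * (n0 ^ 2 + n1 ^ 2)) := by
    have e : (4 * K * z * (n0 + n1)) ^ 2 = 16 * K ^ 2 * z ^ 2 * (n0 + n1) ^ 2 := by ring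
    rw [e]
    have := mul_le_mul_of_nonneg_left y4 (by positivity : (0 : ℝ) ≤ 16 * K ^ 2 * z ^ 2)
    linarith
  have e1 : s * (z ^ 4 * P + 4 * K * z ^ 3 * (n0 + n1))
      = z ^ 4 * (s * P) + (z ^ 2 * s) * (4 * K * z * (n0 + n1)) := by ring
  have e2 : z ^ 4 * (κ * P ^ 2 + 1 / (4 * κ) * s ^ 2)
      = κ * (z ^ 4 * P ^ 2) + 1 / (4 * κ) * (z ^ 4 * s ^ 2) := by ring
  have e3 : 1 / 2 * (z ^ 2 * s) ^ 2 = 1 / 2 * (z ^ 4 * s ^ 2) := by ring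
  rw [e1] at y1
  rw [e2] at y2
  rw [e3] at y3
  linarith

theorem aux3 {τ z r0 r1 n0 n1 : ℝ} (hτ : 0 < τ) (hz : 0 ≤ z) (hz1 : z ≤ 1) :
    (z ^ 2) ^ 2 * (r0 * n0 + r1 * n1)
      ≤ τ * (z ^ 4 * (r0 ^ 2 + r1 ^ 2)) + 1 / τ * (z ^ 2 * (n0 ^ 2 + n1 ^ 2)) := by
  have y1 := young τ n0 r0 hτ
  have y2 := young τ n1 r1 hτ
  have y3 : r0 * n0 + r1 * n1 ≤ τ * (r0 ^ 2 + r1 ^ 2) + 1 / (4 * τ) * (n0 ^ 2 + n1 ^ 2) := by
    linarith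
  have y4 : 1 / (4 * τ) * (n0 ^ 2 + n1 ^ 2) ≤ 1 / τ * (n0 ^ 2 + n1 ^ 2) := by
    refine mul_le_mul_of_nonneg_right ?_ (by positivity)
    apply one_div_le_one_div_of_le hτ
    linarith
  have h42 : z ^ 4 ≤ z ^ 2 := pow_le_pow_of_le_one hz hz1 (by norm_num)
  have y5 : z ^ 4 * (r0 * n0 + r1 * n1)
      ≤ z ^ 4 * (τ * (r0 ^ 2 + r1 ^ 2) + 1 / τ * (n0 ^ 2 + n1 ^ 2)) :=
    mul_le_mul_of_nonneg_left (y3.trans (by linarith)) (pow_nonneg hz 4)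
  have y6 : z ^ 4 * (1 / τ * (n0 ^ 2 + n1 ^ 2)) ≤ z ^ 2 * (1 / τ * (n0 ^ 2 + n1 ^ 2)) :=
    mul_le_mul_of_nonneg_right h42 (by positivity)
  calc (z ^ 2) ^ 2 * (r0 * n0 + r1 * n1) = z ^ 4 * (r0 * n0 + r1 * n1) := by ring
    _ ≤ z ^ 4 * (τ * (r0 ^ 2 + r1 ^ 2) + 1 / τ * (n0 ^ 2 + n1 ^ 2)) := y5
    _ = τ * (z ^ 4 * (r0 ^ 2 + r1 ^ 2)) + z ^ 4 * (1 / τ * (n0 ^ 2 + n1 ^ 2)) := by ring
    _ ≤ τ * (z ^ 4 * (r0 ^ 2 + r1 ^ 2)) + z ^ 2 * (1 / τ * (n0 ^ 2 + n1 ^ 2)) := by linarith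
    _ = _ := by ring

theorem aux4 {K z m : ℝ} (hz : 0 ≤ z) (h : m ≤ 2 * K * z) :
    2 * (z ^ 2 * m) ≤ 4 * K * z ^ 3 := by
  have := mul_le_mul_of_nonneg_left h (pow_nonneg hz 2)
  calc 2 * (z ^ 2 * m) ≤ 2 * (z ^ 2 * (2 * K * z)) := by linarith
    _ = 4 * K * z ^ 3 := by ring

theorem aux5 {κ z D Gx U Cz K : ℝ} (hκ : 0 ≤ κ) (hκ1 : κ ≤ 1) (hz : 0 ≤ z) (hz1 : z ≤ 1)
    (hU : 0 ≤ U) (hCK : Cz ^ 2 ≤ K ^ 2) (h : D ^ 2 ≤ 4 * Gx + 4 * Cz ^ 2 * U) :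
    κ * (z ^ 4 * D ^ 2) ≤ 4 * κ * (z ^ 4 * Gx) + 4 * K ^ 2 * (z ^ 2 * U) := by
  have h42 : z ^ 4 ≤ z ^ 2 := pow_le_pow_of_le_one hz hz1 (by norm_num)
  have y2 : κ * (z ^ 4 * D ^ 2) ≤ κ * (z ^ 4 * (4 * Gx + 4 * Cz ^ 2 * U)) :=
    mul_le_mul_of_nonneg_left (mul_le_mul_of_nonneg_left h (pow_nonneg hz 4)) hκ
  have q2 : 4 * Cz ^ 2 * U ≤ 4 * K ^ 2 * U := mul_le_mul_of_nonneg_right (by linarith) hU
  have q3 : 0 ≤ 4 * Cz ^ 2 * U := mul_nonneg (by positivity) hU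
  have y3 : κ * (z ^ 4 * (4 * Cz ^ 2 * U)) ≤ 1 * (z ^ 2 * (4 * K ^ 2 * U)) :=
    mul_le_mul hκ1 (mul_le_mul h42 q2 q3 (by positivity)) (mul_nonneg (by positivity) q3)
      zero_le_one
  calc κ * (z ^ 4 * D ^ 2) ≤ κ * (z ^ 4 * (4 * Gx + 4 * Cz ^ 2 * U)) := y2
    _ = 4 * κ * (z ^ 4 * Gx) + κ * (z ^ 4 * (4 * Cz ^ 2 * U)) := by ring
    _ ≤ 4 * κ * (z ^ 4 * Gx) + 1 * (z ^ 2 * (4 * K ^ 2 * U)) := by linarith
    _ = _ := by ring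

/-- The final computation. -/
theorem fin {c κ τ RR UU GG Bβ Bb I0 I1 K B Cz q e1 e2 e3 e4 e5 e6 Q : ℝ} (hc : 0 < c)
    (hκ : 0 < κ) (hκc : κ ≤ c / 24) (hτ : 0 < τ) (hK : K = Cz * B) (hq : 0 ≤ q)
    (nU : 0 ≤ UU) (nG : 0 ≤ GG) (nR : 0 ≤ RR) (nβ : 0 ≤ Bβ) (nb : 0 ≤ Bb)
    (t0 : GG ≤ 2 * I0 + 2 * I1 + 32 * K ^ 2 * UU)
    (hQ : c * (I0 + I1) ≤ Q) (hQ2 : Q ≤ e1 + e2 + e3 + e4 + e5 + e6)
    (t1 : e1 ≤ τ * RR + 1 / τ * UU + 0 * UU)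
    (t2 : e2 ≤ 2 * κ * GG + q * Bβ + 16 * K ^ 2 * UU)
    (t3 : e3 ≤ 4 * κ * GG + q * Bb + (16 * K ^ 2 + 4 * K ^ 2) * UU)
    (t4 : e4 ≤ 4 * K ^ 2 * UU + 0 * UU + 0 * UU)
    (t5 : e5 ≤ 8 * K ^ 2 * UU + 0 * UU + 0 * UU)
    (t6 : e6 ≤ 8 * K ^ 2 * UU + 0 * UU + 0 * UU) :
    GG ≤ max 1 (4 / c * (1 + q + 56 * Cz ^ 2) + 64 * Cz ^ 2)
      * (τ * RR + (Bβ + Bb) + (B ^ 2 + 1 / τ) * UU) := by
  have s1 : c * (I0 + I1) ≤ τ * RR + 1 / τ * UU + 6 * κ * GG + q * (Bβ + Bb)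
      + 56 * K ^ 2 * UU := by
    linarith
  have s2 : 12 * κ / c * GG ≤ 1 / 2 * GG := by
    refine mul_le_mul_of_nonneg_right ?_ nG
    rw [div_le_iff₀ hc]
    linarith
  have s3 : 2 * (I0 + I1) ≤ 2 / c * (τ * RR + 1 / τ * UU + 6 * κ * GG + q * (Bβ + Bb)
      + 56 * K ^ 2 * UU) := by
    have := mul_le_mul_of_nonneg_left s1 (by positivity : (0 : ℝ) ≤ 2 / c)
    calc 2 * (I0 + I1) = 2 / c * (c * (I0 + I1)) := by field_simp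
      _ ≤ _ := this
  have s4 : 2 / c * (τ * RR + 1 / τ * UU + 6 * κ * GG + q * (Bβ + Bb) + 56 * K ^ 2 * UU)
      = 12 * κ / c * GG + 2 / c * (τ * RR + 1 / τ * UU + q * (Bβ + Bb) + 56 * K ^ 2 * UU) := by
    ring
  have s5 : GG ≤ 4 / c * (τ * RR + 1 / τ * UU + q * (Bβ + Bb) + 56 * K ^ 2 * UU)
      + 64 * K ^ 2 * UU := by
    rw [s4] at s3
    have e2 : 4 / c * (τ * RR + 1 / τ * UU + q * (Bβ + Bb) + 56 * K ^ 2 * UU)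
        = 2 * (2 / c * (τ * RR + 1 / τ * UU + q * (Bβ + Bb) + 56 * K ^ 2 * UU)) := by ring
    rw [e2]
    linarith
  have hT : 0 ≤ τ * RR := by positivity
  have hT2 : 0 ≤ 1 / τ * UU := by positivity
  have hT3 : 0 ≤ Bβ + Bb := by positivity
  have hT4 : 0 ≤ B ^ 2 * UU := by positivity
  have hqC : 1 ≤ 1 + q + 56 * Cz ^ 2 := by
    have : 0 ≤ Cz ^ 2 := sq_nonneg _
    linarith
  have hqC0 : 0 ≤ 1 + q + 56 * Cz ^ 2 := zero_le_one.trans hqC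
  have r1 : τ * RR ≤ (1 + q + 56 * Cz ^ 2) * (τ * RR) := le_mul_of_one_le_left hT hqC
  have r2 : 1 / τ * UU ≤ (1 + q + 56 * Cz ^ 2) * (1 / τ * UU) := le_mul_of_one_le_left hT2 hqC
  have r3 : q * (Bβ + Bb) ≤ (1 + q + 56 * Cz ^ 2) * (Bβ + Bb) := by
    refine mul_le_mul_of_nonneg_right ?_ hT3
    have : 0 ≤ Cz ^ 2 := sq_nonneg _
    linarith
  have r4 : 56 * K ^ 2 * UU ≤ (1 + q + 56 * Cz ^ 2) * (B ^ 2 * UU) := by
    have e1 : 56 * K ^ 2 * UU = 56 * Cz ^ 2 * (B ^ 2 * UU) := by rw [hK]; ring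
    rw [e1]
    refine mul_le_mul_of_nonneg_right ?_ hT4
    linarith
  have r5 : 4 / c * (τ * RR + 1 / τ * UU + q * (Bβ + Bb) + 56 * K ^ 2 * UU)
      ≤ 4 / c * ((1 + q + 56 * Cz ^ 2) * (τ * RR + (Bβ + Bb) + (B ^ 2 + 1 / τ) * UU)) := by
    refine mul_le_mul_of_nonneg_left ?_ (by positivity)
    have e1 : (1 + q + 56 * Cz ^ 2) * (τ * RR + (Bβ + Bb) + (B ^ 2 + 1 / τ) * UU)
        = (1 + q + 56 * Cz ^ 2) * (τ * RR) + (1 + q + 56 * Cz ^ 2) * (Bβ + Bb)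
          + (1 + q + 56 * Cz ^ 2) * (B ^ 2 * UU) + (1 + q + 56 * Cz ^ 2) * (1 / τ * UU) := by ring
    rw [e1]
    linarith
  have r6 : 64 * K ^ 2 * UU ≤ 64 * Cz ^ 2 * (τ * RR + (Bβ + Bb) + (B ^ 2 + 1 / τ) * UU) := by
    have e1 : 64 * K ^ 2 * UU = 64 * Cz ^ 2 * (B ^ 2 * UU) := by rw [hK]; ring
    rw [e1]
    refine mul_le_mul_of_nonneg_left ?_ (by positivity)
    have e2 : (B ^ 2 + 1 / τ) * UU = B ^ 2 * UU + 1 / τ * UU := by ring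
    rw [e2]
    linarith
  have hTot : 0 ≤ τ * RR + (Bβ + Bb) + (B ^ 2 + 1 / τ) * UU := by positivity
  calc GG ≤ 4 / c * (τ * RR + 1 / τ * UU + q * (Bβ + Bb) + 56 * K ^ 2 * UU)
        + 64 * K ^ 2 * UU := s5
    _ ≤ 4 / c * ((1 + q + 56 * Cz ^ 2) * (τ * RR + (Bβ + Bb) + (B ^ 2 + 1 / τ) * UU))
        + 64 * Cz ^ 2 * (τ * RR + (Bβ + Bb) + (B ^ 2 + 1 / τ) * UU) := add_le_add r5 r6
    _ = (4 / c * (1 + q + 56 * Cz ^ 2) + 64 * Cz ^ 2)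
        * (τ * RR + (Bβ + Bb) + (B ^ 2 + 1 / τ) * UU) := by ring
    _ ≤ _ := mul_le_mul_of_nonneg_right (le_max_right _ _) hTot

end EEnAux

open EEnAux

theorem pEEn (hId : S_EId) (hPair : S_EPair) (hBas : S_Bas) (hSz : S_ESz) : S_EEn := by
  obtain ⟨ε₀, hε₀, c, hc, hB⟩ := hBas
  obtain ⟨Cz, hCz, hZ⟩ := hSz
  set κ : ℝ := min (c / 24) 1 with hκdef
  have hκ : 0 < κ := lt_min (by positivity) one_pos
  have hκ1 : κ ≤ 1 := min_le_right _ _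
  have hκc : κ ≤ c / 24 := min_le_left _ _
  refine ⟨min ε₀ 1, lt_min hε₀ one_pos,
    max 1 (4 / c * (1 + (1 / (4 * κ) + 1 / 2) + 56 * Cz ^ 2) + 64 * Cz ^ 2), le_max_left _ _, ?_⟩
  intro a ha e he0 he1 Ω hΩ hΩb u R β b hu hR hβ hb heq ζ B hζ hB1 τ hτ0 hτ1
  have haS : SmS a := ha.smS
  have ha2 : Near a 2 ε₀ := ha.mono (by norm_num) (le_min hε₀.le zero_le_one) (min_le_left _ _)
  have ha1 : Near a 1 1 := ha.mono (by norm_num) (le_min hε₀.le zero_le_one) (min_le_right _ _)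
  set z : E5 → ℂ := fun x => (ζ x : ℂ) with hz
  have hzS : Sm z := hζ.smC
  have hzT : Tst z := hζ.tst
  set K : ℝ := Cz * B with hK
  have hCK : Cz ^ 2 ≤ K ^ 2 :=
    pow_le_pow_left₀ (zero_le_one.trans hCz) (le_mul_of_one_le_right (zero_le_one.trans hCz) hB1) 2
  have hzn : ∀ x, ‖z x‖ = ζ x := fun x => by
    simp only [hz, Complex.norm_real, Real.norm_eq_abs, abs_of_nonneg (hζ.nn x)]
  have hz0 : ∀ x, 0 ≤ ζ x := hζ.nn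
  have hz1 : ∀ x, ζ x ≤ 1 := hζ.le
  -- the cutoff `θ = z²`
  set θ : E5 → ℂ := fun x => z x * z x with hθ
  have hθS : Sm θ := hzS.mul hzS
  have hθT : Tst θ := Tst.mul_left hzS hzT
  have hθn : ∀ x, ‖θ x‖ = ζ x ^ 2 := fun x => by
    simp only [hθ, norm_mul, hzn]; ring
  have hθc : ∀ x, conj (θ x) = θ x := fun x => by
    simp only [hθ, hz, map_mul, Complex.conj_ofReal]
  have hθsub : tsupport θ ⊆ Ω := by
    refine (closure_mono ?_).trans hζ.sub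
    intro x hx
    rw [Function.mem_support] at hx ⊢
    intro h0
    exact hx (by simp [hθ, hz, h0])
  have hLz : ∀ j x, ‖z x‖ * ‖L a j z x‖ ≤ K * ζ x := by
    intro j x
    by_cases hx : x ∈ Ω
    · have h1 := ((hZ a ha1 x (hΩb hx) j).2 z hzS B fun k => hζ.gd k x).1
      rw [hzn, mul_comm]
      exact mul_le_mul_of_nonneg_right h1 (hz0 x)
    · rw [hzn, hζ.zero hx]; simp
  have hLbz : ∀ j x, ‖z x‖ * ‖Lb a j z x‖ ≤ K * ζ x := by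
    intro j x
    by_cases hx : x ∈ Ω
    · have h1 := ((hZ a ha1 x (hΩb hx) j).2 z hzS B fun k => hζ.gd k x).2
      rw [hzn, mul_comm]
      exact mul_le_mul_of_nonneg_right h1 (hz0 x)
    · rw [hzn, hζ.zero hx]; simp
  have hLθ : ∀ j x, ‖L a j θ x‖ ≤ 2 * K * ζ x := by
    intro j x
    have e1 : L a j θ x = 2 * (z x * L a j z x) := by
      rw [hθ, L_mul hzS hzS]; ring
    rw [e1, norm_mul, norm_mul]
    have h2 := hLz j x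
    have : ‖(2 : ℂ)‖ = 2 := by simp
    rw [this]
    linarith
  have hLbθ : ∀ j x, ‖Lb a j θ x‖ ≤ 2 * K * ζ x := by
    intro j x
    have e1 : Lb a j θ x = 2 * (z x * Lb a j z x) := by
      rw [hθ, Lb_mul hzS hzS]; ring
    rw [e1, norm_mul, norm_mul]
    have h2 := hLbz j x
    have : ‖(2 : ℂ)‖ = 2 := by simp
    rw [this]
    linarith
  have hpθ : ∀ x, ‖pd 4 θ x‖ ≤ 2 * K * ζ x := by
    intro x
    have e1 : pd 4 θ x = 2 * (z x * pd 4 z x) := by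
      rw [hθ, pd_mul hzS hzS]; ring
    rw [e1, norm_mul, norm_mul, hzn]
    have h2 : ‖pd 4 z x‖ ≤ B := hζ.gd 4 x
    have h3 : ‖(2 : ℂ)‖ = 2 := by simp
    rw [h3]
    have h4 : ζ x * ‖pd 4 z x‖ ≤ ζ x * B := mul_le_mul_of_nonneg_left h2 (hz0 x)
    have h5 : ζ x * B ≤ K * ζ x := by
      rw [hK, mul_comm (ζ x)]
      exact mul_le_mul_of_nonneg_right
        (le_mul_of_one_le_left (zero_le_one.trans hB1) hCz) (hz0 x)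
    linarith
  -- abbreviations
  set U : E5 → ℝ := fun x => ‖u 0 x‖ ^ 2 + ‖u 1 x‖ ^ 2 with hU
  set G : E5 → ℝ := fun x => gr a (u 0) x + gr a (u 1) x with hG
  have hU0 : ∀ x, 0 ≤ U x := fun x => by simp only [hU]; positivity
  have hG0 : ∀ x, 0 ≤ G x := fun x => add_nonneg (gr_nonneg _ _ _) (gr_nonneg _ _ _)
  have cU : Continuous U := ((hu 0).cont.norm.pow 2).add ((hu 1).cont.norm.pow 2)
  have cG : Continuous G := (gr_cont haS (hu 0)).add (gr_cont haS (hu 1))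
  have iG : Integrable (fun x => ζ x ^ 4 * G x) volume := hζ.intg cG (by norm_num)
  have iU : Integrable (fun x => ζ x ^ 2 * U x) volume := hζ.intg cU (by norm_num)
  have iR : Integrable (fun x => ζ x ^ 4 * (‖R 0 x‖ ^ 2 + ‖R 1 x‖ ^ 2)) volume :=
    hζ.intg (((hR 0).cont.norm.pow 2).add ((hR 1).cont.norm.pow 2)) (by norm_num)
  have iβ : Integrable (fun x => ζ x ^ 4 * ‖β x‖ ^ 2) volume :=
    hζ.intg (hβ.cont.norm.pow 2) (by norm_num)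
  have ib : Integrable (fun x => ζ x ^ 4 * ‖b x‖ ^ 2) volume :=
    hζ.intg (hb.cont.norm.pow 2) (by norm_num)
  have h42 : ∀ x, ζ x ^ 4 ≤ ζ x ^ 2 := fun x =>
    pow_le_pow_of_le_one (hz0 x) (hz1 x) (by norm_num)
  -- (1)
  have hgr : ∀ j x, ζ x ^ 4 * gr a (u j) x
      ≤ 2 * gr a (fun y => θ y * u j y) x + 32 * K ^ 2 * (ζ x ^ 2 * ‖u j x‖ ^ 2) := by
    intro j x
    have key : ∀ (P Pθ Pu : ℂ), P = θ x * Pu + Pθ * u j x → ‖Pθ‖ ≤ 2 * K * ζ x →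
        ζ x ^ 4 * ‖Pu‖ ^ 2 ≤ 2 * ‖P‖ ^ 2 + 8 * K ^ 2 * (ζ x ^ 2 * ‖u j x‖ ^ 2) := by
      intro P Pθ Pu h1 h2
      have h3 : θ x * Pu = P - Pθ * u j x := by rw [h1]; ring
      have h4 : ζ x ^ 4 * ‖Pu‖ ^ 2 = ‖P - Pθ * u j x‖ ^ 2 := by
        rw [← h3, norm_mul, hθn]; ring
      rw [h4]
      refine (norm_sub_sq_le _ _).trans ?_
      rw [norm_mul, mul_pow]
      have h6 := aux1 (n := ‖u j x‖) (norm_nonneg Pθ) h2
      linarith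
    have a1 := fun i => key _ _ _ (L_mul (a := a) hθS (hu j) i x) (hLθ i x)
    have a2 := fun i => key _ _ _ (Lb_mul (a := a) hθS (hu j) i x) (hLbθ i x)
    have b1 := a1 0
    have b2 := a1 1
    have b3 := a2 0
    have b4 := a2 1
    simp only [gr, Fin.sum_univ_two, mul_add]
    linarith
  -- the integrals
  have e4 := hPair a haS e he0 he1 Ω hΩ u R β b hu hR hβ hb heq θ hθT hθc hθsub
  have e3 := hId a haS u hu θ hθT hθc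
  have e2 := hB a ha2 (fun j y => θ y * u j y) fun j => Tst.mul_right hθT (hu j)
  -- bounds
  have t1 : ∫ x, ‖θ x‖ ^ 2 * ∑ j, ‖R j x‖ * ‖u j x‖
      ≤ τ * (∫ x, ζ x ^ 4 * (‖R 0 x‖ ^ 2 + ‖R 1 x‖ ^ 2)) + 1 / τ * (∫ x, ζ x ^ 2 * U x)
        + 0 * ∫ x, ζ x ^ 2 * U x := by
    refine int_le3 (fun x => by positivity) iR iU iU fun x => ?_
    rw [hθn, Fin.sum_univ_two]
    have y := aux3 (r0 := ‖R 0 x‖) (r1 := ‖R 1 x‖) (n0 := ‖u 0 x‖) (n1 := ‖u 1 x‖) hτ0 (hz0 x) (hz1 x)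
    simp only [hU]
    linarith
  have hL2 : ∀ j x, ‖L a j (fun y => θ y ^ 2) x‖ ≤ 4 * K * ζ x ^ 3 := by
    intro j x
    have e1 : L a j (fun y => θ y ^ 2) x = 2 * (θ x * L a j θ x) := by
      have : (fun y => θ y ^ 2) = fun y => θ y * θ y := by funext y; ring
      rw [this, L_mul hθS hθS]; ring
    rw [e1, norm_mul, norm_mul, hθn]
    have h3 : ‖(2 : ℂ)‖ = 2 := by simp
    rw [h3]
    exact aux4 (hz0 x) (hLθ j x)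
  have hLb2 : ∀ j x, ‖Lb a j (fun y => θ y ^ 2) x‖ ≤ 4 * K * ζ x ^ 3 := by
    intro j x
    have e1 : Lb a j (fun y => θ y ^ 2) x = 2 * (θ x * Lb a j θ x) := by
      have : (fun y => θ y ^ 2) = fun y => θ y * θ y := by funext y; ring
      rw [this, Lb_mul hθS hθS]; ring
    rw [e1, norm_mul, norm_mul, hθn]
    have h3 : ‖(2 : ℂ)‖ = 2 := by simp
    rw [h3]
    exact aux4 (hz0 x) (hLbθ j x)
  have hθ2S : Sm fun y => θ y ^ 2 := hθS.pow 2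
  have hD1 : ∀ x, ‖D1 a (fun j y => θ y ^ 2 * u j y) x‖
      ≤ ζ x ^ 4 * ‖D1 a u x‖ + 4 * K * ζ x ^ 3 * (‖u 0 x‖ + ‖u 1 x‖) := by
    intro x
    have e1 : D1 a (fun j y => θ y ^ 2 * u j y) x = θ x ^ 2 * D1 a u x
        + (L a 0 (fun y => θ y ^ 2) x * u 1 x - L a 1 (fun y => θ y ^ 2) x * u 0 x) := by
      simp only [D1, L_mul hθ2S (hu _)]; ring
    rw [e1]
    refine (norm_add_le _ _).trans (add_le_add (le_of_eq ?_) ?_)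
    · rw [norm_mul, norm_pow, hθn]; ring
    · refine (norm_sub_le _ _).trans ?_
      rw [norm_mul, norm_mul]
      have h1 := mul_le_mul_of_nonneg_right (hL2 0 x) (norm_nonneg (u 1 x))
      have h2 := mul_le_mul_of_nonneg_right (hL2 1 x) (norm_nonneg (u 0 x))
      linarith
  have hD0 : ∀ x, ‖D0s a (fun j y => θ y ^ 2 * u j y) x‖
      ≤ ζ x ^ 4 * ‖D0s a u x‖ + 4 * K * ζ x ^ 3 * (‖u 0 x‖ + ‖u 1 x‖) := by
    intro x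
    have e1 : D0s a (fun j y => θ y ^ 2 * u j y) x = θ x ^ 2 * D0s a u x
        - (Lb a 0 (fun y => θ y ^ 2) x * u 0 x + Lb a 1 (fun y => θ y ^ 2) x * u 1 x) := by
      simp only [D0s, Ls_mul haS hθ2S (hu _)]; ring
    rw [e1]
    refine (norm_sub_le _ _).trans (add_le_add (le_of_eq ?_) ?_)
    · rw [norm_mul, norm_pow, hθn]; ring
    · refine (norm_add_le _ _).trans ?_
      rw [norm_mul, norm_mul]
      have h1 := mul_le_mul_of_nonneg_right (hLb2 0 x) (norm_nonneg (u 0 x))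
      have h2 := mul_le_mul_of_nonneg_right (hLb2 1 x) (norm_nonneg (u 1 x))
      linarith
  have hD1s : ∀ x, ‖D1 a u x‖ ^ 2 ≤ 2 * G x := by
    intro x
    have h1 := norm_sub_sq_le (L a 0 (u 1) x) (L a 1 (u 0) x)
    simp only [D1, hG, gr, Fin.sum_univ_two]
    linarith [sq_nonneg ‖L a 1 (u 1) x‖, sq_nonneg ‖L a 0 (u 0) x‖, sq_nonneg ‖Lb a 0 (u 0) x‖,
      sq_nonneg ‖Lb a 1 (u 0) x‖, sq_nonneg ‖Lb a 0 (u 1) x‖, sq_nonneg ‖Lb a 1 (u 1) x‖]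
  have hD0s : ∀ x ∈ Ω, ‖D0s a u x‖ ^ 2 ≤ 4 * G x + 4 * Cz ^ 2 * U x := by
    intro x hx
    have hv : ∀ j, ‖Ls a j (u j) x‖ ^ 2 ≤ 2 * ‖Lb a j (u j) x‖ ^ 2 + 2 * (Cz ^ 2 * ‖u j x‖ ^ 2) := by
      intro j
      rw [Ls_eq haS (hu j)]
      refine (norm_sub_sq_le _ _).trans ?_
      rw [norm_neg, norm_mul, mul_pow]
      have h1 : ‖dv a j x‖ ^ 2 ≤ Cz ^ 2 :=
        pow_le_pow_left₀ (norm_nonneg _) (hZ a ha1 x (hΩb hx) j).1 2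
      have := mul_le_mul_of_nonneg_right h1 (sq_nonneg ‖u j x‖)
      linarith
    have h1 := norm_add_sq_le (Ls a 0 (u 0) x) (Ls a 1 (u 1) x)
    have h2 := hv 0
    have h3 := hv 1
    simp only [D0s, hG, hU, gr, Fin.sum_univ_two]
    linarith [sq_nonneg ‖L a 1 (u 1) x‖, sq_nonneg ‖L a 0 (u 0) x‖, sq_nonneg ‖L a 1 (u 0) x‖,
      sq_nonneg ‖L a 0 (u 1) x‖, sq_nonneg ‖Lb a 1 (u 0) x‖, sq_nonneg ‖Lb a 0 (u 1) x‖]
  have t2 : ∫ x, ‖β x‖ * ‖D1 a (fun j y => θ y ^ 2 * u j y) x‖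
      ≤ 2 * κ * (∫ x, ζ x ^ 4 * G x) + (1 / (4 * κ) + 1 / 2) * (∫ x, ζ x ^ 4 * ‖β x‖ ^ 2)
        + 16 * K ^ 2 * ∫ x, ζ x ^ 2 * U x := by
    refine int_le3 (fun x => by positivity) iG iβ iU fun x => ?_
    have y1 := aux2 hκ (hz0 x) (norm_nonneg (β x)) (hD1 x)
    have y2 : κ * (ζ x ^ 4 * ‖D1 a u x‖ ^ 2) ≤ κ * (ζ x ^ 4 * (2 * G x)) :=
      mul_le_mul_of_nonneg_left (mul_le_mul_of_nonneg_left (hD1s x) (pow_nonneg (hz0 x) 4)) hκ.le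
    have y3 : κ * (ζ x ^ 4 * (2 * G x)) = 2 * κ * (ζ x ^ 4 * G x) := by ring
    rw [y3] at y2
    exact y1.trans (by linarith)
  have t3 : ∫ x, ‖b x‖ * ‖D0s a (fun j y => θ y ^ 2 * u j y) x‖
      ≤ 4 * κ * (∫ x, ζ x ^ 4 * G x) + (1 / (4 * κ) + 1 / 2) * (∫ x, ζ x ^ 4 * ‖b x‖ ^ 2)
        + (16 * K ^ 2 + 4 * K ^ 2) * ∫ x, ζ x ^ 2 * U x := by
    refine int_le3 (fun x => by positivity) iG ib iU fun x => ?_
    have y1 := aux2 hκ (hz0 x) (norm_nonneg (b x)) (hD0 x)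
    by_cases hx : x ∈ Ω
    · have y2 := aux5 hκ.le hκ1 (hz0 x) (hz1 x) (hU0 x) hCK (hD0s x hx)
      have y3 : (16 * K ^ 2 + 4 * K ^ 2) * (ζ x ^ 2 * U x)
          = 16 * K ^ 2 * (ζ x ^ 2 * U x) + 4 * K ^ 2 * (ζ x ^ 2 * U x) := by ring
      rw [y3]
      exact y1.trans (by linarith)
    · have q := hζ.zero hx
      rw [q] at y1 ⊢
      simpa using y1
  have t4 : ∫ x, ‖pd 4 θ x‖ ^ 2 * ∑ j, ‖u j x‖ ^ 2
      ≤ 4 * K ^ 2 * (∫ x, ζ x ^ 2 * U x) + 0 * (∫ x, ζ x ^ 2 * U x)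
        + 0 * ∫ x, ζ x ^ 2 * U x := by
    refine int_le3 (fun x => by positivity) iU iU iU fun x => ?_
    rw [Fin.sum_univ_two]
    have y1 := aux1 (n := ‖u 0 x‖) (norm_nonneg _) (hpθ x)
    have y2 := aux1 (n := ‖u 1 x‖) (norm_nonneg _) (hpθ x)
    simp only [hU, mul_add]
    linarith
  have hprod : ∀ (x : E5) (P Q : ℂ), ‖P‖ ≤ 2 * K * ζ x → ‖Q‖ ≤ 2 * K * ζ x →
      2 * ‖P * u 0 x‖ ^ 2 + 2 * ‖Q * u 1 x‖ ^ 2 ≤ 8 * K ^ 2 * (ζ x ^ 2 * U x) := by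
    intro x P Q hP hQ
    rw [norm_mul, norm_mul, mul_pow, mul_pow]
    have y1 := aux1 (n := ‖u 0 x‖) (norm_nonneg _) hP
    have y2 := aux1 (n := ‖u 1 x‖) (norm_nonneg _) hQ
    simp only [hU, mul_add]
    linarith
  have t5 : ∫ x, ‖∑ j, Lb a j θ x * u j x‖ ^ 2
      ≤ 8 * K ^ 2 * (∫ x, ζ x ^ 2 * U x) + 0 * (∫ x, ζ x ^ 2 * U x)
        + 0 * ∫ x, ζ x ^ 2 * U x := by
    refine int_le3 (fun x => by positivity) iU iU iU fun x => ?_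
    rw [Fin.sum_univ_two]
    have y1 := norm_add_sq_le (Lb a 0 θ x * u 0 x) (Lb a 1 θ x * u 1 x)
    have y2 := hprod x _ _ (hLbθ 0 x) (hLbθ 1 x)
    linarith
  have t6 : ∫ x, ‖L a 0 θ x * u 1 x - L a 1 θ x * u 0 x‖ ^ 2
      ≤ 8 * K ^ 2 * (∫ x, ζ x ^ 2 * U x) + 0 * (∫ x, ζ x ^ 2 * U x)
        + 0 * ∫ x, ζ x ^ 2 * U x := by
    refine int_le3 (fun x => by positivity) iU iU iU fun x => ?_
    have y1 := norm_sub_sq_le (L a 0 θ x * u 1 x) (L a 1 θ x * u 0 x)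
    have y2 := hprod x _ _ (hLθ 1 x) (hLθ 0 x)
    linarith
  -- the first inequality, integrated
  have ig : ∀ j, Integrable (fun x => gr a (fun y => θ y * u j y) x) volume := by
    intro j
    have hT : Tst fun y => θ y * u j y := Tst.mul_right hθT (hu j)
    unfold gr
    refine integrable_finsetSum _ fun i _ => ?_
    exact (int_sq (hT.L haS i)).add (int_sq (hT.Lb haS i))
  have t0 : ∫ x, ζ x ^ 4 * G x ≤ 2 * (∫ x, gr a (fun y => θ y * u 0 y) x)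
      + 2 * (∫ x, gr a (fun y => θ y * u 1 y) x) + 32 * K ^ 2 * ∫ x, ζ x ^ 2 * U x := by
    refine int_le3 (fun x => mul_nonneg (pow_nonneg (hz0 x) 4) (hG0 x)) (ig 0) (ig 1) iU
      fun x => ?_
    have y1 := hgr 0 x
    have y2 := hgr 1 x
    simp only [hG, hU, mul_add]
    linarith
  -- nonnegativity
  have nU : 0 ≤ ∫ x, ζ x ^ 2 * U x := integral_nonneg fun x => mul_nonneg (by positivity) (hU0 x)
  have nG : 0 ≤ ∫ x, ζ x ^ 4 * G x := integral_nonneg fun x => mul_nonneg (by positivity) (hG0 x)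
  have nR : 0 ≤ ∫ x, ζ x ^ 4 * (‖R 0 x‖ ^ 2 + ‖R 1 x‖ ^ 2) :=
    integral_nonneg fun x => by positivity
  have nβ : 0 ≤ ∫ x, ζ x ^ 4 * ‖β x‖ ^ 2 := integral_nonneg fun x => by positivity
  have nb : 0 ≤ ∫ x, ζ x ^ 4 * ‖b x‖ ^ 2 := integral_nonneg fun x => by positivity
  have eβb : ∫ x, ζ x ^ 4 * (‖β x‖ ^ 2 + ‖b x‖ ^ 2)
      = (∫ x, ζ x ^ 4 * ‖β x‖ ^ 2) + ∫ x, ζ x ^ 4 * ‖b x‖ ^ 2 := by
    rw [← integral_add iβ ib]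
    congr 1
    funext x
    ring
  rw [eβb]
  exact fin hc hκ hκc hτ0 hK (by positivity) nU nG nR nβ nb t0 e2 (le_of_eq_of_le e3 (add_le_add
    (add_le_add e4 le_rfl) le_rfl)) t1 t2 t3 t4 t5 t6

end Pool.Agent.CR5
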