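import Pool.Agent.Lib.CR5.E.Spec

/-! # CR5, block E: the differentiated equation -/

set_option autoImplicit false

open MeasureTheory Set Filter Topology
open scoped ENNReal ComplexConjugate

noncomputable section

namespace Pool.Agent.CR5

namespace EEqAux

theorem smCmL {a : Str} (ha : SmS a) (j : Fin 2) (I : List (Fin 5)) {g : E5 → ℂ} (hg : Sm g) :
    Sm (cm (L a j) I g) :=
  ((hg.L ha j).pdL I).sub ((hg.pdL I).L ha j)

theorem smCmLs {a : Str} (ha : SmS a) (j : Fin 2) (I : List (Fin 5)) {g : E5 → ℂ} (hg : Sm g) :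
    Sm (cm (Ls a j) I g) :=
  ((hg.Ls ha j).pdL I).sub ((hg.pdL I).Ls ha j)

theorem smCmS {a : Str} (ha : SmS a) (I : List (Fin 5)) {v : E5 → ℂ} (hv : Sm v) (j : Fin 2) :
    Sm (cmS a I v j) := by
  unfold cmS
  by_cases h : j = 0
  · simp only [h, if_true]
    exact (smCmLs ha 1 I hv).neg
  · simp only [h, if_false]
    exact smCmLs ha 0 I hv

theorem pdL_L (a : Str) (j : Fin 2) (I : List (Fin 5)) (g : E5 → ℂ) (x : E5) :
    pdL I (L a j g) x = L a j (pdL I g) x + cm (L a j) I g x := by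
  unfold cm; ring

theorem pdL_Ls (a : Str) (j : Fin 2) (I : List (Fin 5)) (g : E5 → ℂ) (x : E5) :
    pdL I (Ls a j g) x = Ls a j (pdL I g) x + cm (Ls a j) I g x := by
  unfold cm; ring

theorem pdL_D0s {a : Str} (ha : SmS a) {w : F2} (hw : ∀ j, Sm (w j)) (I : List (Fin 5)) :
    pdL I (D0s a w) = fun x => D0s a (fun j => pdL I (w j)) x +
      (cm (Ls a 0) I (w 0) x + cm (Ls a 1) I (w 1) x) := by
  funext x
  have h : pdL I (D0s a w) x = pdL I (Ls a 0 (w 0)) x + pdL I (Ls a 1 (w 1)) x :=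
    pdL_add ((hw 0).Ls ha 0) ((hw 1).Ls ha 1) I x
  rw [h, pdL_Ls, pdL_Ls]
  show _ = Ls a 0 (pdL I (w 0)) x + Ls a 1 (pdL I (w 1)) x + _
  ring

theorem pdL_D1 {a : Str} (ha : SmS a) {w : F2} (hw : ∀ j, Sm (w j)) (I : List (Fin 5)) :
    pdL I (D1 a w) = fun x => D1 a (fun j => pdL I (w j)) x +
      (cm (L a 0) I (w 1) x - cm (L a 1) I (w 0) x) := by
  funext x
  have h : pdL I (D1 a w) x = pdL I (L a 0 (w 1)) x - pdL I (L a 1 (w 0)) x :=
    pdL_sub ((hw 1).L ha 0) ((hw 0).L ha 1) I x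
  rw [h, pdL_L, pdL_L]
  show _ = L a 0 (pdL I (w 1)) x - L a 1 (pdL I (w 0)) x + _
  ring

theorem pdL_D1s {a : Str} (ha : SmS a) {v : E5 → ℂ} (hv : Sm v) (I : List (Fin 5)) (j : Fin 2)
    (x : E5) :
    pdL I (D1s a v j) x = D1s a (pdL I v) j x + cmS a I v j x := by
  by_cases h : j = 0
  · have e : D1s a v j = fun y => -Ls a 1 v y := by
      funext y; simp [D1s, h]
    rw [e, pdL_neg (hv.Ls ha 1), pdL_Ls]
    simp only [D1s, cmS, h, if_true]
    ring
  · have e : D1s a v j = Ls a 0 v := by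
      funext y; simp [D1s, h]
    rw [e, pdL_Ls]
    simp only [D1s, cmS, h, if_false]

theorem D1s_add {a : Str} (ha : SmS a) {f g : E5 → ℂ} (hf : Sm f) (hg : Sm g) (j : Fin 2)
    (x : E5) : D1s a (fun y => f y + g y) j x = D1s a f j x + D1s a g j x := by
  by_cases h : j = 0
  · simp only [D1s, h, if_true, Ls_add ha hf hg]
    ring
  · simp only [D1s, h, if_false, Ls_add ha hf hg]

theorem D1s_sub {a : Str} (ha : SmS a) {f g : E5 → ℂ} (hf : Sm f) (hg : Sm g) (j : Fin 2)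
    (x : E5) : D1s a (fun y => f y - g y) j x = D1s a f j x - D1s a g j x := by
  by_cases h : j = 0
  · simp only [D1s, h, if_true, Ls_sub ha hf hg]
    ring
  · simp only [D1s, h, if_false, Ls_sub ha hf hg]

end EEqAux

open EEqAux in
theorem pEEq : S_EEq := by
  intro a ha e Ω hΩ w f β b hw hf hβ hb heq I
  have sD0s : Sm (D0s a w) := Sm.D0s ha hw
  have sD1 : Sm (D1 a w) := Sm.D1 ha hw
  have hcD : Sm fun x => cm (Ls a 0) I (w 0) x + cm (Ls a 1) I (w 1) x :=
    (smCmLs ha 0 I (hw 0)).add (smCmLs ha 1 I (hw 1))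
  have hcE : Sm fun x => cm (L a 0) I (w 1) x - cm (L a 1) I (w 0) x :=
    (smCmL ha 0 I (hw 1)).sub (smCmL ha 1 I (hw 0))
  have hW : ∀ j, Sm ((fun j => pdL I (w j) : F2) j) := fun j => (hw j).pdL I
  refine ⟨?_, (hβ.pdL I).sub hcE, (hb.pdL I).sub hcD, ?_⟩
  · intro j
    exact ((((hf j).pdL I).add (smCmS ha I hβ j)).add (smCmL ha j I hb)).sub (smCmL ha j I sD0s)
      |>.sub (smCmS ha I sD1 j)
  · intro j x hx
    have sB : Sm (Box a w j) := Sm.Box ha hw j
    have sp : Sm fun y => w j y - pd 4 (pd 4 (w j)) y := (hw j).sub (((hw j).pd 4).pd 4)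
    have h0 : pdL I (BoxE a e w j) x =
        pdL I (fun y => f j y + D1s a β j y + D0 a b j y) x :=
      pdL_congr hΩ (fun y hy => heq j y hy) I x hx
    have h1 : pdL I (BoxE a e w j) x = pdL I (Box a w j) x
        + (e : ℂ) * (pdL I (w j) x - pdL I (pd 4 (pd 4 (w j))) x) := by
      have : pdL I (BoxE a e w j) x = pdL I (Box a w j) x
          + pdL I (fun y => (e : ℂ) * (w j y - pd 4 (pd 4 (w j)) y)) x :=
        pdL_add sB ((Sm.const _).mul sp) I x
      rw [this, pdL_const_mul sp, pdL_sub (hw j) (((hw j).pd 4).pd 4)]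
    have h2 : pdL I (Box a w j) x = pdL I (L a j (D0s a w)) x + pdL I (D1s a (D1 a w) j) x :=
      pdL_add (sD0s.L ha j) (Sm.D1s ha sD1 j) I x
    have h3 : pdL I (fun y => f j y + D1s a β j y + D0 a b j y) x =
        pdL I (f j) x + pdL I (D1s a β j) x + pdL I (L a j b) x := by
      have e1 : pdL I (fun y => f j y + D1s a β j y + D0 a b j y) x =
          pdL I (fun y => f j y + D1s a β j y) x + pdL I (L a j b) x :=
        pdL_add ((hf j).add (Sm.D1s ha hβ j)) (hb.L ha j) I x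
      rw [e1, pdL_add (hf j) (Sm.D1s ha hβ j)]
    have h4 : L a j (pdL I (D0s a w)) x = L a j (D0s a (fun j => pdL I (w j))) x +
        L a j (fun x => cm (Ls a 0) I (w 0) x + cm (Ls a 1) I (w 1) x) x := by
      rw [pdL_D0s ha hw I]
      exact L_add (Sm.D0s ha hW) hcD j x
    have h5 : D1s a (pdL I (D1 a w)) j x = D1s a (D1 a (fun j => pdL I (w j))) j x +
        D1s a (fun x => cm (L a 0) I (w 1) x - cm (L a 1) I (w 0) x) j x := by
      rw [pdL_D1 ha hw I]
      exact D1s_add ha (Sm.D1 ha hW) hcE j x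
    have h6 : D1s a (βI a w β I) j x = D1s a (pdL I β) j x -
        D1s a (fun x => cm (L a 0) I (w 1) x - cm (L a 1) I (w 0) x) j x :=
      D1s_sub ha (hβ.pdL I) hcE j x
    have h7 : L a j (bI a w b I) x = L a j (pdL I b) x -
        L a j (fun x => cm (Ls a 0) I (w 0) x + cm (Ls a 1) I (w 1) x) x :=
      L_sub (hb.pdL I) hcD j x
    have h8 : pdL I (pd 4 (pd 4 (w j))) x = pd 4 (pd 4 (pdL I (w j))) x := by
      rw [pdL_pd ((hw j).pd 4), pdL_pd (hw j)]
    have h9 := pdL_L a j I (D0s a w) x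
    have h10 := pdL_D1s ha sD1 I j x
    have h11 := pdL_D1s ha hβ I j x
    have h12 := pdL_L a j I b x
    show L a j (D0s a (fun j => pdL I (w j))) x + D1s a (D1 a (fun j => pdL I (w j))) j x
        + (e : ℂ) * (pdL I (w j) x - pd 4 (pd 4 (pdL I (w j))) x)
      = (pdL I (f j) x + cmS a I β j x + cm (L a j) I b x - cm (L a j) I (D0s a w) x
        - cmS a I (D1 a w) j x) + D1s a (βI a w β I) j x + L a j (bI a w b I) x
    rw [h6, h7]
    rw [h1, h2, h3, h9, h10, h11, h12, h4, h5, h8] at h0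
    linear_combination h0

end Pool.Agent.CR5
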