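import Pool.Agent.Lib.CR5.E.Spec

/-!
# CR5, block E: derivatives of `L f`, `Lb f`, `Ls f`
-/

set_option autoImplicit false

open MeasureTheory Set Filter Topology
open scoped ENNReal ComplexConjugate

noncomputable section

namespace Pool.Agent.CR5

namespace EGqAux

theorem norm_L_le_gr (a : Str) (f : E5 → ℂ) (j : Fin 2) (x : E5) :
    ‖L a j f x‖ ^ 2 ≤ gr a f x ∧ ‖Lb a j f x‖ ^ 2 ≤ gr a f x := by
  have h := Finset.single_le_sum (f := fun j : Fin 2 => ‖L a j f x‖ ^ 2 + ‖Lb a j f x‖ ^ 2)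
    (fun _ _ => by positivity) (Finset.mem_univ j)
  have h1 : ‖L a j f x‖ ^ 2 + ‖Lb a j f x‖ ^ 2 ≤ gr a f x := h
  have h2 : 0 ≤ ‖L a j f x‖ ^ 2 := by positivity
  have h3 : 0 ≤ ‖Lb a j f x‖ ^ 2 := by positivity
  exact ⟨by linarith, by linarith⟩

theorem norm_add_sq (u v : ℂ) : ‖u + v‖ ^ 2 ≤ 2 * ‖u‖ ^ 2 + 2 * ‖v‖ ^ 2 := by
  have h := norm_add_le u v
  have h0 : 0 ≤ ‖u + v‖ := norm_nonneg _
  nlinarith [sq_nonneg (‖u‖ - ‖v‖)]

theorem dv_bd {a : Str} (ha : SmS a) {n : ℕ} {B : ℝ} {j : Fin 2} (h : OpB n B (Ls a j)) {x : E5}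
    (hx : x ∈ Metric.ball (0 : E5) 1) : ‖dv a j x‖ ^ 2 ≤ B ^ 2 := by
  obtain ⟨c, d, -, -, -, hd, hP⟩ := h
  have h1 := congrFun (hP (fun _ => 1) (Sm.const 1)) x
  rw [Ls_eq ha (Sm.const 1), Lb_const] at h1
  simp only [FO, pd_const, mul_zero, Finset.sum_const_zero, zero_add, mul_one, neg_zero,
    zero_sub] at h1
  have h2 := hd 0 (Nat.zero_le n) x hx
  have h3 : sq 0 d x = ‖d x‖ ^ 2 := rfl
  rw [h3, ← h1, norm_neg] at h2
  exact h2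

theorem main {a : Str} {n : ℕ} {Cm K : ℝ} (hK : 0 ≤ K) (hCm0 : 0 ≤ Cm)
    {P : (E5 → ℂ) → E5 → ℂ}
    (hP : ∀ g, Sm g → ∀ x ∈ Metric.ball (0 : E5) 1, ‖P g x‖ ^ 2 ≤ K * (gr a g x + ‖g x‖ ^ 2))
    (hC : ∀ f, Sm f → ∀ I : List (Fin 5), I.length ≤ n → ∀ x ∈ Metric.ball (0 : E5) 1,
      ‖cm P I f x‖ ^ 2 ≤ Cm * sqs I.length f x)
    {f : E5 → ℂ} (hf : Sm f) {i : ℕ} (hi : i ≤ n) {x : E5} (hx : x ∈ Metric.ball (0 : E5) 1) :
    sq i (P f) x ≤ (2 * K + 2 * Cm * 5 ^ n) * (gq a i f x + sqs i f x) := by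
  rw [sq_eq_sL]
  have h1 : sL i (fun I => ‖pdL I (P f) x‖ ^ 2)
      ≤ sL i (fun I => 2 * K * (gr a (pdL I f) x + ‖pdL I f x‖ ^ 2) + 2 * Cm * sqs i f x) := by
    refine sL_mono fun I hI => ?_
    have e : pdL I (P f) x = P (pdL I f) x + cm P I f x := by
      unfold cm; ring
    rw [e]
    have h2 := norm_add_sq (P (pdL I f) x) (cm P I f x)
    have h3 := hP (pdL I f) (hf.pdL I) x hx
    have h4 := hC f hf I (hI.le.trans hi) x hx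
    rw [hI] at h4
    linarith
  have h5 : sL i (fun I => 2 * K * (gr a (pdL I f) x + ‖pdL I f x‖ ^ 2) + 2 * Cm * sqs i f x)
      = 2 * K * (gq a i f x + sq i f x) + 5 ^ i * (2 * Cm * sqs i f x) := by
    rw [sL_add, sL_mul_left, sL_add, sL_const, sq_eq_sL i f x]
    rfl
  have h6 : sq i f x ≤ sqs i f x := sq_le_sqs le_rfl f x
  have h7 : 0 ≤ gq a i f x := gq_nonneg _ _ _ _
  have h8 : 0 ≤ sqs i f x := sqs_nonneg _ _ _
  have h9 : (5 : ℝ) ^ i ≤ 5 ^ n := pow_le_pow_right₀ (by norm_num) hi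
  have h10 : 5 ^ i * (2 * Cm * sqs i f x) ≤ 5 ^ n * (2 * Cm * sqs i f x) :=
    mul_le_mul_of_nonneg_right h9 (by positivity)
  have h11 : 0 ≤ 2 * Cm * 5 ^ n * gq a i f x := by positivity
  have h12 : 2 * K * (gq a i f x + sq i f x) ≤ 2 * K * (gq a i f x + sqs i f x) :=
    mul_le_mul_of_nonneg_left (by linarith) (by positivity)
  calc sL i (fun I => ‖pdL I (P f) x‖ ^ 2)
      ≤ 2 * K * (gq a i f x + sq i f x) + 5 ^ i * (2 * Cm * sqs i f x) := h1.trans h5.le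
    _ ≤ 2 * K * (gq a i f x + sqs i f x) + 5 ^ n * (2 * Cm * sqs i f x) := by linarith
    _ ≤ (2 * K + 2 * Cm * 5 ^ n) * (gq a i f x + sqs i f x) := by linarith

end EGqAux

open EGqAux in
theorem pEGq (hOp : S_EOp) (hCm : S_ECm) : S_EGq := by
  intro n B
  obtain ⟨B', hB'⟩ := hOp n B
  obtain ⟨Cm, hCm0, hCm1⟩ := hCm n B'
  refine ⟨2 * (2 + 2 * B' ^ 2) + 2 * Cm * 5 ^ n, by positivity, ?_⟩
  intro a ha hab f hf i hi x hx j
  obtain ⟨o1, o2, o3⟩ := hB' a ha hab j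
  have hK : (0 : ℝ) ≤ 2 + 2 * B' ^ 2 := by positivity
  have gen : ∀ (g : E5 → ℂ) (y : E5) (r : ℝ), r ≤ gr a g y →
      r ≤ (2 + 2 * B' ^ 2) * (gr a g y + ‖g y‖ ^ 2) := by
    intro g y r hr
    have h1 : 0 ≤ gr a g y := gr_nonneg _ _ _
    have h2 : 0 ≤ ‖g y‖ ^ 2 := by positivity
    nlinarith [sq_nonneg B', mul_nonneg (sq_nonneg B') h1, mul_nonneg (sq_nonneg B') h2]
  refine ⟨?_, ?_, ?_⟩
  · exact main hK hCm0 (fun g _ y _ => gen g y _ (norm_L_le_gr a g j y).1)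
      (fun f hf I hI x hx => hCm1 _ o1 f hf I hI x hx) hf hi hx
  · exact main hK hCm0 (fun g _ y _ => gen g y _ (norm_L_le_gr a g j y).2)
      (fun f hf I hI x hx => hCm1 _ o2 f hf I hI x hx) hf hi hx
  · refine main hK hCm0 (fun g hg y hy => ?_)
      (fun f hf I hI x hx => hCm1 _ o3 f hf I hI x hx) hf hi hx
    have e : Ls a j g y = -Lb a j g y + -(dv a j y * g y) := by
      rw [Ls_eq ha hg]; ring
    rw [e]
    have h1 := norm_add_sq (-Lb a j g y) (-(dv a j y * g y))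
    rw [norm_neg, norm_neg, norm_mul, mul_pow] at h1
    have h2 := dv_bd ha o3 hy
    have h3 := (norm_L_le_gr a g j y).2
    have h4 : 0 ≤ gr a g y := gr_nonneg _ _ _
    have h5 : 0 ≤ ‖g y‖ ^ 2 := by positivity
    have h6 : ‖dv a j y‖ ^ 2 * ‖g y‖ ^ 2 ≤ B' ^ 2 * ‖g y‖ ^ 2 :=
      mul_le_mul_of_nonneg_right h2 h5
    nlinarith [mul_nonneg (sq_nonneg B') h4, mul_nonneg (sq_nonneg B') h5]

end Pool.Agent.CR5
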