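import Pool.Agent.Lib.CR5.E.Spec

/-!
# CR5, block E: the energy identity with a real test function (helper37)
-/

set_option autoImplicit false

open MeasureTheory Set Filter Topology
open scoped ENNReal ComplexConjugate

noncomputable section

namespace Pool.Agent.CR5

namespace EIdAux

variable {a : Str} {θ : E5 → ℂ} {u : F2}

theorem Lb_sq (hθ : Sm θ) (j : Fin 2) (x : E5) :
    Lb a j (fun y => θ y ^ 2) x = 2 * θ x * Lb a j θ x := by
  have e : (fun y => θ y ^ 2) = fun y => θ y * θ y := by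
    funext y; ring
  rw [e, Lb_mul hθ hθ]; ring

theorem L_sq (hθ : Sm θ) (j : Fin 2) (x : E5) :
    L a j (fun y => θ y ^ 2) x = 2 * θ x * L a j θ x := by
  have e : (fun y => θ y ^ 2) = fun y => θ y * θ y := by
    funext y; ring
  rw [e, L_mul hθ hθ]; ring

theorem D0s_mul (ha : SmS a) (hu : ∀ j, Sm (u j)) (hθ : Sm θ) (x : E5) :
    D0s a (fun j y => θ y * u j y) x = θ x * D0s a u x - ∑ j, Lb a j θ x * u j x := by
  simp only [D0s, Ls_mul ha hθ (hu _), Fin.sum_univ_two]; ring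

theorem D0s_mul2 (ha : SmS a) (hu : ∀ j, Sm (u j)) (hθ : Sm θ) (x : E5) :
    D0s a (fun j y => θ y ^ 2 * u j y) x
      = θ x ^ 2 * D0s a u x - 2 * θ x * ∑ j, Lb a j θ x * u j x := by
  simp only [D0s, Ls_mul ha (hθ.pow 2) (hu _), Fin.sum_univ_two, Lb_sq hθ]; ring

theorem D1_mul (hu : ∀ j, Sm (u j)) (hθ : Sm θ) (x : E5) :
    D1 a (fun j y => θ y * u j y) x
      = θ x * D1 a u x + (L a 0 θ x * u 1 x - L a 1 θ x * u 0 x) := by
  simp only [D1, L_mul hθ (hu _)]; ring

theorem D1_mul2 (hu : ∀ j, Sm (u j)) (hθ : Sm θ) (x : E5) :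
    D1 a (fun j y => θ y ^ 2 * u j y) x
      = θ x ^ 2 * D1 a u x + 2 * θ x * (L a 0 θ x * u 1 x - L a 1 θ x * u 0 x) := by
  simp only [D1, L_mul (hθ.pow 2) (hu _), L_sq hθ]; ring

theorem nsq (z : ℂ) : ‖z‖ ^ 2 = (z * conj z).re := by
  rw [Complex.mul_conj, Complex.ofReal_re, Complex.normSq_eq_norm_sq]

/-- `|t s - σ|² = Re (s conj (t² s - 2 t σ)) + |σ|²` for real `t` -/
theorem alg (t s σ : ℂ) (ht : conj t = t) :
    ‖t * s - σ‖ ^ 2 = (s * conj (t ^ 2 * s - 2 * t * σ)).re + ‖σ‖ ^ 2 := by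
  have h : t.im = 0 := Complex.conj_eq_iff_im.1 ht
  rw [nsq, nsq]
  simp only [Complex.mul_re, Complex.mul_im, Complex.sub_re, Complex.sub_im, Complex.conj_re,
    Complex.conj_im, pow_two, h, Complex.re_ofNat, Complex.im_ofNat]
  ring

theorem int_re {f : E5 → ℂ} (hf : Integrable f) : ∫ x, (f x).re = (∫ x, f x).re :=
  Complex.reCLM.integral_comp_comm hf

theorem int_conj (f : E5 → ℂ) : ∫ x, conj (f x) = conj (∫ x, f x) := integral_conj

/-- `∫ (Ls v) conj g = ∫ v conj (L g)` -/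
theorem ibpc (ha : SmS a) (j : Fin 2) {v g : E5 → ℂ} (hv : Sm v) (hg : Tst g) :
    ∫ x, Ls a j v x * conj (g x) = ∫ x, v x * conj (L a j g x) := by
  have h := congrArg (fun z : ℂ => conj z) (ibp_L' ha j hg hv)
  simp only [← int_conj, map_mul, Complex.conj_conj] at h
  rw [show (fun x => Ls a j v x * conj (g x)) = fun x => conj (g x) * Ls a j v x from by
    funext x; ring, ← h]
  congr 1
  funext x
  ring

end EIdAux

open EIdAux

theorem pEId : S_EId := by
  intro a ha u hu θ hθ hr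
  have hθs : Sm θ := hθ.sm
  have hs : Sm (D0s a u) := Sm.D0s ha hu
  have hv : Sm (D1 a u) := Sm.D1 ha hu
  have hθ2 : Tst fun x => θ x ^ 2 := by
    have := Tst.mul_left hθs hθ
    have e : (fun y => θ y ^ 2) = fun y => θ y * θ y := by
      funext y; ring
    rw [e]; exact this
  have hg : ∀ j, Tst fun x => θ x ^ 2 * u j x := fun j => Tst.mul_right hθ2 (hu j)
  have hP : Integrable fun x => D0s a u x * conj (D0s a (fun j y => θ y ^ 2 * u j y) x) := by
    have : Tst (D0s a (fun j y => θ y ^ 2 * u j y)) :=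
      Tst.add (Tst.Ls ha 0 (hg 0)) (Tst.Ls ha 1 (hg 1))
    exact (Tst.mul_left hs this.conj).integrable
  have hQ : Integrable fun x => D1 a u x * conj (D1 a (fun j y => θ y ^ 2 * u j y) x) := by
    have : Tst (D1 a (fun j y => θ y ^ 2 * u j y)) :=
      Tst.sub (Tst.L ha 0 (hg 1)) (Tst.L ha 1 (hg 0))
    exact (Tst.mul_left hv this.conj).integrable
  have hσ : Tst fun x => ∑ j, Lb a j θ x * u j x :=
    Tst.sum _ fun j _ => Tst.mul_right (Tst.Lb ha j hθ) (hu j)
  have hτ : Tst fun x => L a 0 θ x * u 1 x - L a 1 θ x * u 0 x :=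
    Tst.sub (Tst.mul_right (Tst.L ha 0 hθ) (hu 1)) (Tst.mul_right (Tst.L ha 1 hθ) (hu 0))
  have hS : Integrable fun x => ‖∑ j, Lb a j θ x * u j x‖ ^ 2 := by
    have := (Tst.mul_left hσ.sm hσ.conj).integrable.re
    refine this.congr (Eventually.of_forall fun x => ?_)
    simp only [nsq]
    rfl
  have hT : Integrable fun x => ‖L a 0 θ x * u 1 x - L a 1 θ x * u 0 x‖ ^ 2 := by
    have := (Tst.mul_left hτ.sm hτ.conj).integrable.re
    refine this.congr (Eventually.of_forall fun x => ?_)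
    simp only [nsq]
    rfl
  have h1 : (∫ x, ‖D0s a (fun j y => θ y * u j y) x‖ ^ 2)
      = (∫ x, D0s a u x * conj (D0s a (fun j y => θ y ^ 2 * u j y) x)).re
        + ∫ x, ‖∑ j, Lb a j θ x * u j x‖ ^ 2 := by
    have hP' : Integrable fun x =>
        (D0s a u x * conj (D0s a (fun j y => θ y ^ 2 * u j y) x)).re := hP.re
    rw [← int_re hP, ← integral_add hP' hS]
    refine integral_congr_ae (Eventually.of_forall fun x => ?_)
    simp only [D0s_mul ha hu hθs, D0s_mul2 ha hu hθs]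
    exact alg _ _ _ (hr x)
  have h2 : (∫ x, ‖D1 a (fun j y => θ y * u j y) x‖ ^ 2)
      = (∫ x, D1 a u x * conj (D1 a (fun j y => θ y ^ 2 * u j y) x)).re
        + ∫ x, ‖L a 0 θ x * u 1 x - L a 1 θ x * u 0 x‖ ^ 2 := by
    have hQ' : Integrable fun x =>
        (D1 a u x * conj (D1 a (fun j y => θ y ^ 2 * u j y) x)).re := hQ.re
    rw [← int_re hQ, ← integral_add hQ' hT]
    refine integral_congr_ae (Eventually.of_forall fun x => ?_)
    simp only [D1_mul hu hθs, D1_mul2 hu hθs]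
    have := alg (θ x) (D1 a u x) (-(L a 0 θ x * u 1 x - L a 1 θ x * u 0 x)) (hr x)
    rw [norm_neg, mul_neg, sub_neg_eq_add, sub_neg_eq_add] at this
    exact this
  -- the pairing
  have hL : ∀ j, Integrable fun x => L a j (D0s a u) x * conj (θ x ^ 2 * u j x) := fun j =>
    (Tst.mul_left (Sm.L ha j hs) (hg j).conj).integrable
  have hLs : ∀ j k, Integrable fun x => Ls a j (D1 a u) x * conj (θ x ^ 2 * u k x) := fun j k =>
    (Tst.mul_left (Sm.Ls ha j hv) (hg k).conj).integrable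
  have h3 : (∫ x, ∑ j, Box a u j x * conj (θ x ^ 2 * u j x))
      = (∫ x, D0s a u x * conj (D0s a (fun j y => θ y ^ 2 * u j y) x))
        + ∫ x, D1 a u x * conj (D1 a (fun j y => θ y ^ 2 * u j y) x) := by
    have e0 : (∫ x, ∑ j, Box a u j x * conj (θ x ^ 2 * u j x))
        = (∫ x, L a 0 (D0s a u) x * conj (θ x ^ 2 * u 0 x))
          + (∫ x, L a 1 (D0s a u) x * conj (θ x ^ 2 * u 1 x))
          + ((∫ x, Ls a 0 (D1 a u) x * conj (θ x ^ 2 * u 1 x))
          - ∫ x, Ls a 1 (D1 a u) x * conj (θ x ^ 2 * u 0 x)) := by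
      have q1 : Integrable fun x => L a 0 (D0s a u) x * conj (θ x ^ 2 * u 0 x)
          + L a 1 (D0s a u) x * conj (θ x ^ 2 * u 1 x) := (hL 0).add (hL 1)
      have q2 : Integrable fun x => Ls a 0 (D1 a u) x * conj (θ x ^ 2 * u 1 x)
          - Ls a 1 (D1 a u) x * conj (θ x ^ 2 * u 0 x) := (hLs 0 1).sub (hLs 1 0)
      rw [← integral_add (hL 0) (hL 1), ← integral_sub (hLs 0 1) (hLs 1 0),
        ← integral_add q1 q2]
      refine integral_congr_ae (Eventually.of_forall fun x => ?_)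
      simp only [Fin.sum_univ_two, Box, D0, D1s]
      simp only [if_true, if_neg (one_ne_zero : (1 : Fin 2) ≠ 0)]
      ring
    rw [e0, ibp_L ha 0 hs (hg 0), ibp_L ha 1 hs (hg 1), ibpc ha 0 hv (hg 1), ibpc ha 1 hv (hg 0)]
    have i1 : ∀ j, Integrable fun x => D0s a u x * conj (Ls a j (fun y => θ y ^ 2 * u j y) x) :=
      fun j => (Tst.mul_left hs (Tst.Ls ha j (hg j)).conj).integrable
    have i2 : ∀ j k, Integrable fun x => D1 a u x * conj (L a j (fun y => θ y ^ 2 * u k y) x) :=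
      fun j k => (Tst.mul_left hv (Tst.L ha j (hg k)).conj).integrable
    rw [← integral_add (i1 0) (i1 1), ← integral_sub (i2 0 1) (i2 1 0)]
    congr 1
    · refine integral_congr_ae (Eventually.of_forall fun x => ?_)
      simp only [D0s, map_add]
      ring
    · refine integral_congr_ae (Eventually.of_forall fun x => ?_)
      simp only [D1, map_sub]
      ring
  rw [h1, h2, h3, Complex.add_re]
  ring

end Pool.Agent.CR5
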