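import Pool.Agent.Lib.CR5.E.Spec

/-!
# CR5, block E, module EIn (helper44): induction over the order with shrinking domains
-/

set_option autoImplicit false

open MeasureTheory Set Filter Topology
open scoped ENNReal ComplexConjugate

noncomputable section

namespace Pool.Agent.CR5

namespace EInAux

/-- the cutoff function -/
theorem cutoff {C : ℝ} (hC : 1 ≤ C)
    (h : ∀ (A : Set E5) (s : ℝ), 0 < s → s ≤ 1 →
      ∃ χ : E5 → ℂ, Sm χ ∧ (∀ x, ∃ r : ℝ, 0 ≤ r ∧ r ≤ 1 ∧ χ x = r) ∧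
      (∀ y ∈ A, ∀ x, dist x y < s / 4 → χ x = 1) ∧
      (∀ x, χ x ≠ 0 → ∃ y ∈ A, dist x y < s) ∧ ∀ i ≤ 1, ∀ x, sq i χ x ≤ (C / s ^ i) ^ 2)
    {s : ℝ} (hs : 0 < s) (hs1 : s ≤ 1) {Ω' Ω : Set E5} (hI : Inn Ω' Ω s)
    (hb : Ω ⊆ Metric.ball 0 1) :
    ∃ ζ : E5 → ℝ, Cof ζ Ω (2 * C / s) ∧ ∀ x ∈ Ω', ζ x = 1 := by
  obtain ⟨χ, hχ, hr, h1, h0, hd⟩ := h Ω' (s / 2) (by linarith) (by linarith)
  have hre : ∀ x, ((χ x).re : ℂ) = χ x := by
    intro x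
    obtain ⟨r, _, _, hx⟩ := hr x
    rw [hx, Complex.ofReal_re]
  have hsub : tsupport (fun x => (χ x).re) ⊆ Ω := by
    intro x hx
    obtain ⟨z, hz, hxz⟩ := Metric.mem_closure_iff.1 hx (s / 2) (by linarith)
    have hz0 : χ z ≠ 0 := by
      intro h00
      apply hz
      show (χ z).re = 0
      rw [h00, Complex.zero_re]
    obtain ⟨y, hy, hzy⟩ := h0 z hz0
    apply hI y hy
    rw [Metric.mem_ball]
    calc dist x y ≤ dist x z + dist z y := dist_triangle _ _ _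
      _ < s := by linarith
  refine ⟨fun x => (χ x).re, ⟨?_, ?_, hsub, ?_, ?_, ?_⟩, ?_⟩
  · exact Complex.reCLM.contDiff.comp hχ
  · exact (isCompact_closedBall (0 : E5) 1).of_isClosed_subset (isClosed_tsupport _)
      (hsub.trans (hb.trans Metric.ball_subset_closedBall))
  · intro x
    obtain ⟨r, hr0, _, hx⟩ := hr x
    show 0 ≤ (χ x).re
    rw [hx, Complex.ofReal_re]
    exact hr0
  · intro x
    obtain ⟨r, _, hr1, hx⟩ := hr x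
    show (χ x).re ≤ 1
    rw [hx, Complex.ofReal_re]
    exact hr1
  · intro k x
    have e : (fun y => (((fun x => (χ x).re) y : ℝ) : ℂ)) = χ := by
      funext y
      exact hre y
    rw [e]
    have h2 := hd 1 le_rfl x
    have h3 : ‖pd k χ x‖ ^ 2 ≤ sq 1 χ x :=
      Finset.single_le_sum (f := fun k => sq 0 (pd k χ) x) (fun _ _ => sq_nonneg' _ _ _)
        (Finset.mem_univ k)
    have h4 : C / (s / 2) ^ 1 = 2 * C / s := by
      rw [pow_one]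
      field_simp
    rw [h4] at h2
    exact le_of_sq_le_sq (h3.trans h2) (by positivity)
  · intro x hx
    show (χ x).re = 1
    rw [h1 x hx x (by rw [dist_self]; linarith), Complex.one_re]

/-- removing the cutoff -/
theorem le_cut {ζ : E5 → ℝ} {Ω' Ω : Set E5} {B : ℝ} (h : Cof ζ Ω B) (h1 : ∀ x ∈ Ω', ζ x = 1)
    (hΩ' : MeasurableSet Ω') {g : E5 → ℝ} (hg : Continuous g) (h0 : ∀ x, 0 ≤ g x) {n : ℕ}
    (hn : n ≠ 0) : ∫ x in Ω', g x ≤ ∫ x, ζ x ^ n * g x := by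
  have e : ∫ x in Ω', g x = ∫ x in Ω', ζ x ^ n * g x := by
    refine setIntegral_congr_fun hΩ' fun x hx => ?_
    show g x = ζ x ^ n * g x
    rw [h1 x hx, one_pow, one_mul]
  rw [e]
  refine setIntegral_le_integral (h.intg hg hn) ?_
  exact Filter.Eventually.of_forall fun x => mul_nonneg (pow_nonneg (h.nn x) n) (h0 x)

theorem Dat_nonneg (m : ℕ) (Ω : Set E5) (f : F2) (β b : E5 → ℂ) : 0 ≤ Dat m Ω f β b :=
  integral_nonneg fun _ => add_nonneg (add_nonneg (add_nonneg (sqs_nonneg _ _ _)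
    (sqs_nonneg _ _ _)) (sqs_nonneg _ _ _)) (sqs_nonneg _ _ _)

/-- integrals over a smaller set -/
theorem mono_set {Ω' Ω : Set E5} (hb : Ω ⊆ Metric.ball 0 1) (hs : Ω' ⊆ Ω)
    {g : E5 → ℝ} (hg : Continuous g) (h0 : ∀ x, 0 ≤ g x) :
    ∫ x in Ω', g x ≤ ∫ x in Ω, g x :=
  setIntegral_mono_set (intOn_of_cont hg hb) (Filter.Eventually.of_forall h0)
    (Filter.Eventually.of_forall hs)

theorem Dat_cont {m : ℕ} {f : F2} {β b : E5 → ℂ} (hf : ∀ j, Sm (f j)) (hβ : Sm β) (hb : Sm b) :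
    Continuous fun x => sqs m (f 0) x + sqs m (f 1) x + sqs m β x + sqs m b x :=
  (((sqs_cont (hf 0) m).add (sqs_cont (hf 1) m)).add (sqs_cont hβ m)).add (sqs_cont hb m)

theorem Qo_cont {a : Str} (ha : SmS a) {w : F2} (hw : ∀ j, Sm (w j)) (i : ℕ) :
    Continuous fun x => gq a i (w 0) x + gq a i (w 1) x + sq i (w 0) x + sq i (w 1) x :=
  (((gq_cont ha (hw 0) i).add (gq_cont ha (hw 1) i)).add (sq_cont (hw 0) i)).add
    (sq_cont (hw 1) i)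

theorem Qo_pt (a : Str) (i : ℕ) (w : F2) (x : E5) :
    0 ≤ gq a i (w 0) x + gq a i (w 1) x + sq i (w 0) x + sq i (w 1) x :=
  add_nonneg (add_nonneg (add_nonneg (gq_nonneg _ _ _ _) (gq_nonneg _ _ _ _))
    (sq_nonneg' _ _ _)) (sq_nonneg' _ _ _)

theorem Dat_mono {m : ℕ} {Ω' Ω : Set E5} (hb : Ω ⊆ Metric.ball 0 1) (hs : Ω' ⊆ Ω)
    {f : F2} {β b : E5 → ℂ} (hf : ∀ j, Sm (f j)) (hβ : Sm β) (hbs : Sm b) :
    Dat m Ω' f β b ≤ Dat m Ω f β b :=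
  mono_set hb hs (Dat_cont hf hβ hbs) fun _ => add_nonneg (add_nonneg (add_nonneg
    (sqs_nonneg _ _ _) (sqs_nonneg _ _ _)) (sqs_nonneg _ _ _)) (sqs_nonneg _ _ _)

theorem Dat_mono_m {m : ℕ} {Ω : Set E5} (hΩ : MeasurableSet Ω) (hb : Ω ⊆ Metric.ball 0 1)
    {f : F2} {β b : E5 → ℂ} (hf : ∀ j, Sm (f j)) (hβ : Sm β) (hbs : Sm b) :
    Dat m Ω f β b ≤ Dat (m + 1) Ω f β b :=
  setIntegral_mono_on (intOn_of_cont (Dat_cont hf hβ hbs) hb)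
    (intOn_of_cont (Dat_cont hf hβ hbs) hb) hΩ fun _ _ =>
    add_le_add (add_le_add (add_le_add (sqs_mono (Nat.le_succ m) _ _) (sqs_mono (Nat.le_succ m) _ _))
      (sqs_mono (Nat.le_succ m) _ _)) (sqs_mono (Nat.le_succ m) _ _)

theorem Qo_mono {a : Str} (ha : SmS a) {i : ℕ} {Ω' Ω : Set E5} (hb : Ω ⊆ Metric.ball 0 1)
    (hs : Ω' ⊆ Ω) {w : F2} (hw : ∀ j, Sm (w j)) : Qo a i Ω' w ≤ Qo a i Ω w :=
  mono_set hb hs (Qo_cont ha hw i) fun x => Qo_pt a i w x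

/-- one step without cutoff function -/
theorem step {ε : ℝ} {m : ℕ} {M C₀ C₁ : ℝ} (hC₀ : 1 ≤ C₀) (hC₁ : 1 ≤ C₁)
    (hSt : ∀ a : Str, Near a 4 ε → BdS (m + 1) M a →
      ∀ e : ℝ, 0 ≤ e → e ≤ 1 → ∀ Ω : Set E5, IsOpen Ω → Ω ⊆ Metric.ball 0 1 →
      ∀ (w f : F2) (β b : E5 → ℂ), (∀ j, Sm (w j)) → (∀ j, Sm (f j)) → Sm β → Sm b →
      (∀ j, ∀ x ∈ Ω, BoxE a e w j x = f j x + D1s a β j x + D0 a b j x) →
      ∀ (ζ : E5 → ℝ) (B : ℝ), Cof ζ Ω B → 1 ≤ B →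
      (∫ x, ζ x ^ 4 * (gq a m (w 0) x + gq a m (w 1) x))
          + (∫ x, ζ x ^ 2 * (sq m (w 0) x + sq m (w 1) x))
        ≤ C₀ * B ^ 4 * (Dat m Ω f β b + Lo a m Ω w))
    (hCut : ∀ (A : Set E5) (s : ℝ), 0 < s → s ≤ 1 →
      ∃ χ : E5 → ℂ, Sm χ ∧ (∀ x, ∃ r : ℝ, 0 ≤ r ∧ r ≤ 1 ∧ χ x = r) ∧
      (∀ y ∈ A, ∀ x, dist x y < s / 4 → χ x = 1) ∧
      (∀ x, χ x ≠ 0 → ∃ y ∈ A, dist x y < s) ∧ ∀ i ≤ 1, ∀ x, sq i χ x ≤ (C₁ / s ^ i) ^ 2)
    (a : Str) (ha : Near a 4 ε) (hM : BdS (m + 1) M a) {s : ℝ} (hs : 0 < s) (hs1 : s ≤ 1)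
    {Ω' Ω : Set E5} (hΩ' : IsOpen Ω') (hΩ : IsOpen Ω) (hI : Inn Ω' Ω s)
    (hb : Ω ⊆ Metric.ball 0 1) {e : ℝ} (he0 : 0 ≤ e) (he1 : e ≤ 1)
    (w f : F2) (β b : E5 → ℂ) (hw : ∀ j, Sm (w j)) (hf : ∀ j, Sm (f j)) (hβ : Sm β) (hbs : Sm b)
    (heq : ∀ j, ∀ x ∈ Ω, BoxE a e w j x = f j x + D1s a β j x + D0 a b j x)
    (hnn : 0 ≤ Dat m Ω f β b + Lo a m Ω w) :
    Qo a m Ω' w ≤ (2 * (C₀ * C₁) / s) ^ 4 * (Dat m Ω f β b + Lo a m Ω w) := by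
  obtain ⟨ζ, hζ, h1⟩ := cutoff hC₁ hCut hs hs1 hI hb
  have hB : 1 ≤ 2 * C₁ / s := by
    rw [le_div_iff₀ hs]
    linarith
  have h2 := hSt a ha hM e he0 he1 Ω hΩ hb w f β b hw hf hβ hbs heq ζ _ hζ hB
  have hg : Continuous fun x => gq a m (w 0) x + gq a m (w 1) x :=
    (gq_cont ha.smS (hw 0) m).add (gq_cont ha.smS (hw 1) m)
  have hy : Continuous fun x => sq m (w 0) x + sq m (w 1) x :=
    (sq_cont (hw 0) m).add (sq_cont (hw 1) m)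
  have h3 := le_cut hζ h1 hΩ'.measurableSet hg (fun x => add_nonneg (gq_nonneg _ _ _ _)
    (gq_nonneg _ _ _ _)) (n := 4) (by norm_num)
  have h4 := le_cut hζ h1 hΩ'.measurableSet hy (fun x => add_nonneg (sq_nonneg' _ _ _)
    (sq_nonneg' _ _ _)) (n := 2) (by norm_num)
  have hsub : Ω' ⊆ Metric.ball 0 1 := fun x hx => hb (hI x hx (Metric.mem_ball_self hs))
  have h5 : Qo a m Ω' w = (∫ x in Ω', (gq a m (w 0) x + gq a m (w 1) x))
      + ∫ x in Ω', (sq m (w 0) x + sq m (w 1) x) := by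
    unfold Qo
    rw [← integral_add (intOn_of_cont hg hsub) (intOn_of_cont hy hsub)]
    congr 1
    funext x
    ring
  have h6 : C₀ * (2 * C₁ / s) ^ 4 ≤ (2 * (C₀ * C₁) / s) ^ 4 := by
    have e1 : (2 * (C₀ * C₁) / s) ^ 4 = C₀ ^ 4 * (2 * C₁ / s) ^ 4 := by
      rw [← mul_pow]
      congr 1
      ring
    rw [e1]
    exact mul_le_mul_of_nonneg_right (le_self_pow₀ hC₀ (by norm_num)) (by positivity)
  calc Qo a m Ω' w ≤ C₀ * (2 * C₁ / s) ^ 4 * (Dat m Ω f β b + Lo a m Ω w) := by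
        rw [h5]; linarith
    _ ≤ (2 * (C₀ * C₁) / s) ^ 4 * (Dat m Ω f β b + Lo a m Ω w) :=
        mul_le_mul_of_nonneg_right h6 hnn

/-- the final numerics -/
theorem num {C C₂ s S : ℝ} {p : ℕ} (hC : 1 ≤ C) (hC₂ : 1 ≤ C₂) (hs : 0 < s) (hs1 : s ≤ 1)
    (hS : 0 ≤ S) :
    (C / (s / 2)) ^ p * S + (2 * C₂ / (s / 2)) ^ 4 * (S + (C / (s / 2)) ^ p * S)
      ≤ (12 * (C + C₂) / s) ^ (p + 4) * S := by
  set Z : ℝ := 4 * (C + C₂) / s with hZ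
  have hZ1 : 1 ≤ Z := by
    rw [hZ, le_div_iff₀ hs]
    linarith
  have hZ0 : 0 ≤ Z := by linarith
  have e1 : (C / (s / 2)) ^ p ≤ Z ^ p := by
    refine pow_le_pow_left₀ (by positivity) ?_ p
    rw [hZ, div_le_div_iff₀ (by positivity) hs]
    nlinarith
  have e2 : (2 * C₂ / (s / 2)) ^ 4 ≤ Z ^ 4 := by
    refine pow_le_pow_left₀ (by positivity) ?_ 4
    rw [hZ, div_le_div_iff₀ (by positivity) hs]
    nlinarith
  have e3 : (1 : ℝ) ≤ Z ^ p := one_le_pow₀ hZ1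
  have e4 : (1 : ℝ) ≤ Z ^ 4 := one_le_pow₀ hZ1
  have e5 : (C / (s / 2)) ^ p * S + (2 * C₂ / (s / 2)) ^ 4 * (S + (C / (s / 2)) ^ p * S)
      = ((C / (s / 2)) ^ p + (2 * C₂ / (s / 2)) ^ 4 * (1 + (C / (s / 2)) ^ p)) * S := by ring
  rw [e5]
  refine mul_le_mul_of_nonneg_right ?_ hS
  have e6 : (C / (s / 2)) ^ p + (2 * C₂ / (s / 2)) ^ 4 * (1 + (C / (s / 2)) ^ p)
      ≤ Z ^ p + Z ^ 4 * (1 + Z ^ p) :=
    add_le_add e1 (mul_le_mul e2 (by linarith) (by positivity) (by positivity))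
  refine e6.trans ?_
  have e7 : Z ^ p + Z ^ 4 * (1 + Z ^ p) ≤ 3 * Z ^ (p + 4) := by
    rw [pow_add]
    nlinarith [mul_le_mul_of_nonneg_left e4 (by positivity : 0 ≤ Z ^ p),
      mul_le_mul_of_nonneg_left e3 (by positivity : 0 ≤ Z ^ 4)]
  refine e7.trans ?_
  have e8 : 12 * (C + C₂) / s = 3 * Z := by rw [hZ]; ring
  rw [e8, mul_pow]
  refine mul_le_mul_of_nonneg_right ?_ (by positivity)
  exact le_self_pow₀ (by norm_num) (by omega)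

theorem Lo_nonneg (a : Str) (m : ℕ) (Ω : Set E5) (w : F2) : 0 ≤ Lo a m Ω w :=
  add_nonneg (integral_nonneg fun x => by positivity)
    (Finset.sum_nonneg fun i _ => integral_nonneg fun x => Qo_pt a i w x)

end EInAux

open EInAux in
theorem pEIn (hSt : S_ESt) (hCut : S_CUT2) : S_EIn := by
  obtain ⟨ε, hε, hSt⟩ := hSt
  obtain ⟨C₁, hC₁, hCut⟩ := hCut 1
  refine ⟨ε, hε, ?_⟩
  intro m M
  induction m with
  | zero =>
    obtain ⟨C₀, hC₀, hSt⟩ := hSt 0 M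
    have hCC : 1 ≤ C₀ * C₁ := by nlinarith
    refine ⟨2 * (C₀ * C₁), 4, by linarith, ?_⟩
    intro a ha hM s hs hs1 Ω' Ω hΩ' hΩ _ hI hb e he0 he1 w f β b hw hf hβ hbs heq
    have h1 := step hC₀ hC₁ hSt hCut a ha hM hs hs1 hΩ' hΩ hI hb he0 he1 w f β b hw hf hβ hbs
      heq (add_nonneg (Dat_nonneg _ _ _ _ _) (Lo_nonneg _ _ _ _))
    have h2 : Lo a 0 Ω w = ∫ x in Ω, (‖w 0 x‖ ^ 2 + ‖w 1 x‖ ^ 2) := by
      unfold Lo
      simp
    rw [h2] at h1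
    simpa using h1
  | succ m ih =>
    obtain ⟨C, p, hC, ih⟩ := ih
    obtain ⟨C₀, hC₀, hSt⟩ := hSt (m + 1) M
    have hCC : 1 ≤ C₀ * C₁ := by nlinarith
    refine ⟨12 * (C + C₀ * C₁), p + 4, by linarith, ?_⟩
    intro a ha hM s hs hs1 Ω' Ω hΩ' hΩ hsub hI hb e he0 he1 w f β b hw hf hβ hbs heq
    have hΩ₁ : IsOpen (Metric.thickening (s / 2) Ω') := Metric.isOpen_thickening
    have hI₁ : Inn Ω' (Metric.thickening (s / 2) Ω') (s / 2) :=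
      fun x hx => Metric.ball_subset_thickening hx _
    have hI₂ : Inn (Metric.thickening (s / 2) Ω') Ω (s / 2) := by
      intro x hx z hz
      obtain ⟨y, hy, hxy⟩ := Metric.mem_thickening_iff.1 hx
      apply hI y hy
      rw [Metric.mem_ball] at hz ⊢
      calc dist z y ≤ dist z x + dist x y := dist_triangle _ _ _
        _ < s := by linarith
    have hs₁ : Ω' ⊆ Metric.thickening (s / 2) Ω' :=
      Metric.self_subset_thickening (by linarith) _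
    have hs₂ : Metric.thickening (s / 2) Ω' ⊆ Ω :=
      fun x hx => hI₂ x hx (Metric.mem_ball_self (by linarith))
    have hb₁ : Metric.thickening (s / 2) Ω' ⊆ Metric.ball 0 1 := hs₂.trans hb
    have h1 := ih a ha (hM.mono (by omega)) (s / 2) (by linarith) (by linarith) _ Ω hΩ₁ hΩ hs₂ hI₂
      hb e he0 he1 w f β b hw hf hβ hbs heq
    have h2 := step hC₀ hC₁ hSt hCut a ha hM (s := s / 2) (by linarith) (by linarith) hΩ' hΩ₁ hI₁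
      hb₁ he0 he1 w f β b hw hf hβ hbs (fun j x hx => heq j x (hs₂ hx))
      (add_nonneg (Dat_nonneg _ _ _ _ _) (Lo_nonneg _ _ _ _))
    have hwc : Continuous fun x => ‖w 0 x‖ ^ 2 + ‖w 1 x‖ ^ 2 :=
      ((hw 0).cont.norm.pow 2).add ((hw 1).cont.norm.pow 2)
    have h3 : ∫ x in Metric.thickening (s / 2) Ω', (‖w 0 x‖ ^ 2 + ‖w 1 x‖ ^ 2)
        ≤ ∫ x in Ω, (‖w 0 x‖ ^ 2 + ‖w 1 x‖ ^ 2) :=
      mono_set hb hs₂ hwc fun x => by positivity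
    have h4 : Dat (m + 1) (Metric.thickening (s / 2) Ω') f β b ≤ Dat (m + 1) Ω f β b :=
      Dat_mono hb hs₂ hf hβ hbs
    have h5 : Dat m Ω f β b ≤ Dat (m + 1) Ω f β b :=
      Dat_mono_m hΩ.measurableSet hb hf hβ hbs
    have hw0 : 0 ≤ ∫ x in Ω, (‖w 0 x‖ ^ 2 + ‖w 1 x‖ ^ 2) :=
      integral_nonneg fun x => by positivity
    have hD0 := Dat_nonneg (m + 1) Ω f β b
    set W : ℝ := ∫ x in Ω, (‖w 0 x‖ ^ 2 + ‖w 1 x‖ ^ 2) with hW
    have h6 : ∑ i ∈ Finset.range (m + 1), Qo a i Ω' w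
        ≤ ∑ i ∈ Finset.range (m + 1), Qo a i (Metric.thickening (s / 2) Ω') w :=
      Finset.sum_le_sum fun i _ => Qo_mono ha.smS hb₁ hs₁ hw
    have h7 : (C / (s / 2)) ^ p * (Dat m Ω f β b + W)
        ≤ (C / (s / 2)) ^ p * (Dat (m + 1) Ω f β b + W) :=
      mul_le_mul_of_nonneg_left (by linarith) (by positivity)
    have h8 : Dat (m + 1) (Metric.thickening (s / 2) Ω') f β b
        + Lo a (m + 1) (Metric.thickening (s / 2) Ω') w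
        ≤ (Dat (m + 1) Ω f β b + W) + (C / (s / 2)) ^ p * (Dat (m + 1) Ω f β b + W) := by
      unfold Lo
      linarith
    have h9 := h2.trans (mul_le_mul_of_nonneg_left h8 (by positivity))
    rw [Finset.sum_range_succ]
    have h10 := num (p := p) hC hCC hs hs1 (S := Dat (m + 1) Ω f β b + W) (by linarith)
    calc ∑ i ∈ Finset.range (m + 1), Qo a i Ω' w + Qo a (m + 1) Ω' w
        ≤ (C / (s / 2)) ^ p * (Dat (m + 1) Ω f β b + W)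
          + (2 * (C₀ * C₁) / (s / 2)) ^ 4 * ((Dat (m + 1) Ω f β b + W)
            + (C / (s / 2)) ^ p * (Dat (m + 1) Ω f β b + W)) := by linarith
      _ ≤ (12 * (C + C₀ * C₁) / s) ^ (p + 4) * (Dat (m + 1) Ω f β b + W) := h10

end Pool.Agent.CR5
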