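import Pool.Agent.Lib.CR5.E.Spec

/-!
# CR5, block E: derivatives of a first order operator (helper63)

Proof of `S_ELe`.
-/

set_option autoImplicit false

open MeasureTheory Set Filter Topology
open scoped ENNReal ComplexConjugate

noncomputable section

namespace Pool.Agent.CR5

namespace ELeAux

theorem sqs_pd (i : ℕ) (f : E5 → ℂ) (k : Fin 5) (x : E5) : sqs i (pd k f) x ≤ sqs (i + 1) f x := by
  unfold sqs
  rw [Finset.sum_range_succ' _ (i + 1)]
  have h1 : ∑ j ∈ Finset.range (i + 1), sq j (pd k f) x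
      ≤ ∑ j ∈ Finset.range (i + 1), sq (j + 1) f x :=
    Finset.sum_le_sum fun j _ => sq_pd_le j f k x
  have h2 := sq_nonneg' 0 f x
  linarith

theorem mul_bd {n : ℕ} {B : ℝ} {c g : E5 → ℂ} (hc : Sm c) (hg : Sm g) (hB : Bd n B c) {i : ℕ}
    (hi : i ≤ n) {x : E5} (hx : x ∈ Metric.ball (0 : E5) 1) :
    sq i (fun y => c y * g y) x ≤ 4 ^ n * ((n : ℝ) + 1) * B ^ 2 * sqs i g x := by
  have h0 := sqs_nonneg i g x
  have h1 : ∑ j ∈ Finset.range (i + 1), sq j c x * sq (i - j) g x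
      ≤ ∑ _j ∈ Finset.range (i + 1), B ^ 2 * sqs i g x := by
    refine Finset.sum_le_sum fun j hj => ?_
    have hj' := Finset.mem_range.1 hj
    exact mul_le_mul (hB j (by omega) x hx) (sq_le_sqs (by omega) g x) (sq_nonneg' _ _ _)
      (by positivity)
  rw [Finset.sum_const, Finset.card_range, nsmul_eq_mul] at h1
  have h2 : (((i + 1 : ℕ) : ℝ)) ≤ (n : ℝ) + 1 := by
    have : (i : ℝ) ≤ n := by exact_mod_cast hi
    push_cast
    linarith
  have h3 : (4 : ℝ) ^ i ≤ 4 ^ n := pow_le_pow_right₀ (by norm_num) hi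
  calc sq i (fun y => c y * g y) x
      ≤ 4 ^ i * ((((i + 1 : ℕ) : ℝ)) * (B ^ 2 * sqs i g x)) :=
        (sq_mul_le i hc hg x).trans (mul_le_mul_of_nonneg_left h1 (by positivity))
    _ = (4 ^ i * (((i + 1 : ℕ) : ℝ))) * (B ^ 2 * sqs i g x) := by ring
    _ ≤ (4 ^ n * ((n : ℝ) + 1)) * (B ^ 2 * sqs i g x) :=
        mul_le_mul_of_nonneg_right (mul_le_mul h3 h2 (by positivity) (by positivity))
          (mul_nonneg (sq_nonneg B) h0)
    _ = _ := by ring

theorem sum_bd (i : ℕ) {ι : Type} (s : Finset ι) {f : ι → E5 → ℂ} (hf : ∀ k ∈ s, Sm (f k))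
    (x : E5) : sq i (fun y => ∑ k ∈ s, f k y) x ≤ 2 ^ s.card * ∑ k ∈ s, sq i (f k) x := by
  classical
  induction s using Finset.induction_on with
  | empty =>
    simp only [Finset.sum_empty, Finset.card_empty, pow_zero, mul_zero]
    rw [sq_zero_fun]
  | insert k s hk ih =>
    simp only [Finset.sum_insert hk, Finset.card_insert_of_notMem hk]
    have h1 := sq_add_le i (hf k (Finset.mem_insert_self _ _))
      (Sm.sum s fun l hl => hf l (Finset.mem_insert_of_mem hl)) x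
    have h2 := ih fun l hl => hf l (Finset.mem_insert_of_mem hl)
    have h3 := sq_nonneg' i (f k) x
    have h4 : (1 : ℝ) ≤ 2 ^ s.card := one_le_pow₀ (by norm_num)
    have h5 : sq i (f k) x ≤ 2 ^ s.card * sq i (f k) x := by nlinarith
    calc sq i (fun y => f k y + ∑ l ∈ s, f l y) x
        ≤ 2 * sq i (f k) x + 2 * sq i (fun y => ∑ l ∈ s, f l y) x := h1
      _ ≤ 2 * (2 ^ s.card * sq i (f k) x) + 2 * (2 ^ s.card * ∑ l ∈ s, sq i (f l) x) := by
          linarith
      _ = 2 ^ (s.card + 1) * (sq i (f k) x + ∑ l ∈ s, sq i (f l) x) := by ring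

end ELeAux

open ELeAux in
/-- **ELe** -/
theorem pELe : S_ELe := by
  intro n B
  refine ⟨322 * (4 ^ n * ((n : ℝ) + 1) * B ^ 2), by positivity, ?_⟩
  rintro P ⟨c, d, hc, hd, hcB, hdB, hP⟩ f hf i hi x hx
  rw [hP f hf]
  have h0 : 0 ≤ 4 ^ n * ((n : ℝ) + 1) * B ^ 2 := by positivity
  have h1 := sq_add_le i (Sm.sum (Finset.univ : Finset (Fin 5))
    fun k _ => (hc k).mul (hf.pd k)) (hd.mul hf) x
  have h2 := sum_bd i (Finset.univ : Finset (Fin 5)) (f := fun k y => c k y * pd k f y)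
    (fun k _ => (hc k).mul (hf.pd k)) x
  have h3 : ∑ k : Fin 5, sq i (fun y => c k y * pd k f y) x
      ≤ ∑ _k : Fin 5, 4 ^ n * ((n : ℝ) + 1) * B ^ 2 * sqs (i + 1) f x :=
    Finset.sum_le_sum fun k _ => (mul_bd (hc k) (hf.pd k) (hcB k) hi hx).trans
      (mul_le_mul_of_nonneg_left (sqs_pd i f k x) h0)
  have h4 : sq i (fun y => d y * f y) x ≤ 4 ^ n * ((n : ℝ) + 1) * B ^ 2 * sqs (i + 1) f x :=
    (mul_bd hd hf hdB hi hx).trans (mul_le_mul_of_nonneg_left (sqs_mono (by omega) f x) h0)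
  simp only [Finset.card_univ, Fintype.card_fin] at h2
  simp only [Finset.sum_const, Finset.card_univ, Fintype.card_fin, nsmul_eq_mul] at h3
  push_cast at h3
  have h5 : (fun y => ∑ k, c k y * pd k f y + d y * f y) = FO c d f := rfl
  rw [← h5]
  linarith

end Pool.Agent.CR5
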