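import Pool.Agent.Lib.CR5.E.Spec

/-!
# CR5, E/ELoc: weighted form of the interior estimates
-/

set_option autoImplicit false

open MeasureTheory Set Filter Topology
open scoped ENNReal ComplexConjugate

noncomputable section

namespace Pool.Agent.CR5

namespace ELocAux

/-- Constants. -/
theorem sumC (n : ℕ) (K : ℝ) (hK : 1 ≤ K) (Cf : ℕ → ℝ) (pf : ℕ → ℕ) (hC : ∀ i, 1 ≤ Cf i) :
    ∃ (C : ℝ) (p : ℕ), 1 ≤ C ∧ ∀ s : ℝ, 0 < s → s ≤ 1 →
      ∑ i ∈ Finset.range n, K * (Cf i / s) ^ pf i ≤ (C / s) ^ p := by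
  induction n with
  | zero =>
    refine ⟨1, 0, le_rfl, ?_⟩
    intro s _ _
    simp
  | succ n ih =>
    obtain ⟨C, p, hC1, h⟩ := ih
    have hCn := hC n
    have hD1 : 1 ≤ C * Cf n := one_le_mul_of_one_le_of_one_le hC1 hCn
    have hD2 : 1 ≤ 2 * K := by linarith
    refine ⟨2 * K * (C * Cf n), p + pf n + 1, one_le_mul_of_one_le_of_one_le hD2 hD1, ?_⟩
    intro s hs hs1
    rw [Finset.sum_range_succ]
    have h1 := h s hs hs1
    have c1 : 1 ≤ C / s := by
      rw [le_div_iff₀ hs]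
      linarith
    have c2 : 1 ≤ Cf n / s := by
      rw [le_div_iff₀ hs]
      linarith
    obtain ⟨x, hx⟩ : ∃ x, x = (C / s) ^ p := ⟨_, rfl⟩
    obtain ⟨y, hy⟩ : ∃ y, y = (Cf n / s) ^ pf n := ⟨_, rfl⟩
    have x1 : 1 ≤ x := by
      rw [hx]
      exact one_le_pow₀ c1
    have y1 : 1 ≤ y := by
      rw [hy]
      exact one_le_pow₀ c2
    obtain ⟨D, hD⟩ : ∃ D, D = 2 * K * (C * Cf n) := ⟨_, rfl⟩
    have d1 : C ≤ D := by
      rw [hD]
      have e1 : C ≤ C * Cf n := le_mul_of_one_le_right (by linarith) hCn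
      have e2 : C * Cf n ≤ 2 * K * (C * Cf n) := le_mul_of_one_le_left (by linarith) hD2
      linarith
    have d2 : Cf n ≤ D := by
      rw [hD]
      have e1 : Cf n ≤ C * Cf n := le_mul_of_one_le_left (by linarith) hC1
      have e2 : C * Cf n ≤ 2 * K * (C * Cf n) := le_mul_of_one_le_left (by linarith) hD2
      linarith
    have d3 : 2 * K ≤ D := by
      rw [hD]
      exact le_mul_of_one_le_right (by linarith) hD1
    have x2 : x ≤ (D / s) ^ p := by
      rw [hx]
      exact pow_le_pow_left₀ (by linarith) (div_le_div_of_nonneg_right d1 hs.le) _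
    have y2 : y ≤ (D / s) ^ pf n := by
      rw [hy]
      exact pow_le_pow_left₀ (by linarith) (div_le_div_of_nonneg_right d2 hs.le) _
    have d4 : 2 * K ≤ D / s := by
      rw [le_div_iff₀ hs]
      nlinarith
    rw [← hx] at h1
    rw [← hy, ← hD]
    have xy : 1 ≤ x * y := one_le_mul_of_one_le_of_one_le x1 y1
    have e1 : x ≤ K * (x * y) := by
      have e2 : x ≤ x * y := le_mul_of_one_le_right (by linarith) y1
      have e3 : x * y ≤ K * (x * y) := le_mul_of_one_le_left (by linarith) hK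
      linarith
    have e4 : K * y ≤ K * (x * y) :=
      mul_le_mul_of_nonneg_left (le_mul_of_one_le_left (by linarith) x1) (by linarith)
    have e5 : x * y ≤ (D / s) ^ p * (D / s) ^ pf n :=
      mul_le_mul x2 y2 (by linarith) (by linarith)
    calc _ ≤ x + K * y := by linarith
      _ ≤ x * y * (2 * K) := by linarith
      _ ≤ ((D / s) ^ p * (D / s) ^ pf n) * (D / s) :=
          mul_le_mul e5 d4 (by linarith) (by linarith)
      _ = (D / s) ^ (p + pf n + 1) := by rw [pow_succ, pow_add]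

theorem sqrt_add2 (x y : ℝ) (hx : 0 ≤ x) (hy : 0 ≤ y) :
    Real.sqrt (x + y) ≤ Real.sqrt x + Real.sqrt y := by
  rw [Real.sqrt_le_iff]
  have h1 := Real.sqrt_nonneg x
  have h2 := Real.sqrt_nonneg y
  have h3 := Real.sq_sqrt hx
  have h4 := Real.sq_sqrt hy
  refine ⟨by linarith, ?_⟩
  have h5 := mul_nonneg h1 h2
  nlinarith

/-- The square root is subadditive. -/
theorem sqrt_sum {ι : Type*} (S : Finset ι) (f : ι → ℝ) (h : ∀ i ∈ S, 0 ≤ f i) :
    Real.sqrt (∑ i ∈ S, f i) ≤ ∑ i ∈ S, Real.sqrt (f i) := by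
  classical
  induction S using Finset.induction_on with
  | empty => simp
  | insert i S hi ih =>
    rw [Finset.sum_insert hi, Finset.sum_insert hi]
    have h1 := ih fun k hk => h k (Finset.mem_insert_of_mem hk)
    have h2 := sqrt_add2 (f i) (∑ i ∈ S, f i) (h i (Finset.mem_insert_self i S))
      (Finset.sum_nonneg fun k hk => h k (Finset.mem_insert_of_mem hk))
    linarith

theorem nsq_add (a b : ℂ) : ‖a + b‖ ^ 2 ≤ 2 * (‖a‖ ^ 2 + ‖b‖ ^ 2) := by
  have h1 := norm_add_le a b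
  have h2 := norm_nonneg (a + b)
  have h3 : ‖a + b‖ ^ 2 ≤ (‖a‖ + ‖b‖) ^ 2 := pow_le_pow_left₀ h2 h1 2
  nlinarith [sq_nonneg (‖a‖ - ‖b‖)]

theorem nsq_sub (a b : ℂ) : ‖a - b‖ ^ 2 ≤ 2 * (‖a‖ ^ 2 + ‖b‖ ^ 2) := by
  have h := nsq_add a (-b)
  rw [norm_neg, ← sub_eq_add_neg] at h
  exact h

theorem sq_add2 (i : ℕ) {f g : E5 → ℂ} (hf : Sm f) (hg : Sm g) (x : E5) :
    sq i (fun y => f y + g y) x ≤ 2 * (sq i f x + sq i g x) := by
  rw [sq_eq_sL, sq_eq_sL, sq_eq_sL, ← sL_add, ← sL_mul_left]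
  refine sL_mono fun I _ => ?_
  rw [pdL_add hf hg]
  exact nsq_add _ _

theorem sq_sub2 (i : ℕ) {f g : E5 → ℂ} (hf : Sm f) (hg : Sm g) (x : E5) :
    sq i (fun y => f y - g y) x ≤ 2 * (sq i f x + sq i g x) := by
  rw [sq_eq_sL, sq_eq_sL, sq_eq_sL, ← sL_add, ← sL_mul_left]
  refine sL_mono fun I _ => ?_
  rw [pdL_sub hf hg]
  exact nsq_sub _ _

theorem setInt_nonneg {g : E5 → ℝ} (h : ∀ x, 0 ≤ g x) (Ω : Set E5) : 0 ≤ ∫ x in Ω, g x :=
  integral_nonneg h

/-- One function of the data. -/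
theorem dataT {h : ℕ → ℝ} (hh : Wt h) {m i : ℕ} (hi : i ≤ m) {Ω : Set E5}
    (hΩ : Ω ⊆ Metric.ball 0 1) {φ : E5 → ℂ} (hφ : Sm φ) :
    h i * Real.sqrt (∫ x in Ω, sqs i φ x) ≤ NN h m Ω φ := by
  have hanti : Antitone h := antitone_nat_of_succ_le hh.anti
  have e1 : ∫ x in Ω, sqs i φ x = ∑ l ∈ Finset.range (i + 1), ∫ x in Ω, sq l φ x := by
    rw [← integral_finsetSum _ fun l _ => intOn_of_cont (sq_cont hφ l) hΩ]
    rfl
  rw [e1]
  have e2 := sqrt_sum (Finset.range (i + 1)) (fun l => ∫ x in Ω, sq l φ x)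
    (fun l _ => setInt_nonneg (fun x => sq_nonneg' l φ x) Ω)
  calc h i * Real.sqrt (∑ l ∈ Finset.range (i + 1), ∫ x in Ω, sq l φ x)
      ≤ h i * ∑ l ∈ Finset.range (i + 1), Real.sqrt (∫ x in Ω, sq l φ x) :=
        mul_le_mul_of_nonneg_left e2 (hh.pos i).le
    _ = ∑ l ∈ Finset.range (i + 1), h i * Real.sqrt (∫ x in Ω, sq l φ x) := Finset.mul_sum _ _ _
    _ ≤ ∑ l ∈ Finset.range (i + 1), h l * Real.sqrt (∫ x in Ω, sq l φ x) := by
        refine Finset.sum_le_sum fun l hl => ?_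
        exact mul_le_mul_of_nonneg_right (hanti (by
          have := Finset.mem_range.1 hl
          omega)) (Real.sqrt_nonneg _)
    _ ≤ NN h m Ω φ := by
        refine Finset.sum_le_sum_of_subset_of_nonneg ?_ ?_
        · exact Finset.range_subset_range.2 (by omega)
        · intro l _ _
          exact mul_nonneg (hh.pos l).le (Real.sqrt_nonneg _)

theorem NN_nonneg' {h : ℕ → ℝ} (hh : Wt h) (m : ℕ) (Ω : Set E5) (φ : E5 → ℂ) :
    0 ≤ NN h m Ω φ :=
  Finset.sum_nonneg fun l _ => mul_nonneg (hh.pos l).le (Real.sqrt_nonneg _)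

end ELocAux

open ELocAux in
theorem pELoc (hIn : S_EIn) (hGq : S_EGq) : S_LOC' := by
  obtain ⟨ε, hε, h0⟩ := hIn
  refine ⟨ε, hε, ?_⟩
  intro m M
  obtain ⟨Cg, hCg0, hg⟩ := hGq m M
  choose Cf pf hC1 hE using fun i => h0 i M
  obtain ⟨K, hK⟩ : ∃ K, K = 1 + 2 * Cg := ⟨_, rfl⟩
  have hK1 : 1 ≤ K := by linarith
  obtain ⟨C, p, hC, hsum⟩ := sumC (m + 1) (4 * K) (by linarith) Cf pf hC1
  refine ⟨C, p, hC, ?_⟩
  intro a ha hb h hh s hs hs1 Ω' Ω ho' ho hsub hinn hball e he0 he1 w f β b hw hf hβ hb' heq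
  have hball' : Ω' ⊆ Metric.ball 0 1 := hsub.trans hball
  have hanti : Antitone h := antitone_nat_of_succ_le hh.anti
  have hsm : SmS a := ha.smS
  obtain ⟨W, hW⟩ : ∃ W, W = ∫ x in Ω, (‖w 0 x‖ ^ 2 + ‖w 1 x‖ ^ 2) := ⟨_, rfl⟩
  obtain ⟨Z, hZ⟩ : ∃ Z, Z = NN2 h m Ω f + NN h m Ω β + NN h m Ω b + Real.sqrt W := ⟨_, rfl⟩
  have hW0 : 0 ≤ W := by
    rw [hW]
    exact setInt_nonneg (fun x => by positivity) Ω
  rw [← hW, ← hZ]
  have hZ0 : 0 ≤ Z := by
    rw [hZ]
    have n1 := NN_nonneg' hh m Ω (f 0)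
    have n2 := NN_nonneg' hh m Ω (f 1)
    have n3 := NN_nonneg' hh m Ω β
    have n4 := NN_nonneg' hh m Ω b
    have n5 := Real.sqrt_nonneg W
    unfold NN2
    linarith
  -- the main estimate for one function and one order
  have key : ∀ i, i ≤ m → ∀ g : E5 → ℂ, Sm g →
      (∀ x ∈ Metric.ball (0 : E5) 1, sq i g x ≤
        K * (gq a i (w 0) x + gq a i (w 1) x + sqs i (w 0) x + sqs i (w 1) x)) →
      h i * Real.sqrt (∫ x in Ω', sq i g x) ≤ K * (Cf i / s) ^ pf i * Z := by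
    intro i hi g hgS hgb
    obtain ⟨A, hA⟩ : ∃ A, A = (Cf i / s) ^ pf i := ⟨_, rfl⟩
    have hA1 : 1 ≤ A := by
      rw [hA]
      refine one_le_pow₀ ?_
      rw [le_div_iff₀ hs]
      have := hC1 i
      linarith
    have cQ : ∀ l, Continuous fun x => gq a l (w 0) x + gq a l (w 1) x + sq l (w 0) x
        + sq l (w 1) x := fun l =>
      (((gq_cont hsm (hw 0) l).add (gq_cont hsm (hw 1) l)).add (sq_cont (hw 0) l)).add
        (sq_cont (hw 1) l)
    have cS : Continuous fun x => gq a i (w 0) x + gq a i (w 1) x + sqs i (w 0) x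
        + sqs i (w 1) x :=
      (((gq_cont hsm (hw 0) i).add (gq_cont hsm (hw 1) i)).add (sqs_cont (hw 0) i)).add
        (sqs_cont (hw 1) i)
    have s1 : ∫ x in Ω', sq i g x ≤ K * ∫ x in Ω', (gq a i (w 0) x + gq a i (w 1) x
        + sqs i (w 0) x + sqs i (w 1) x) := by
      rw [← integral_const_mul]
      refine setIntegral_mono_on (intOn_of_cont (sq_cont hgS i) hball')
        (intOn_of_cont (continuous_const.mul cS) hball') ho'.measurableSet ?_
      intro x hx
      exact hgb x (hball' hx)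
    have s2 : ∫ x in Ω', (gq a i (w 0) x + gq a i (w 1) x + sqs i (w 0) x + sqs i (w 1) x)
        ≤ ∑ l ∈ Finset.range (i + 1), Qo a l Ω' w := by
      have e1 : ∑ l ∈ Finset.range (i + 1), Qo a l Ω' w = ∫ x in Ω',
          ∑ l ∈ Finset.range (i + 1), (gq a l (w 0) x + gq a l (w 1) x + sq l (w 0) x
            + sq l (w 1) x) := by
        rw [integral_finsetSum _ fun l _ => intOn_of_cont (cQ l) hball']
        rfl
      rw [e1]
      refine setIntegral_mono_on (intOn_of_cont cS hball')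
        (intOn_of_cont (continuous_finsetSum _ fun l _ => cQ l) hball') ho'.measurableSet ?_
      intro x _
      have e2 : ∑ l ∈ Finset.range (i + 1), (gq a l (w 0) x + gq a l (w 1) x + sq l (w 0) x
            + sq l (w 1) x) = (∑ l ∈ Finset.range (i + 1), gq a l (w 0) x)
            + (∑ l ∈ Finset.range (i + 1), gq a l (w 1) x) + sqs i (w 0) x + sqs i (w 1) x := by
        rw [Finset.sum_add_distrib, Finset.sum_add_distrib, Finset.sum_add_distrib]
        rfl
      have e3 : gq a i (w 0) x ≤ ∑ l ∈ Finset.range (i + 1), gq a l (w 0) x :=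
        Finset.single_le_sum (f := fun l => gq a l (w 0) x) (fun l _ => gq_nonneg a l (w 0) x)
          (Finset.mem_range.2 (Nat.lt_succ_self i))
      have e4 : gq a i (w 1) x ≤ ∑ l ∈ Finset.range (i + 1), gq a l (w 1) x :=
        Finset.single_le_sum (f := fun l => gq a l (w 1) x) (fun l _ => gq_nonneg a l (w 1) x)
          (Finset.mem_range.2 (Nat.lt_succ_self i))
      show gq a i (w 0) x + gq a i (w 1) x + sqs i (w 0) x + sqs i (w 1) x ≤
        ∑ l ∈ Finset.range (i + 1), (gq a l (w 0) x + gq a l (w 1) x + sq l (w 0) x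
            + sq l (w 1) x)
      rw [e2]
      linarith
    have s3 := hE i a ha (hb.mono (by omega)) s hs hs1 Ω' Ω ho' ho hsub hinn hball e he0 he1
      w f β b hw hf hβ hb' heq
    rw [← hA, ← hW] at s3
    have hD : Dat i Ω f β b = (∫ x in Ω, sqs i (f 0) x) + (∫ x in Ω, sqs i (f 1) x)
        + (∫ x in Ω, sqs i β x) + ∫ x in Ω, sqs i b x := by
      have j0 := intOn_of_cont (sqs_cont (hf 0) i) hball
      have j1 := intOn_of_cont (sqs_cont (hf 1) i) hball
      have j2 := intOn_of_cont (sqs_cont hβ i) hball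
      have j3 := intOn_of_cont (sqs_cont hb' i) hball
      have j01 : IntegrableOn (fun x => sqs i (f 0) x + sqs i (f 1) x) Ω volume := j0.add j1
      have j012 : IntegrableOn (fun x => sqs i (f 0) x + sqs i (f 1) x + sqs i β x) Ω volume :=
        j01.add j2
      unfold Dat
      rw [integral_add j012 j3, integral_add j01 j2, integral_add j0 j1]
    have q0 := setInt_nonneg (fun x => sqs_nonneg i (f 0) x) Ω
    have q1 := setInt_nonneg (fun x => sqs_nonneg i (f 1) x) Ω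
    have q2 := setInt_nonneg (fun x => sqs_nonneg i β x) Ω
    have q3 := setInt_nonneg (fun x => sqs_nonneg i b x) Ω
    have hKA : 1 ≤ K * A := one_le_mul_of_one_le_of_one_le hK1 hA1
    have s4 : ∫ x in Ω', sq i g x ≤ (K * A) ^ 2 * (Dat i Ω f β b + W) := by
      have hDW : 0 ≤ Dat i Ω f β b + W := by
        rw [hD]
        linarith
      calc ∫ x in Ω', sq i g x ≤ K * (A * (Dat i Ω f β b + W)) :=
            s1.trans (mul_le_mul_of_nonneg_left (s2.trans s3) (by linarith))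
        _ = (K * A) * (Dat i Ω f β b + W) := by ring
        _ ≤ (K * A) ^ 2 * (Dat i Ω f β b + W) := by
            refine mul_le_mul_of_nonneg_right ?_ hDW
            nlinarith
    have s5 : Real.sqrt (∫ x in Ω', sq i g x) ≤ K * A * (Real.sqrt (∫ x in Ω, sqs i (f 0) x)
        + Real.sqrt (∫ x in Ω, sqs i (f 1) x) + Real.sqrt (∫ x in Ω, sqs i β x)
        + Real.sqrt (∫ x in Ω, sqs i b x) + Real.sqrt W) := by
      refine (Real.sqrt_le_sqrt s4).trans ?_
      rw [Real.sqrt_mul (by positivity), Real.sqrt_sq (by linarith)]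
      refine mul_le_mul_of_nonneg_left ?_ (by linarith)
      rw [hD]
      have t1 := sqrt_add2 ((∫ x in Ω, sqs i (f 0) x)
        + (∫ x in Ω, sqs i (f 1) x) + (∫ x in Ω, sqs i β x) + ∫ x in Ω, sqs i b x) W
        (by linarith) hW0
      have t2 := sqrt_add2 ((∫ x in Ω, sqs i (f 0) x)
        + (∫ x in Ω, sqs i (f 1) x) + (∫ x in Ω, sqs i β x)) (∫ x in Ω, sqs i b x)
        (by linarith) q3
      have t3 := sqrt_add2 ((∫ x in Ω, sqs i (f 0) x)
        + (∫ x in Ω, sqs i (f 1) x)) (∫ x in Ω, sqs i β x) (by linarith) q2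
      have t4 := sqrt_add2 (∫ x in Ω, sqs i (f 0) x)
        (∫ x in Ω, sqs i (f 1) x) q0 q1
      linarith
    have r0 := dataT hh hi hball (hf 0)
    have r1 := dataT hh hi hball (hf 1)
    have r2 := dataT hh hi hball hβ
    have r3 := dataT hh hi hball hb'
    have r4 : h i * Real.sqrt W ≤ Real.sqrt W := by
      have : h i ≤ 1 := by
        rw [← hh.one]
        exact hanti (Nat.zero_le i)
      exact mul_le_of_le_one_left (Real.sqrt_nonneg W) this
    rw [← hA]
    calc h i * Real.sqrt (∫ x in Ω', sq i g x)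
        ≤ h i * (K * A * (Real.sqrt (∫ x in Ω, sqs i (f 0) x)
        + Real.sqrt (∫ x in Ω, sqs i (f 1) x) + Real.sqrt (∫ x in Ω, sqs i β x)
        + Real.sqrt (∫ x in Ω, sqs i b x) + Real.sqrt W)) :=
          mul_le_mul_of_nonneg_left s5 (hh.pos i).le
      _ = K * A * (h i * Real.sqrt (∫ x in Ω, sqs i (f 0) x)
        + h i * Real.sqrt (∫ x in Ω, sqs i (f 1) x) + h i * Real.sqrt (∫ x in Ω, sqs i β x)
        + h i * Real.sqrt (∫ x in Ω, sqs i b x) + h i * Real.sqrt W) := by ring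
      _ ≤ K * A * Z := by
          refine mul_le_mul_of_nonneg_left ?_ (by linarith)
          rw [hZ]
          unfold NN2
          linarith
  -- the four functions
  have g0 : ∀ i, ∀ x ∈ Metric.ball (0 : E5) 1, sq i (w 0) x ≤
      K * (gq a i (w 0) x + gq a i (w 1) x + sqs i (w 0) x + sqs i (w 1) x) := by
    intro i x _
    have e1 := sq_le_sqs (le_refl i) (w 0) x
    have e2 := gq_nonneg a i (w 0) x
    have e3 := gq_nonneg a i (w 1) x
    have e4 := sqs_nonneg i (w 0) x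
    have e5 := sqs_nonneg i (w 1) x
    have e6 : gq a i (w 0) x + gq a i (w 1) x + sqs i (w 0) x + sqs i (w 1) x ≤
      K * (gq a i (w 0) x + gq a i (w 1) x + sqs i (w 0) x + sqs i (w 1) x) :=
      le_mul_of_one_le_left (by linarith) hK1
    linarith
  have g1 : ∀ i, ∀ x ∈ Metric.ball (0 : E5) 1, sq i (w 1) x ≤
      K * (gq a i (w 0) x + gq a i (w 1) x + sqs i (w 0) x + sqs i (w 1) x) := by
    intro i x _
    have e1 := sq_le_sqs (le_refl i) (w 1) x
    have e2 := gq_nonneg a i (w 0) x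
    have e3 := gq_nonneg a i (w 1) x
    have e4 := sqs_nonneg i (w 0) x
    have e5 := sqs_nonneg i (w 1) x
    have e6 : gq a i (w 0) x + gq a i (w 1) x + sqs i (w 0) x + sqs i (w 1) x ≤
      K * (gq a i (w 0) x + gq a i (w 1) x + sqs i (w 0) x + sqs i (w 1) x) :=
      le_mul_of_one_le_left (by linarith) hK1
    linarith
  have g2 : ∀ i ≤ m, ∀ x ∈ Metric.ball (0 : E5) 1, sq i (D0s a w) x ≤
      K * (gq a i (w 0) x + gq a i (w 1) x + sqs i (w 0) x + sqs i (w 1) x) := by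
    intro i hi x hx
    have e1 := sq_add2 i ((hw 0).Ls hsm 0) ((hw 1).Ls hsm 1) x
    have e2 := (hg a hsm (hb.mono (by omega)) (w 0) (hw 0) i hi x hx 0).2.2
    have e3 := (hg a hsm (hb.mono (by omega)) (w 1) (hw 1) i hi x hx 1).2.2
    have e4 : sq i (D0s a w) x = sq i (fun y => Ls a 0 (w 0) y + Ls a 1 (w 1) y) x := rfl
    have f2 := gq_nonneg a i (w 0) x
    have f3 := gq_nonneg a i (w 1) x
    have f4 := sqs_nonneg i (w 0) x
    have f5 := sqs_nonneg i (w 1) x
    rw [e4, hK]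
    nlinarith
  have g3 : ∀ i ≤ m, ∀ x ∈ Metric.ball (0 : E5) 1, sq i (D1 a w) x ≤
      K * (gq a i (w 0) x + gq a i (w 1) x + sqs i (w 0) x + sqs i (w 1) x) := by
    intro i hi x hx
    have e1 := sq_sub2 i ((hw 1).L hsm 0) ((hw 0).L hsm 1) x
    have e2 := (hg a hsm (hb.mono (by omega)) (w 1) (hw 1) i hi x hx 0).1
    have e3 := (hg a hsm (hb.mono (by omega)) (w 0) (hw 0) i hi x hx 1).1
    have e4 : sq i (D1 a w) x = sq i (fun y => L a 0 (w 1) y - L a 1 (w 0) y) x := rfl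
    have f2 := gq_nonneg a i (w 0) x
    have f3 := gq_nonneg a i (w 1) x
    have f4 := sqs_nonneg i (w 0) x
    have f5 := sqs_nonneg i (w 1) x
    rw [e4, hK]
    nlinarith
  have hfin : NN2 h m Ω' w + NN h m Ω' (D0s a w) + NN h m Ω' (D1 a w)
      ≤ ∑ i ∈ Finset.range (m + 1), 4 * K * (Cf i / s) ^ pf i * Z := by
    unfold NN2 NN
    rw [← Finset.sum_add_distrib, ← Finset.sum_add_distrib, ← Finset.sum_add_distrib]
    refine Finset.sum_le_sum fun i hi => ?_
    have hi' : i ≤ m := by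
      have := Finset.mem_range.1 hi
      omega
    have k0 := key i hi' (w 0) (hw 0) (g0 i)
    have k1 := key i hi' (w 1) (hw 1) (g1 i)
    have k2 := key i hi' (D0s a w) (Sm.D0s hsm hw) (g2 i hi')
    have k3 := key i hi' (D1 a w) (Sm.D1 hsm hw) (g3 i hi')
    linarith
  refine hfin.trans ?_
  rw [← Finset.sum_mul]
  exact mul_le_mul_of_nonneg_right (hsum s hs hs1) hZ0

end Pool.Agent.CR5
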