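import Pool.Agent.Lib.CR5.E.Spec

/-!
# CR5, E/EPair: pairing of the right side with `θ² u`
-/

set_option autoImplicit false

open MeasureTheory Set Filter Topology
open scoped ENNReal ComplexConjugate

noncomputable section

namespace Pool.Agent.CR5

namespace EPairAux

/-- The adjoint of `Ls j`. -/
theorem ibp_Ls {a : Str} (ha : SmS a) (j : Fin 2) {f g : E5 → ℂ} (hf : Sm f) (hg : Tst g) :
    ∫ x, Ls a j f x * conj (g x) = ∫ x, f x * conj (L a j g x) := by
  have h := ibp_L' ha j hg hf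
  have h2 := congrArg conj h
  rw [← integral_conj, ← integral_conj] at h2
  have e1 : ∀ x, conj (L a j g x * conj (f x)) = f x * conj (L a j g x) := by
    intro x
    rw [map_mul, Complex.conj_conj, mul_comm]
  have e2 : ∀ x, conj (g x * conj (Ls a j f x)) = Ls a j f x * conj (g x) := by
    intro x
    rw [map_mul, Complex.conj_conj, mul_comm]
  simp only [e1, e2] at h2
  exact h2.symm

/-- The pairing with `D1s`. -/
theorem pairD1s {a : Str} (ha : SmS a) {v : E5 → ℂ} (hv : Sm v) {φ : F2} (hφ : ∀ j, Tst (φ j)) :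
    ∫ x, ∑ j, D1s a v j x * conj (φ j x) = ∫ x, v x * conj (D1 a φ x) := by
  have e1 : ∀ x, ∑ j, D1s a v j x * conj (φ j x)
      = Ls a 0 v x * conj (φ 1 x) - Ls a 1 v x * conj (φ 0 x) := by
    intro x
    rw [Fin.sum_univ_two]
    show (if (0 : Fin 2) = 0 then -Ls a 1 v x else Ls a 0 v x) * conj (φ 0 x) +
      (if (1 : Fin 2) = 0 then -Ls a 1 v x else Ls a 0 v x) * conj (φ 1 x) = _
    rw [if_pos rfl, if_neg (by decide)]
    ring
  have e2 : ∀ x, v x * conj (D1 a φ x)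
      = v x * conj (L a 0 (φ 1) x) - v x * conj (L a 1 (φ 0) x) := by
    intro x
    show v x * conj (L a 0 (φ 1) x - L a 1 (φ 0) x) = _
    rw [map_sub]
    ring
  simp only [e1, e2]
  rw [integral_sub (Tst.mul_left (hv.Ls ha 0) (hφ 1).conj).integrable
      (Tst.mul_left (hv.Ls ha 1) (hφ 0).conj).integrable,
    integral_sub (Tst.mul_left hv ((hφ 1).L ha 0).conj).integrable
      (Tst.mul_left hv ((hφ 0).L ha 1).conj).integrable,
    ibp_Ls ha 0 hv (hφ 1), ibp_Ls ha 1 hv (hφ 0)]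

/-- The pairing with `D0`. -/
theorem pairD0 {a : Str} (ha : SmS a) {b : E5 → ℂ} (hb : Sm b) {φ : F2} (hφ : ∀ j, Tst (φ j)) :
    ∫ x, ∑ j, D0 a b j x * conj (φ j x) = ∫ x, b x * conj (D0s a φ x) := by
  have e1 : ∀ x, ∑ j, D0 a b j x * conj (φ j x)
      = L a 0 b x * conj (φ 0 x) + L a 1 b x * conj (φ 1 x) := by
    intro x
    rw [Fin.sum_univ_two]
    rfl
  have e2 : ∀ x, b x * conj (D0s a φ x)
      = b x * conj (Ls a 0 (φ 0) x) + b x * conj (Ls a 1 (φ 1) x) := by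
    intro x
    show b x * conj (Ls a 0 (φ 0) x + Ls a 1 (φ 1) x) = _
    rw [map_add]
    ring
  simp only [e1, e2]
  rw [integral_add (Tst.mul_left (hb.L ha 0) (hφ 0).conj).integrable
      (Tst.mul_left (hb.L ha 1) (hφ 1).conj).integrable,
    integral_add (Tst.mul_left hb ((hφ 0).Ls ha 0).conj).integrable
      (Tst.mul_left hb ((hφ 1).Ls ha 1).conj).integrable,
    ibp_L ha 0 hb (hφ 0), ibp_L ha 1 hb (hφ 1)]

/-- Real part of a pairing. -/
theorem re_le {v g : E5 → ℂ} :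
    (∫ x, v x * conj (g x)).re ≤ ∫ x, ‖v x‖ * ‖g x‖ := by
  refine (Complex.re_le_norm _).trans ((norm_integral_le_integral_norm _).trans (le_of_eq ?_))
  refine integral_congr_ae (Eventually.of_forall fun x => ?_)
  show ‖v x * conj (g x)‖ = ‖v x‖ * ‖g x‖
  rw [norm_mul, RCLike.norm_conj]

/-- Derivative of the square. -/
theorem pd_sq {θ u : E5 → ℂ} (hθ : Sm θ) (hu : Sm u) (i : Fin 5) (x : E5) :
    pd i (fun y => θ y ^ 2 * u y) x = θ x ^ 2 * pd i u x + 2 * θ x * pd i θ x * u x := by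
  have e : (fun y => θ y ^ 2 * u y) = fun y => (θ y * θ y) * u y := by
    funext y
    ring
  rw [e, pd_mul (hθ.mul hθ) hu, pd_mul hθ hθ]
  ring

/-- Integrability of the right side. -/
theorem int_pd {θ u : E5 → ℂ} (hθ : Tst θ) (hu : Sm u) :
    Integrable (fun x => ‖pd 4 θ x‖ ^ 2 * ‖u x‖ ^ 2) volume := by
  have h := (Tst.mul_right (hθ.pd 4) hu)
  have h2 : Tst fun x => (pd 4 θ x * u x) * conj (pd 4 θ x * u x) :=
    Tst.mul_left h.sm h.conj
  have h3 := h2.integrable.norm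
  refine h3.congr (Eventually.of_forall fun x => ?_)
  show ‖(pd 4 θ x * u x) * conj (pd 4 θ x * u x)‖ = ‖pd 4 θ x‖ ^ 2 * ‖u x‖ ^ 2
  rw [norm_mul, RCLike.norm_conj, norm_mul]
  ring

theorem pt1 {θ : ℂ} (hr : conj θ = θ) (u : ℂ) : 0 ≤ (u * conj (θ ^ 2 * u)).re := by
  obtain ⟨r, rfl⟩ := Complex.conj_eq_iff_real.1 hr
  have e : u * conj ((r : ℂ) ^ 2 * u) = ((r ^ 2 * Complex.normSq u : ℝ) : ℂ) := by
    rw [map_mul, map_pow, Complex.conj_ofReal]
    push_cast
    rw [← Complex.mul_conj]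
    ring
  rw [e, Complex.ofReal_re]
  exact mul_nonneg (sq_nonneg r) (Complex.normSq_nonneg u)

theorem pt2 {θ : ℂ} (hr : conj θ = θ) (u v t : ℂ) :
    -(v * conj (θ ^ 2 * v + 2 * θ * t * u)).re ≤ ‖t‖ ^ 2 * ‖u‖ ^ 2 := by
  obtain ⟨r, rfl⟩ := Complex.conj_eq_iff_real.1 hr
  have h := Complex.normSq_nonneg ((r : ℂ) * v + t * u)
  rw [Complex.normSq_add] at h
  have e1 : v * conj ((r : ℂ) ^ 2 * v + 2 * (r : ℂ) * t * u)
      = ((r ^ 2 * Complex.normSq v : ℝ) : ℂ) + (2 : ℝ) * ((r : ℂ) * v * conj (t * u)) := by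
    rw [map_add, map_mul, map_mul, map_mul, map_mul, map_mul, map_pow, Complex.conj_ofReal]
    push_cast
    rw [← Complex.mul_conj v]
    simp only [map_ofNat]
    ring
  have e2 : Complex.normSq ((r : ℂ) * v) = r ^ 2 * Complex.normSq v := by
    rw [Complex.normSq_mul, Complex.normSq_ofReal]
    ring
  have e3 : Complex.normSq (t * u) = ‖t‖ ^ 2 * ‖u‖ ^ 2 := by
    rw [Complex.normSq_mul, Complex.normSq_eq_norm_sq, Complex.normSq_eq_norm_sq]
  rw [e1, Complex.add_re, Complex.ofReal_re, Complex.re_ofReal_mul]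
  rw [e2, e3] at h
  linarith

/-- The regularising term. -/
theorem reg {θ u : E5 → ℂ} (hθ : Tst θ) (hr : ∀ x, conj (θ x) = θ x) (hu : Sm u) :
    -(∫ x, (u x - pd 4 (pd 4 u) x) * conj (θ x ^ 2 * u x)).re
      ≤ ∫ x, ‖pd 4 θ x‖ ^ 2 * ‖u x‖ ^ 2 := by
  have hφ : Tst fun x => θ x ^ 2 * u x := by
    have e : (fun y => θ y ^ 2 * u y) = fun y => (θ y * θ y) * u y := by
      funext y
      ring
    rw [e]
    exact Tst.mul_right (Tst.mul_left hθ.sm hθ) hu
  have h1 : ∫ x, (u x - pd 4 (pd 4 u) x) * conj (θ x ^ 2 * u x)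
      = (∫ x, u x * conj (θ x ^ 2 * u x)) + ∫ x, pd 4 u x * conj (pd 4 (fun y => θ y ^ 2 * u y) x) := by
    have e1 : ∀ x, (u x - pd 4 (pd 4 u) x) * conj (θ x ^ 2 * u x)
        = u x * conj (θ x ^ 2 * u x) - pd 4 (pd 4 u) x * conj (θ x ^ 2 * u x) := by
      intro x
      ring
    simp only [e1]
    rw [integral_sub (Tst.mul_left hu hφ.conj).integrable
      (Tst.mul_left ((hu.pd 4).pd 4) hφ.conj).integrable]
    have h2 := ibp_pd (hu.pd 4) hφ.conj 4
    have h3 : ∀ x, pd 4 (fun y => conj (θ y ^ 2 * u y)) x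
        = conj (pd 4 (fun y => θ y ^ 2 * u y) x) := fun x => pd_conj hφ.sm 4 x
    simp only [h3] at h2
    rw [h2]
    ring
  have hφ4 : Tst (pd 4 fun y => θ y ^ 2 * u y) := hφ.pd 4
  have r1 : (∫ x, u x * conj (θ x ^ 2 * u x)).re = ∫ x, (u x * conj (θ x ^ 2 * u x)).re :=
    (integral_re (Tst.mul_left hu hφ.conj).integrable).symm
  have r2 : (∫ x, pd 4 u x * conj (pd 4 (fun y => θ y ^ 2 * u y) x)).re
      = ∫ x, (pd 4 u x * conj (pd 4 (fun y => θ y ^ 2 * u y) x)).re :=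
    (integral_re (Tst.mul_left (hu.pd 4) hφ4.conj).integrable).symm
  have p1 : 0 ≤ ∫ x, (u x * conj (θ x ^ 2 * u x)).re :=
    integral_nonneg fun x => pt1 (hr x) (u x)
  have p2 : -(∫ x, (pd 4 u x * conj (pd 4 (fun y => θ y ^ 2 * u y) x)).re)
      ≤ ∫ x, ‖pd 4 θ x‖ ^ 2 * ‖u x‖ ^ 2 := by
    rw [← integral_neg]
    refine integral_mono (Tst.mul_left (hu.pd 4) hφ4.conj).integrable.re.neg (int_pd hθ hu) ?_
    intro x
    have h := pt2 (hr x) (u x) (pd 4 u x) (pd 4 θ x)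
    rw [← pd_sq hθ.sm hu 4 x] at h
    exact h
  rw [h1, Complex.add_re, r1, r2]
  linarith

/-- Four terms. -/
theorem re4 (A B C D : ℂ) (e : ℝ) :
    (A + B + C - (e : ℂ) * D).re = A.re + B.re + C.re - e * D.re := by
  simp

end EPairAux

open EPairAux in
theorem pEPair : S_EPair := by
  intro a ha e he0 he1 Ω _ u R β b hu hR hβ hb heq θ hθ hr hsub
  have hφ : ∀ j, Tst ((fun j y => θ y ^ 2 * u j y : F2) j) := by
    intro j
    have e1 : ((fun j y => θ y ^ 2 * u j y : F2) j) = fun y => (θ y * θ y) * u j y := by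
      funext y
      show θ y ^ 2 * u j y = (θ y * θ y) * u j y
      ring
    rw [e1]
    exact Tst.mul_right (Tst.mul_left hθ.sm hθ) (hu j)
  have hφ' : ∀ j, Tst fun x => θ x ^ 2 * u j x := hφ
  -- pointwise identity
  have hpt : ∀ x, ∑ j, Box a u j x * conj (θ x ^ 2 * u j x)
      = (∑ j, R j x * conj (θ x ^ 2 * u j x)) + (∑ j, D1s a β j x * conj (θ x ^ 2 * u j x))
        + (∑ j, D0 a b j x * conj (θ x ^ 2 * u j x))
        - (e : ℂ) * ∑ j, (u j x - pd 4 (pd 4 (u j)) x) * conj (θ x ^ 2 * u j x) := by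
    intro x
    rw [Finset.mul_sum, ← Finset.sum_add_distrib, ← Finset.sum_add_distrib,
      ← Finset.sum_sub_distrib]
    refine Finset.sum_congr rfl fun j _ => ?_
    by_cases hx : x ∈ Ω
    · have h1 := heq j x hx
      have h2 : Box a u j x = R j x + D1s a β j x + D0 a b j x
          - (e : ℂ) * (u j x - pd 4 (pd 4 (u j)) x) := by
        rw [← h1]
        show Box a u j x = (Box a u j x + (e : ℂ) * (u j x - pd 4 (pd 4 (u j)) x))
          - (e : ℂ) * (u j x - pd 4 (pd 4 (u j)) x)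
        ring
      rw [h2]
      ring
    · have h1 : θ x = 0 := by
        by_contra h0
        exact hx (hsub (subset_tsupport _ h0))
      rw [h1]
      simp
  have i1 : Integrable (fun x => ∑ j, R j x * conj (θ x ^ 2 * u j x)) volume :=
    (Tst.sum _ fun j _ => Tst.mul_left (hR j) (hφ' j).conj).integrable
  have i2 : Integrable (fun x => ∑ j, D1s a β j x * conj (θ x ^ 2 * u j x)) volume :=
    (Tst.sum _ fun j _ => Tst.mul_left (hβ.D1s ha j) (hφ' j).conj).integrable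
  have i3 : Integrable (fun x => ∑ j, D0 a b j x * conj (θ x ^ 2 * u j x)) volume :=
    (Tst.sum _ fun j _ => Tst.mul_left (hb.D0 ha j) (hφ' j).conj).integrable
  have i4' : ∀ j, Integrable (fun x => (u j x - pd 4 (pd 4 (u j)) x)
      * conj (θ x ^ 2 * u j x)) volume := fun j =>
    (Tst.mul_left ((hu j).sub (((hu j).pd 4).pd 4)) (hφ' j).conj).integrable
  have i4 : Integrable (fun x => ∑ j, (u j x - pd 4 (pd 4 (u j)) x)
      * conj (θ x ^ 2 * u j x)) volume := integrable_finsetSum _ fun j _ => i4' j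
  have hint : ∫ x, ∑ j, Box a u j x * conj (θ x ^ 2 * u j x)
      = (∫ x, ∑ j, R j x * conj (θ x ^ 2 * u j x))
        + (∫ x, ∑ j, D1s a β j x * conj (θ x ^ 2 * u j x))
        + (∫ x, ∑ j, D0 a b j x * conj (θ x ^ 2 * u j x))
        - (e : ℂ) * ∫ x, ∑ j, (u j x - pd 4 (pd 4 (u j)) x) * conj (θ x ^ 2 * u j x) := by
    simp only [hpt]
    have i12 : Integrable (fun x => (∑ j, R j x * conj (θ x ^ 2 * u j x))
        + (∑ j, D1s a β j x * conj (θ x ^ 2 * u j x))) volume := i1.add i2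
    have i123 : Integrable (fun x => (∑ j, R j x * conj (θ x ^ 2 * u j x))
        + (∑ j, D1s a β j x * conj (θ x ^ 2 * u j x))
        + (∑ j, D0 a b j x * conj (θ x ^ 2 * u j x))) volume := i12.add i3
    rw [integral_sub i123 (i4.const_mul _), integral_add i12 i3, integral_add i1 i2,
      integral_const_mul]
  rw [hint, re4]
  -- the first term
  have t1 : (∫ x, ∑ j, R j x * conj (θ x ^ 2 * u j x)).re
      ≤ ∫ x, ‖θ x‖ ^ 2 * ∑ j, ‖R j x‖ * ‖u j x‖ := by
    refine (Complex.re_le_norm _).trans ((norm_integral_le_integral_norm _).trans ?_)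
    refine integral_mono i1.norm ?_ ?_
    · have h : ∀ j, Integrable (fun x => ‖R j x * conj (θ x ^ 2 * u j x)‖) volume := fun j =>
        (Tst.mul_left (hR j) (hφ' j).conj).integrable.norm
      refine (integrable_finsetSum Finset.univ fun j _ => h j).congr
        (Eventually.of_forall fun x => ?_)
      show ∑ j, ‖R j x * conj (θ x ^ 2 * u j x)‖ = ‖θ x‖ ^ 2 * ∑ j, ‖R j x‖ * ‖u j x‖
      rw [Finset.mul_sum]
      refine Finset.sum_congr rfl fun j _ => ?_
      rw [norm_mul, RCLike.norm_conj, norm_mul, norm_pow]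
      ring
    · intro x
      show ‖∑ j, R j x * conj (θ x ^ 2 * u j x)‖ ≤ ‖θ x‖ ^ 2 * ∑ j, ‖R j x‖ * ‖u j x‖
      refine (norm_sum_le _ _).trans (le_of_eq ?_)
      rw [Finset.mul_sum]
      refine Finset.sum_congr rfl fun j _ => ?_
      rw [norm_mul, RCLike.norm_conj, norm_mul, norm_pow]
      ring
  have t2 : (∫ x, ∑ j, D1s a β j x * conj (θ x ^ 2 * u j x)).re
      ≤ ∫ x, ‖β x‖ * ‖D1 a (fun j y => θ y ^ 2 * u j y) x‖ := by
    have h := pairD1s ha hβ hφ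
    rw [h]
    exact re_le
  have t3 : (∫ x, ∑ j, D0 a b j x * conj (θ x ^ 2 * u j x)).re
      ≤ ∫ x, ‖b x‖ * ‖D0s a (fun j y => θ y ^ 2 * u j y) x‖ := by
    have h := pairD0 ha hb hφ
    rw [h]
    exact re_le
  have t4 : -(∫ x, ∑ j, (u j x - pd 4 (pd 4 (u j)) x) * conj (θ x ^ 2 * u j x)).re
      ≤ ∫ x, ‖pd 4 θ x‖ ^ 2 * ∑ j, ‖u j x‖ ^ 2 := by
    rw [integral_finsetSum _ fun j _ => i4' j, Complex.re_sum, ← Finset.sum_neg_distrib]
    have e1 : ∫ x, ‖pd 4 θ x‖ ^ 2 * ∑ j, ‖u j x‖ ^ 2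
        = ∑ j, ∫ x, ‖pd 4 θ x‖ ^ 2 * ‖u j x‖ ^ 2 := by
      rw [← integral_finsetSum _ fun j _ => int_pd hθ (hu j)]
      refine integral_congr_ae (Eventually.of_forall fun x => ?_)
      show ‖pd 4 θ x‖ ^ 2 * ∑ j, ‖u j x‖ ^ 2 = ∑ j, ‖pd 4 θ x‖ ^ 2 * ‖u j x‖ ^ 2
      rw [Finset.mul_sum]
    rw [e1]
    exact Finset.sum_le_sum fun j _ => reg hθ hr (hu j)
  have p4 : 0 ≤ ∫ x, ‖pd 4 θ x‖ ^ 2 * ∑ j, ‖u j x‖ ^ 2 :=
    integral_nonneg fun x => by positivity
  have t5 : -(e * (∫ x, ∑ j, (u j x - pd 4 (pd 4 (u j)) x) * conj (θ x ^ 2 * u j x)).re)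
      ≤ ∫ x, ‖pd 4 θ x‖ ^ 2 * ∑ j, ‖u j x‖ ^ 2 := by
    have h1 := mul_le_mul_of_nonneg_left t4 he0
    have h2 := mul_le_mul_of_nonneg_right he1 p4
    linarith
  linarith

end Pool.Agent.CR5
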