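import Pool.Agent.Lib.CR5.E.Spec

/-!
# CR5, block E: EPw, all derivatives from the horizontal gradient and the t-derivative
(helper77, after helper15's docstring)
-/

set_option autoImplicit false

open MeasureTheory Set Filter Topology
open scoped ENNReal ComplexConjugate

noncomputable section

namespace Pool.Agent.CR5

namespace EPwAux

theorem norm_zc_le (j : Fin 2) {x : E5} (hx : x ∈ Metric.ball (0 : E5) 1) : ‖zc j x‖ ≤ 1 := by
  have h1 : ‖x‖ < 1 := by simpa using hx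
  have h2 : ‖x‖ ^ 2 = x 0 ^ 2 + x 1 ^ 2 + x 2 ^ 2 + x 3 ^ 2 + x 4 ^ 2 := by
    rw [EuclideanSpace.norm_sq_eq]
    simp [Fin.sum_univ_five]
  have h3 : ‖x‖ ^ 2 ≤ 1 := by nlinarith [norm_nonneg x]
  have h4 : ∀ p q : ℝ, ‖(p : ℂ) + Complex.I * (q : ℂ)‖ ^ 2 = p ^ 2 + q ^ 2 := by
    intro p q
    rw [← Complex.normSq_eq_norm_sq, Complex.normSq_apply]
    simp
    ring
  have h5 : ‖zc j x‖ ^ 2 ≤ 1 := by
    unfold zc
    split_ifs
    · rw [h4]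
      nlinarith [sq_nonneg (x 2), sq_nonneg (x 3), sq_nonneg (x 4)]
    · rw [h4]
      nlinarith [sq_nonneg (x 0), sq_nonneg (x 1), sq_nonneg (x 4)]
  nlinarith [norm_nonneg (zc j x)]

theorem coef_le {a : Str} (h : Near a 0 (1 / 8)) (j : Fin 2) {x : E5}
    (hx : x ∈ Metric.ball (0 : E5) 1) :
    ‖a j 0 x‖ ≤ 1 / 8 ∧ ‖a j 1 x‖ ≤ 1 / 8 ∧ ‖a j 2 x‖ ≤ 9 / 8 := by
  have h1 : ∀ l, ‖a j l x - a0 j l x‖ ≤ 1 / 8 := by
    intro l
    have h2 := h.bd j l 0 le_rfl x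
    have h3 : ‖a j l x - a0 j l x‖ ^ 2 ≤ (1 / 8) ^ 2 := h2
    exact le_of_sq_le_sq h3 (by norm_num)
  refine ⟨?_, ?_, ?_⟩
  · have h2 := h1 0
    have h3 : a0 j 0 x = 0 := by simp [a0]
    rwa [h3, sub_zero] at h2
  · have h2 := h1 1
    have h3 : a0 j 1 x = 0 := by simp [a0]
    rwa [h3, sub_zero] at h2
  · have h2 := h1 2
    have h3 : ‖a0 j 2 x‖ ≤ 1 := by
      have h4 : a0 j 2 x = -(Complex.I * zc j x) := by simp [a0]
      rw [h4, norm_neg, norm_mul, Complex.norm_I, one_mul]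
      exact norm_zc_le j hx
    calc ‖a j 2 x‖ = ‖(a j 2 x - a0 j 2 x) + a0 j 2 x‖ := by rw [sub_add_cancel]
      _ ≤ ‖a j 2 x - a0 j 2 x‖ + ‖a0 j 2 x‖ := norm_add_le _ _
      _ ≤ 9 / 8 := by linarith

/-- the triangle inequality for one of the four fields -/
theorem tri {E L a b c p q r : ℂ} (h : L = E + (a * p + b * q + c * r)) (ha : ‖a‖ ≤ 1 / 8)
    (hb : ‖b‖ ≤ 1 / 8) (hc : ‖c‖ ≤ 9 / 8) :
    ‖E‖ ≤ ‖L‖ + 1 / 8 * (‖p‖ + ‖q‖) + 9 / 8 * ‖r‖ := by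
  have h1 : E = L - (a * p + b * q + c * r) := by rw [h]; ring
  have h2 : ‖a * p + b * q + c * r‖ ≤ ‖a‖ * ‖p‖ + ‖b‖ * ‖q‖ + ‖c‖ * ‖r‖ := by
    calc ‖a * p + b * q + c * r‖ ≤ ‖a * p + b * q‖ + ‖c * r‖ := norm_add_le _ _
      _ ≤ ‖a * p‖ + ‖b * q‖ + ‖c * r‖ := by
          have := norm_add_le (a * p) (b * q)
          linarith
      _ = _ := by rw [norm_mul, norm_mul, norm_mul]
  have h3 : ‖E‖ ≤ ‖L‖ + ‖a * p + b * q + c * r‖ := by
    rw [h1]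
    exact norm_sub_le _ _
  have h4 := mul_le_mul_of_nonneg_right ha (norm_nonneg p)
  have h5 := mul_le_mul_of_nonneg_right hb (norm_nonneg q)
  have h6 := mul_le_mul_of_nonneg_right hc (norm_nonneg r)
  linarith

theorem norm_pq {p q : ℂ} :
    ‖p‖ ≤ ‖(p - Complex.I * q) / 2‖ + ‖(p + Complex.I * q) / 2‖ ∧
    ‖q‖ ≤ ‖(p - Complex.I * q) / 2‖ + ‖(p + Complex.I * q) / 2‖ := by
  constructor
  · have h1 : p = (p - Complex.I * q) / 2 + (p + Complex.I * q) / 2 := by ring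
    calc ‖p‖ = ‖(p - Complex.I * q) / 2 + (p + Complex.I * q) / 2‖ := by rw [← h1]
      _ ≤ _ := norm_add_le _ _
  · have h1 : Complex.I * q = (p + Complex.I * q) / 2 - (p - Complex.I * q) / 2 := by ring
    have h2 : ‖q‖ = ‖Complex.I * q‖ := by rw [norm_mul, Complex.norm_I, one_mul]
    rw [h2]
    calc ‖Complex.I * q‖ = ‖(p + Complex.I * q) / 2 - (p - Complex.I * q) / 2‖ := by rw [← h1]
      _ ≤ ‖(p + Complex.I * q) / 2‖ + ‖(p - Complex.I * q) / 2‖ := norm_sub_le _ _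
      _ = _ := add_comm _ _

end EPwAux

open EPwAux in
theorem pEPw : S_EPw := by
  refine ⟨1 / 8, by norm_num, 300, by norm_num, ?_⟩
  intro a ha f _ x hx
  have hL : ∀ j : Fin 2, L a j f x = db j.castSucc f x +
      (a j 0 x * dz 0 f x + a j 1 x * dz 1 f x + a j 2 x * dz 2 f x) := by
    intro j
    show db j.castSucc f x + ∑ l, a j l x * dz l f x = _
    rw [Fin.sum_univ_three]
  have hLb : ∀ j : Fin 2, Lb a j f x = dz j.castSucc f x +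
      (conj (a j 0 x) * db 0 f x + conj (a j 1 x) * db 1 f x + conj (a j 2 x) * db 2 f x) := by
    intro j
    show dz j.castSucc f x + ∑ l, conj (a j l x) * db l f x = _
    rw [Fin.sum_univ_three]
  have hc0 := coef_le ha 0 hx
  have hc1 := coef_le ha 1 hx
  have t1 := tri (hL 0) hc0.1 hc0.2.1 hc0.2.2
  have t2 := tri (hL 1) hc1.1 hc1.2.1 hc1.2.2
  have t3 := tri (hLb 0) (by rw [Complex.norm_conj]; exact hc0.1)
    (by rw [Complex.norm_conj]; exact hc0.2.1) (by rw [Complex.norm_conj]; exact hc0.2.2)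
  have t4 := tri (hLb 1) (by rw [Complex.norm_conj]; exact hc1.1)
    (by rw [Complex.norm_conj]; exact hc1.2.1) (by rw [Complex.norm_conj]; exact hc1.2.2)
  have e0 : (Fin.castSucc (0 : Fin 2) : Fin 3) = 0 := rfl
  have e1 : (Fin.castSucc (1 : Fin 2) : Fin 3) = 1 := rfl
  rw [e0] at t1 t3
  rw [e1] at t2 t4
  have p01 := norm_pq (p := pd 0 f x) (q := pd 1 f x)
  have p23 := norm_pq (p := pd 2 f x) (q := pd 3 f x)
  rw [← dz_zero, ← db_zero] at p01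
  rw [← dz_one, ← db_one] at p23
  rw [dz_two] at t1 t2
  rw [db_two] at t3 t4
  have hgr : gr a f x = ‖L a 0 f x‖ ^ 2 + ‖Lb a 0 f x‖ ^ 2 +
      (‖L a 1 f x‖ ^ 2 + ‖Lb a 1 f x‖ ^ 2) := by
    show ∑ j : Fin 2, (‖L a j f x‖ ^ 2 + ‖Lb a j f x‖ ^ 2) = _
    rw [Fin.sum_univ_two]
  rw [hgr, Fin.sum_univ_five]
  generalize ‖L a 0 f x‖ = l0 at *
  generalize ‖L a 1 f x‖ = l1 at *
  generalize ‖Lb a 0 f x‖ = m0 at *
  generalize ‖Lb a 1 f x‖ = m1 at *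
  have n0 := norm_nonneg (dz 0 f x)
  have n1 := norm_nonneg (dz 1 f x)
  have n2 := norm_nonneg (db 0 f x)
  have n3 := norm_nonneg (db 1 f x)
  have n4 := norm_nonneg (pd 4 f x)
  have n5 := norm_nonneg (pd 0 f x)
  have n6 := norm_nonneg (pd 1 f x)
  have n7 := norm_nonneg (pd 2 f x)
  have n8 := norm_nonneg (pd 3 f x)
  generalize ‖dz 0 f x‖ = d0 at *
  generalize ‖dz 1 f x‖ = d1 at *
  generalize ‖db 0 f x‖ = b0 at *
  generalize ‖db 1 f x‖ = b1 at *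
  generalize ‖pd 4 f x‖ = T at *
  generalize ‖pd 0 f x‖ = q0 at *
  generalize ‖pd 1 f x‖ = q1 at *
  generalize ‖pd 2 f x‖ = q2 at *
  generalize ‖pd 3 f x‖ = q3 at *
  have hP : b0 + b1 + d0 + d1 ≤ 4 / 3 * (l0 + l1 + m0 + m1) + 6 * T := by linarith
  have hP0 : 0 ≤ b0 + b1 + d0 + d1 := by linarith
  have hP2 : (b0 + b1 + d0 + d1) ^ 2 ≤ 2 * (16 / 9 * (l0 + l1 + m0 + m1) ^ 2 + 36 * T ^ 2) := by
    have h1 := pow_le_pow_left₀ hP0 hP 2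
    nlinarith [sq_nonneg (4 / 3 * (l0 + l1 + m0 + m1) - 6 * T)]
  have hS : (l0 + l1 + m0 + m1) ^ 2 ≤ 4 * (l0 ^ 2 + l1 ^ 2 + m0 ^ 2 + m1 ^ 2) := by
    nlinarith [sq_nonneg (l0 - l1), sq_nonneg (l0 - m0), sq_nonneg (l0 - m1),
      sq_nonneg (l1 - m0), sq_nonneg (l1 - m1), sq_nonneg (m0 - m1)]
  have k0 : q0 ^ 2 ≤ (b0 + b1 + d0 + d1) ^ 2 := pow_le_pow_left₀ n5 (by linarith [p01.1]) 2
  have k1 : q1 ^ 2 ≤ (b0 + b1 + d0 + d1) ^ 2 := pow_le_pow_left₀ n6 (by linarith [p01.2]) 2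
  have k2 : q2 ^ 2 ≤ (b0 + b1 + d0 + d1) ^ 2 := pow_le_pow_left₀ n7 (by linarith [p23.1]) 2
  have k3 : q3 ^ 2 ≤ (b0 + b1 + d0 + d1) ^ 2 := pow_le_pow_left₀ n8 (by linarith [p23.2]) 2
  nlinarith [sq_nonneg l0, sq_nonneg l1, sq_nonneg m0, sq_nonneg m1, sq_nonneg T]

end Pool.Agent.CR5
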