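import Pool.Agent.Lib.CR5.E.Spec

/-!
# CR5, block E, ESt: one step
-/

set_option autoImplicit false

open MeasureTheory Set Filter Topology
open scoped ENNReal ComplexConjugate

noncomputable section

namespace Pool.Agent.CR5

namespace EStAux

theorem alg0 {C B X Y D L₀ : ℝ} (hC : 1 ≤ C) (hB : 1 ≤ B) (hD : 0 ≤ D) (hL : 0 ≤ L₀)
    (h1 : X ≤ C * (D + L₀ + B ^ 2 * Y)) (h2 : Y ≤ L₀) : X + Y ≤ 3 * C * B ^ 4 * (D + L₀) := by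
  have hB2 : 1 ≤ B ^ 2 := one_le_pow₀ hB
  have hB4 : B ^ 2 ≤ B ^ 4 := pow_le_pow_right₀ hB (by norm_num)
  have h3 : B ^ 2 * Y ≤ B ^ 2 * L₀ := mul_le_mul_of_nonneg_left h2 (by positivity)
  have h4 : B ^ 2 * L₀ ≤ B ^ 4 * L₀ := mul_le_mul_of_nonneg_right hB4 hL
  have h5 : D + L₀ ≤ B ^ 4 * (D + L₀) := by
    have := mul_le_mul_of_nonneg_right (hB2.trans hB4) (add_nonneg hD hL)
    linarith
  have h6 : L₀ ≤ B ^ 4 * L₀ := by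
    have := mul_le_mul_of_nonneg_right (hB2.trans hB4) hL
    linarith
  have h7 : D + L₀ + B ^ 2 * Y ≤ 2 * (B ^ 4 * (D + L₀)) := by
    have : 0 ≤ B ^ 4 * D := by positivity
    nlinarith
  have h8 : X ≤ C * (2 * (B ^ 4 * (D + L₀))) :=
    h1.trans (mul_le_mul_of_nonneg_left h7 (by linarith))
  have h9 : B ^ 4 * (D + L₀) ≤ C * (B ^ 4 * (D + L₀)) := by
    have : 0 ≤ B ^ 4 * (D + L₀) := by positivity
    nlinarith
  have h10 : 0 ≤ B ^ 4 * D := by positivity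
  nlinarith

theorem alg1 {C₁ C₂ B X Y D L₀ G η : ℝ} (hC : 1 ≤ C₁) (hC2 : 1 ≤ C₂) (hB : 1 ≤ B) (hD : 0 ≤ D)
    (hL : 0 ≤ L₀) (hX : 0 ≤ X) (hη : η = 1 / (2 * C₁ * B ^ 2))
    (h1 : X ≤ C₁ * (D + L₀ + B ^ 2 * Y)) (h2 : Y ≤ η * X + C₂ * (1 / η + B ^ 2) * G)
    (hG : G ≤ L₀) :
    X + Y ≤ (4 * C₁ + 5 * C₁ * C₂ * (2 * C₁ + 1)) * B ^ 4 * (D + L₀) := by
  have hB2 : 1 ≤ B ^ 2 := one_le_pow₀ hB
  have hB4 : B ^ 2 ≤ B ^ 4 := pow_le_pow_right₀ hB (by norm_num)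
  have hC0 : 0 < C₁ := by linarith
  have hC20 : 0 < C₂ := by linarith
  have hB0 : 0 < B ^ 2 := by linarith
  have hpos : 0 < 2 * C₁ * B ^ 2 := by positivity
  have e1 : 1 / η = 2 * C₁ * B ^ 2 := by rw [hη, one_div_one_div]
  have e2 : C₁ * B ^ 2 * η = 1 / 2 := by
    rw [hη]
    field_simp
  have hη1 : η ≤ 1 := by
    rw [hη, div_le_one hpos]
    nlinarith
  have hη0 : 0 ≤ η := by rw [hη]; positivity
  have hK : 0 ≤ C₂ * (1 / η + B ^ 2) := by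
    rw [e1]
    positivity
  have h3 : C₂ * (1 / η + B ^ 2) * G ≤ C₂ * (2 * C₁ + 1) * B ^ 2 * L₀ := by
    have := mul_le_mul_of_nonneg_left hG hK
    refine this.trans (le_of_eq ?_)
    rw [e1]
    ring
  have h4 : Y ≤ η * X + C₂ * (2 * C₁ + 1) * B ^ 2 * L₀ := by linarith
  -- the bound for X
  have h5 : C₁ * B ^ 2 * Y ≤ X / 2 + C₁ * C₂ * (2 * C₁ + 1) * B ^ 4 * L₀ := by
    have h6 := mul_le_mul_of_nonneg_left h4 (by positivity : 0 ≤ C₁ * B ^ 2)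
    have e3 : C₁ * B ^ 2 * (η * X + C₂ * (2 * C₁ + 1) * B ^ 2 * L₀) =
        (C₁ * B ^ 2 * η) * X + C₁ * C₂ * (2 * C₁ + 1) * B ^ 4 * L₀ := by ring
    rw [e3, e2] at h6
    linarith
  have h7 : X ≤ 2 * C₁ * (D + L₀) + 2 * C₁ * C₂ * (2 * C₁ + 1) * B ^ 4 * L₀ := by
    have e4 : C₁ * (D + L₀ + B ^ 2 * Y) = C₁ * (D + L₀) + C₁ * B ^ 2 * Y := by ring
    rw [e4] at h1
    linarith
  have h8 : Y ≤ X + C₂ * (2 * C₁ + 1) * B ^ 2 * L₀ := by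
    have : η * X ≤ 1 * X := mul_le_mul_of_nonneg_right hη1 hX
    linarith
  -- compare with the final constant
  have hB41 : 1 ≤ B ^ 4 := hB2.trans hB4
  have q1 : D + L₀ ≤ B ^ 4 * (D + L₀) := by
    have := mul_le_mul_of_nonneg_right hB41 (add_nonneg hD hL)
    linarith
  have q2 : 4 * C₁ * (D + L₀) ≤ 4 * C₁ * (B ^ 4 * (D + L₀)) :=
    mul_le_mul_of_nonneg_left q1 (by positivity)
  have q3 : B ^ 4 * L₀ ≤ B ^ 4 * (D + L₀) :=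
    mul_le_mul_of_nonneg_left (by linarith) (by positivity)
  have q4 : 4 * C₁ * C₂ * (2 * C₁ + 1) * (B ^ 4 * L₀) ≤
      4 * C₁ * C₂ * (2 * C₁ + 1) * (B ^ 4 * (D + L₀)) :=
    mul_le_mul_of_nonneg_left q3 (by positivity)
  have q5 : B ^ 2 * L₀ ≤ B ^ 4 * (D + L₀) :=
    (mul_le_mul_of_nonneg_right hB4 hL).trans q3
  have q6 : C₂ * (2 * C₁ + 1) * (B ^ 2 * L₀) ≤ C₂ * (2 * C₁ + 1) * (B ^ 4 * (D + L₀)) :=
    mul_le_mul_of_nonneg_left q5 (by positivity)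
  have q7 : C₂ * (2 * C₁ + 1) * (B ^ 4 * (D + L₀)) ≤
      C₁ * (C₂ * (2 * C₁ + 1) * (B ^ 4 * (D + L₀))) := by
    have : 0 ≤ C₂ * (2 * C₁ + 1) * (B ^ 4 * (D + L₀)) := by positivity
    nlinarith
  calc X + Y ≤ 2 * X + C₂ * (2 * C₁ + 1) * B ^ 2 * L₀ := by linarith
    _ ≤ 4 * C₁ * (D + L₀) + 4 * C₁ * C₂ * (2 * C₁ + 1) * (B ^ 4 * L₀)
        + C₂ * (2 * C₁ + 1) * (B ^ 2 * L₀) := by nlinarith
    _ ≤ (4 * C₁ + 5 * C₁ * C₂ * (2 * C₁ + 1)) * B ^ 4 * (D + L₀) := by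
      have e5 : (4 * C₁ + 5 * C₁ * C₂ * (2 * C₁ + 1)) * B ^ 4 * (D + L₀) =
        4 * C₁ * (B ^ 4 * (D + L₀)) + 4 * C₁ * C₂ * (2 * C₁ + 1) * (B ^ 4 * (D + L₀)) +
        C₁ * (C₂ * (2 * C₁ + 1) * (B ^ 4 * (D + L₀))) := by ring
      rw [e5]
      linarith

theorem dat_nonneg (m : ℕ) (Ω : Set E5) (f : F2) (β b : E5 → ℂ) : 0 ≤ Dat m Ω f β b :=
  integral_nonneg fun x => add_nonneg (add_nonneg (add_nonneg (sqs_nonneg _ _ _) (sqs_nonneg _ _ _))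
    (sqs_nonneg _ _ _)) (sqs_nonneg _ _ _)

theorem qo_nonneg (a : Str) (i : ℕ) (Ω : Set E5) (w : F2) : 0 ≤ Qo a i Ω w :=
  integral_nonneg fun x => add_nonneg (add_nonneg (add_nonneg (gq_nonneg _ _ _ _)
    (gq_nonneg _ _ _ _)) (sq_nonneg' _ _ _)) (sq_nonneg' _ _ _)

theorem l2_nonneg (Ω : Set E5) (w : F2) : 0 ≤ ∫ x in Ω, (‖w 0 x‖ ^ 2 + ‖w 1 x‖ ^ 2) :=
  integral_nonneg fun x => add_nonneg (by positivity) (by positivity)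

theorem lo_nonneg (a : Str) (m : ℕ) (Ω : Set E5) (w : F2) : 0 ≤ Lo a m Ω w :=
  add_nonneg (l2_nonneg Ω w) (Finset.sum_nonneg fun i _ => qo_nonneg a i Ω w)

end EStAux

open EStAux in
theorem pESt (hX : S_EX2) (hY : S_EY) : S_ESt := by
  obtain ⟨ε₁, hε₁, H1⟩ := hX
  obtain ⟨ε₂, hε₂, H2⟩ := hY
  refine ⟨min ε₁ ε₂, lt_min hε₁ hε₂, fun m M => ?_⟩
  have hmin : 0 ≤ min ε₁ ε₂ := (lt_min hε₁ hε₂).le
  obtain ⟨C₁, hC₁, K1⟩ := H1 m M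
  rcases m with _ | n
  · refine ⟨3 * C₁, by linarith, ?_⟩
    intro a ha hM e he0 he1 Ω hΩ hΩb w f β b hw hf hβ hb heq ζ B hζ hB
    have h1 := K1 a (ha.mono le_rfl hmin (min_le_left _ _)) hM e he0 he1 Ω hΩ hΩb w f β b hw hf hβ hb
      heq ζ B hζ hB
    have h2 : ∫ x, ζ x ^ 2 * (sq 0 (w 0) x + sq 0 (w 1) x) ≤ Lo a 0 Ω w := by
      have h3 := hζ.le_setIntegral (g := fun x => sq 0 (w 0) x + sq 0 (w 1) x)
        ((sq_cont (hw 0) 0).add (sq_cont (hw 1) 0))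
        (fun x => add_nonneg (sq_nonneg' _ _ _) (sq_nonneg' _ _ _)) hΩ.measurableSet hΩb
        (n := 2) (by norm_num)
      refine h3.trans (le_of_eq ?_)
      show ∫ x in Ω, (sq 0 (w 0) x + sq 0 (w 1) x) =
        (∫ x in Ω, (‖w 0 x‖ ^ 2 + ‖w 1 x‖ ^ 2)) + ∑ i ∈ Finset.range 0, Qo a i Ω w
      rw [Finset.range_zero, Finset.sum_empty, add_zero]
      rfl
    exact alg0 hC₁ hB (dat_nonneg _ _ _ _ _) (lo_nonneg _ _ _ _) h1 h2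
  · obtain ⟨C₂, hC₂, K2⟩ := H2 n
    refine ⟨4 * C₁ + 5 * C₁ * C₂ * (2 * C₁ + 1), ?_, ?_⟩
    · have : 0 ≤ 5 * C₁ * C₂ * (2 * C₁ + 1) := by positivity
      linarith
    intro a ha hM e he0 he1 Ω hΩ hΩb w f β b hw hf hβ hb heq ζ B hζ hB
    have h1 := K1 a (ha.mono le_rfl hmin (min_le_left _ _)) hM e he0 he1 Ω hΩ hΩb w f β b hw hf hβ hb
      heq ζ B hζ hB
    have hη0 : 0 < 1 / (2 * C₁ * B ^ 2) := by positivity
    have hη1 : 1 / (2 * C₁ * B ^ 2) ≤ 1 := by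
      rw [div_le_one (by positivity)]
      have hB2 : 1 ≤ B ^ 2 := one_le_pow₀ hB
      nlinarith
    have h2 := K2 a (ha.mono le_rfl hmin (min_le_right _ _)) Ω hΩ hΩb w hw ζ B hζ hB
      (1 / (2 * C₁ * B ^ 2)) hη0 hη1
    have hX0 : 0 ≤ ∫ x, ζ x ^ 4 * (gq a (n + 1) (w 0) x + gq a (n + 1) (w 1) x) :=
      integral_nonneg fun x => mul_nonneg (pow_nonneg (hζ.nn x) 4)
        (add_nonneg (gq_nonneg _ _ _ _) (gq_nonneg _ _ _ _))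
    have ha' : SmS a := ha.sm
    have c0 := gq_cont ha' (hw 0) n
    have c1 := gq_cont ha' (hw 1) n
    have d0 := sq_cont (hw 0) n
    have d1 := sq_cont (hw 1) n
    have h3 : ∫ x in Ω, (gq a n (w 0) x + gq a n (w 1) x) ≤ Qo a n Ω w := by
      refine setIntegral_mono_on (intOn_of_cont (c0.add c1) hΩb)
        (intOn_of_cont (((c0.add c1).add d0).add d1) hΩb) hΩ.measurableSet fun x _ => ?_
      have := sq_nonneg' n (w 0) x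
      have := sq_nonneg' n (w 1) x
      linarith
    have h4 : Qo a n Ω w ≤ Lo a (n + 1) Ω w := by
      have h5 : Qo a n Ω w ≤ ∑ i ∈ Finset.range (n + 1), Qo a i Ω w :=
        Finset.single_le_sum (f := fun i => Qo a i Ω w) (fun i _ => qo_nonneg a i Ω w)
          (Finset.mem_range.2 (Nat.lt_succ_self n))
      exact h5.trans (le_add_of_nonneg_left (l2_nonneg Ω w))
    exact alg1 hC₁ hC₂ hB (dat_nonneg _ _ _ _ _) (lo_nonneg _ _ _ _) hX0 rfl h1 h2 (h3.trans h4)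

end Pool.Agent.CR5
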