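import Pool.Agent.Lib.CR5.E.Spec

/-!
# CR5, block E: interpolation for the t-derivative (helper84)
-/

set_option autoImplicit false

open MeasureTheory Set Filter Topology
open scoped ENNReal ComplexConjugate

noncomputable section

namespace Pool.Agent.CR5

namespace ETiAux

/-- an integral whose integrand is supported in `Ω` -/
private theorem bnd {ζ : E5 → ℝ} {Ω : Set E5} {B : ℝ} (h : Cof ζ Ω B) (hΩ : MeasurableSet Ω)
    (hb : Ω ⊆ Metric.ball 0 1) {p q r : E5 → ℝ} (hp : Continuous p) (hq : Continuous q)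
    (hr : Continuous r) (α β γ : ℝ) {F : E5 → ℂ} (h0 : ∀ x, x ∉ Ω → F x = 0)
    (hF : ∀ x ∈ Ω, ‖F x‖ ≤ α * (ζ x ^ 4 * p x) + β * (ζ x ^ 2 * q x) + γ * r x) :
    ‖∫ x, F x‖ ≤ α * (∫ x, ζ x ^ 4 * p x) + β * (∫ x, ζ x ^ 2 * q x) + γ * ∫ x in Ω, r x := by
  have hi4 : IntegrableOn (fun x => α * (ζ x ^ 4 * p x)) Ω volume :=
    ((h.intg hp (n := 4) (by norm_num)).integrableOn).const_mul α
  have hi2 : IntegrableOn (fun x => β * (ζ x ^ 2 * q x)) Ω volume :=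
    ((h.intg hq (n := 2) (by norm_num)).integrableOn).const_mul β
  have hi1 : IntegrableOn (fun x => γ * r x) Ω volume := (intOn_of_cont hr hb).const_mul γ
  have e4 : ∫ x in Ω, ζ x ^ 4 * p x = ∫ x, ζ x ^ 4 * p x :=
    setIntegral_eq_integral_of_forall_compl_eq_zero fun x hx => by simp [h.zero hx]
  have e2 : ∫ x in Ω, ζ x ^ 2 * q x = ∫ x, ζ x ^ 2 * q x :=
    setIntegral_eq_integral_of_forall_compl_eq_zero fun x hx => by simp [h.zero hx]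
  rw [← setIntegral_eq_integral_of_forall_compl_eq_zero (s := Ω) (f := F) h0]
  have hbd : ∀ᵐ x ∂(volume.restrict Ω), ‖F x‖ ≤
      (α * (ζ x ^ 4 * p x) + β * (ζ x ^ 2 * q x)) + γ * r x :=
    (ae_restrict_iff' hΩ).2 (Eventually.of_forall hF)
  have hint : IntegrableOn (fun x => (α * (ζ x ^ 4 * p x) + β * (ζ x ^ 2 * q x)) + γ * r x) Ω
      volume := (hi4.add hi2).add hi1
  refine (norm_integral_le_of_norm_le hint hbd).trans (le_of_eq ?_)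
  have s1 : ∫ x in Ω, ((α * (ζ x ^ 4 * p x) + β * (ζ x ^ 2 * q x)) + γ * r x) =
      (∫ x in Ω, (α * (ζ x ^ 4 * p x) + β * (ζ x ^ 2 * q x))) + ∫ x in Ω, γ * r x :=
    integral_add (hi4.add hi2) hi1
  have s2 : ∫ x in Ω, (α * (ζ x ^ 4 * p x) + β * (ζ x ^ 2 * q x)) =
      (∫ x in Ω, α * (ζ x ^ 4 * p x)) + ∫ x in Ω, β * (ζ x ^ 2 * q x) :=
    integral_add hi4 hi2
  rw [s1, s2, integral_const_mul, integral_const_mul, integral_const_mul, e4, e2]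

/-- the function `ζ² f` -/
private def g2 (ζ : E5 → ℝ) (f : E5 → ℂ) : E5 → ℂ := fun y => (ζ y : ℂ) * ((ζ y : ℂ) * f y)

private theorem g2_tst {ζ : E5 → ℝ} {Ω : Set E5} {B : ℝ} (h : Cof ζ Ω B) {f : E5 → ℂ}
    (hf : Sm f) : Tst (g2 ζ f) := Tst.mul_left h.smC (Tst.mul_right h.tst hf)

private theorem ls_g2 {a : Str} (ha : SmS a) {ζ : E5 → ℝ} (hζ : Sm fun x => (ζ x : ℂ))
    {f : E5 → ℂ} (hf : Sm f) (x : E5) :
    Ls a 0 (g2 ζ f) x = (ζ x : ℂ) * ((ζ x : ℂ) * (-Lb a 0 f x - dv a 0 x * f x)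
      - 2 * (Lb a 0 (fun y => (ζ y : ℂ)) x * f x)) := by
  unfold g2
  rw [Ls_mul ha hζ (hζ.mul hf), Ls_mul ha hζ hf, Ls_eq ha hf]
  ring

private theorem gr_ge {a : Str} (f : E5 → ℂ) (x : E5) :
    ‖L a 0 f x‖ ^ 2 ≤ gr a f x ∧ ‖Lb a 0 f x‖ ^ 2 ≤ gr a f x := by
  unfold gr
  rw [Fin.sum_univ_two]
  constructor <;> nlinarith [sq_nonneg ‖L a 0 f x‖, sq_nonneg ‖Lb a 0 f x‖,
    sq_nonneg ‖L a 1 f x‖, sq_nonneg ‖Lb a 1 f x‖]

/-- the size of `L* (ζ² f)` -/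
private theorem ls_bd {a : Str} (ha : SmS a) {ζ : E5 → ℝ} {Ω : Set E5} {B C : ℝ} (h : Cof ζ Ω B)
    (hB : 1 ≤ B) (hC : 1 ≤ C) {f : E5 → ℂ} (hf : Sm f) (x : E5) (hdv : ‖dv a 0 x‖ ≤ C)
    (hlb : ‖Lb a 0 (fun y => (ζ y : ℂ)) x‖ ≤ C * B) :
    ‖Ls a 0 (g2 ζ f) x‖ ≤ ζ x ^ 2 * ‖Lb a 0 f x‖ + 3 * C * B * (ζ x * ‖f x‖) := by
  have h0 := h.nn x
  have h1 := h.le x
  have hn : ‖((ζ x : ℝ) : ℂ)‖ = ζ x := by
    rw [Complex.norm_real, Real.norm_eq_abs, abs_of_nonneg h0]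
  rw [ls_g2 ha h.smC hf, norm_mul, hn]
  have k1 : ‖-Lb a 0 f x - dv a 0 x * f x‖ ≤ ‖Lb a 0 f x‖ + C * ‖f x‖ := by
    refine (norm_sub_le _ _).trans ?_
    rw [norm_neg, norm_mul]
    exact add_le_add le_rfl (mul_le_mul_of_nonneg_right hdv (norm_nonneg _))
  have k2 : ‖2 * (Lb a 0 (fun y => (ζ y : ℂ)) x * f x)‖ ≤ 2 * (C * B * ‖f x‖) := by
    rw [norm_mul, norm_mul, Complex.norm_ofNat]
    exact mul_le_mul_of_nonneg_left (mul_le_mul_of_nonneg_right hlb (norm_nonneg _)) (by norm_num)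
  have k3 : ‖(ζ x : ℂ) * (-Lb a 0 f x - dv a 0 x * f x)
      - 2 * (Lb a 0 (fun y => (ζ y : ℂ)) x * f x)‖ ≤
      ζ x * (‖Lb a 0 f x‖ + C * ‖f x‖) + 2 * (C * B * ‖f x‖) := by
    refine (norm_sub_le _ _).trans ?_
    rw [norm_mul, hn]
    exact add_le_add (mul_le_mul_of_nonneg_left k1 h0) k2
  refine (mul_le_mul_of_nonneg_left k3 h0).trans ?_
  have hf0 : 0 ≤ ‖f x‖ := norm_nonneg _
  have k4 : ζ x * (ζ x * (C * ‖f x‖)) ≤ ζ x * (1 * (C * B * ‖f x‖)) := by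
    refine mul_le_mul_of_nonneg_left ?_ h0
    refine mul_le_mul h1 ?_ (by positivity) (by norm_num)
    refine mul_le_mul_of_nonneg_right ?_ hf0
    nlinarith
  nlinarith

private theorem young {s m n z η K P R : ℝ} (hη : 0 < η) (hP : m ^ 2 ≤ P)
    (hR : s ^ 2 ≤ R) :
    s * (z ^ 2 * m + K * (z * n)) ≤
      η / 2 * (z ^ 4 * P) + 1 / 4 * (z ^ 2 * n ^ 2) + (1 / (2 * η) + K ^ 2) * R := by
  have a1 : s * (z ^ 2 * m) ≤ η / 2 * (z ^ 4 * m ^ 2) + 1 / (2 * η) * s ^ 2 := by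
    have : 0 ≤ (η * (z ^ 2 * m) - s) ^ 2 / (2 * η) := by positivity
    have e : (η * (z ^ 2 * m) - s) ^ 2 / (2 * η) =
        η / 2 * (z ^ 4 * m ^ 2) + 1 / (2 * η) * s ^ 2 - s * (z ^ 2 * m) := by
      field_simp
      ring
    linarith
  have a2 : s * (K * (z * n)) ≤ 1 / 4 * (z ^ 2 * n ^ 2) + K ^ 2 * s ^ 2 := by
    nlinarith [sq_nonneg (z * n / 2 - K * s)]
  have a3 : η / 2 * (z ^ 4 * m ^ 2) ≤ η / 2 * (z ^ 4 * P) := by
    refine mul_le_mul_of_nonneg_left ?_ (by positivity)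
    exact mul_le_mul_of_nonneg_left hP (by positivity)
  have a4 : (1 / (2 * η) + K ^ 2) * s ^ 2 ≤ (1 / (2 * η) + K ^ 2) * R :=
    mul_le_mul_of_nonneg_left hR (by positivity)
  nlinarith

end ETiAux

open ETiAux in
theorem pETi (hCom : S_ECom) (hPw : S_EPw) (hSz : S_ESz) : S_ETi := by
  obtain ⟨C₁, hC₁, hcom⟩ := hCom
  obtain ⟨ε₂, hε₂, C₂, hC₂, hpw⟩ := hPw
  obtain ⟨C, hC, hsz⟩ := hSz
  obtain ⟨ε, hε⟩ : ∃ ε, ε = min (min ε₂ 1) (1 / (2 * (C₁ * C₂))) := ⟨_, rfl⟩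
  have hC12 : 1 ≤ C₁ * C₂ := by nlinarith
  have hε0 : 0 < ε := by
    rw [hε]
    refine lt_min (lt_min hε₂ one_pos) ?_
    positivity
  have hεa : ε ≤ ε₂ := by
    rw [hε]
    exact (min_le_left _ _).trans (min_le_left _ _)
  have hεb : ε ≤ 1 := by
    rw [hε]
    exact (min_le_left _ _).trans (min_le_right _ _)
  have hεc : C₁ * ε ^ 2 * C₂ ≤ 1 / 4 := by
    have h1 : ε ≤ 1 / (2 * (C₁ * C₂)) := by
      rw [hε]
      exact min_le_right _ _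
    rw [le_div_iff₀ (by positivity)] at h1
    have h2 : (ε * (2 * (C₁ * C₂))) ^ 2 ≤ 1 := by
      have : 0 ≤ ε * (2 * (C₁ * C₂)) := by positivity
      nlinarith
    have h3 : 0 ≤ ε ^ 2 * (C₁ * C₂) := by positivity
    nlinarith
  refine ⟨ε, hε0, 18 * C ^ 2 + 1, by nlinarith [sq_nonneg C], ?_⟩
  intro a ha Ω hΩ hb v hv ζ B hζ hB η hη hη1
  have hs : SmS a := ha.smS
  have hm : MeasurableSet Ω := hΩ.measurableSet
  have hn2 : Near a 2 ε := ha.mono (by norm_num) hε0.le le_rfl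
  have hn0 : Near a 0 ε₂ := ha.mono (by norm_num) hε0.le hεa
  have hn1 : Near a 1 1 := ha.mono (by norm_num) hε0.le hεb
  have hvt : Sm (pd 4 v) := hv.pd 4
  have hLb : Sm (Lb a 0 v) := hv.Lb hs 0
  have hL : Sm (L a 0 v) := hv.L hs 0
  have hg : Tst (g2 ζ (pd 4 v)) := g2_tst hζ hvt
  obtain ⟨ρ, hρ⟩ : ∃ ρ : E5 → ℂ, ρ = fun x => L a 0 (Lb a 0 v) x - Lb a 0 (L a 0 v) x
      - 2 * Complex.I * pd 4 v x := ⟨_, rfl⟩
  have hρs : Sm ρ := by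
    rw [hρ]
    exact ((hLb.L hs 0).sub (hL.Lb hs 0)).sub ((Sm.const _).mul hvt)
  -- continuity
  have cgr : Continuous (gr a v) := gr_cont hs hv
  have cgrt : Continuous (gr a (pd 4 v)) := gr_cont hs hvt
  have cq : Continuous (fun x => ‖pd 4 v x‖ ^ 2) := (hvt.cont.norm).pow 2
  obtain ⟨I0, hI0⟩ : ∃ I0, I0 = ∫ x, ζ x ^ 2 * ‖pd 4 v x‖ ^ 2 := ⟨_, rfl⟩
  obtain ⟨X, hX⟩ : ∃ X, X = ∫ x, ζ x ^ 4 * gr a (pd 4 v) x := ⟨_, rfl⟩
  obtain ⟨G, hG⟩ : ∃ G, G = ∫ x in Ω, gr a v x := ⟨_, rfl⟩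
  have hG0 : 0 ≤ G := by
    rw [hG]
    exact integral_nonneg fun x => gr_nonneg a v x
  have hI00 : 0 ≤ I0 := by
    rw [hI0]
    exact integral_nonneg fun x => by positivity
  -- the first term
  have hzn : ∀ x, ‖((ζ x : ℝ) : ℂ)‖ = ζ x := fun x => by
    rw [Complex.norm_real, Real.norm_eq_abs, abs_of_nonneg (hζ.nn x)]
  have J : ∀ (s f : E5 → ℂ), Sm f → (∀ x, ‖s x‖ ^ 2 ≤ gr a v x) →
      (∀ x, ‖f x‖ = ‖pd 4 v x‖) → (∀ x, ‖Lb a 0 f x‖ ^ 2 ≤ gr a (pd 4 v) x) →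
      ‖∫ x, s x * conj (Ls a 0 (g2 ζ f) x)‖ ≤
        η / 2 * X + 1 / 4 * I0 + (1 / (2 * η) + (3 * C * B) ^ 2) * G := by
    intro s f hf h1 h2 h3
    rw [hX, hI0, hG]
    refine bnd hζ hm hb cgrt cq cgr _ _ _ ?_ ?_
    · intro x hx
      rw [ls_g2 hs hζ.smC hf, hζ.zero hx]
      simp
    · intro x hx
      obtain ⟨d1, d2⟩ := hsz a hn1 x (hb hx) 0
      have d3 := (d2 _ hζ.smC B (fun k => hζ.gd k x)).2
      have d4 := ls_bd hs hζ hB hC hf x d1 d3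
      rw [norm_mul, RCLike.norm_conj]
      refine (mul_le_mul_of_nonneg_left d4 (norm_nonneg _)).trans ?_
      rw [h2 x]
      exact young hη (h3 x) (h1 x)
  have e1 : ‖∫ x, L a 0 (Lb a 0 v) x * conj (g2 ζ (pd 4 v) x)‖ ≤
      η / 2 * X + 1 / 4 * I0 + (1 / (2 * η) + (3 * C * B) ^ 2) * G := by
    rw [ibp_L hs 0 hLb hg]
    exact J (Lb a 0 v) (pd 4 v) hvt (fun x => (gr_ge v x).2) (fun x => rfl)
      (fun x => (gr_ge (pd 4 v) x).2)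
  have e2 : ‖∫ x, Lb a 0 (L a 0 v) x * conj (g2 ζ (pd 4 v) x)‖ ≤
      η / 2 * X + 1 / 4 * I0 + (1 / (2 * η) + (3 * C * B) ^ 2) * G := by
    have c1 : conj (∫ x, Lb a 0 (L a 0 v) x * conj (g2 ζ (pd 4 v) x)) =
        ∫ x, L a 0 (fun y => conj (L a 0 v y)) x *
          conj (g2 ζ (fun y => conj (pd 4 v y)) x) := by
      rw [← integral_conj]
      refine integral_congr_ae (Eventually.of_forall fun x => ?_)
      show conj (Lb a 0 (L a 0 v) x * conj (g2 ζ (pd 4 v) x)) = _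
      rw [map_mul, conj_Lb hL]
      simp only [g2, map_mul, Complex.conj_conj, Complex.conj_ofReal]
    have c2 : ‖∫ x, Lb a 0 (L a 0 v) x * conj (g2 ζ (pd 4 v) x)‖ =
        ‖conj (∫ x, Lb a 0 (L a 0 v) x * conj (g2 ζ (pd 4 v) x))‖ := (RCLike.norm_conj _).symm
    rw [c2, c1, ibp_L hs 0 hL.conj (g2_tst hζ hvt.conj)]
    refine J _ _ hvt.conj (fun x => ?_) (fun x => RCLike.norm_conj _) (fun x => ?_)
    · rw [RCLike.norm_conj]
      exact (gr_ge v x).1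
    · rw [← conj_L hvt, RCLike.norm_conj]
      exact (gr_ge (pd 4 v) x).1
  have e3 : ‖∫ x, ρ x * conj (g2 ζ (pd 4 v) x)‖ ≤ 0 * X + 1 / 2 * I0 + 1 / 4 * G := by
    rw [hX, hI0, hG]
    refine bnd hζ hm hb cgrt cq cgr _ _ _ ?_ ?_
    · intro x hx
      simp [g2, hζ.zero hx]
    · intro x hx
      have d1 := hcom ε hε0 hεb a hn2 v hv x (hb hx)
      have d2 := hpw a hn0 v hv x (hb hx)
      have d3 : ‖ρ x‖ ^ 2 ≤ 1 / 4 * (gr a v x + ‖pd 4 v x‖ ^ 2) := by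
        rw [hρ]
        refine d1.trans ?_
        have g0 : 0 ≤ gr a v x + ‖pd 4 v x‖ ^ 2 :=
          add_nonneg (gr_nonneg a v x) (sq_nonneg _)
        calc C₁ * ε ^ 2 * ∑ k, ‖pd k v x‖ ^ 2
            ≤ C₁ * ε ^ 2 * (C₂ * (gr a v x + ‖pd 4 v x‖ ^ 2)) :=
              mul_le_mul_of_nonneg_left d2 (by positivity)
          _ = C₁ * ε ^ 2 * C₂ * (gr a v x + ‖pd 4 v x‖ ^ 2) := by ring
          _ ≤ _ := mul_le_mul_of_nonneg_right hεc g0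
      have z0 := hζ.nn x
      have z1 := hζ.le x
      have n1 : ‖ρ x * conj (g2 ζ (pd 4 v) x)‖ = ζ x ^ 2 * (‖ρ x‖ * ‖pd 4 v x‖) := by
        rw [norm_mul, RCLike.norm_conj]
        simp only [g2, norm_mul, hzn x]
        ring
      rw [n1]
      have n2 : ‖ρ x‖ * ‖pd 4 v x‖ ≤ ‖ρ x‖ ^ 2 + 1 / 4 * ‖pd 4 v x‖ ^ 2 := by
        nlinarith [sq_nonneg (‖ρ x‖ - ‖pd 4 v x‖ / 2)]
      have n3 : ‖ρ x‖ * ‖pd 4 v x‖ ≤ 1 / 4 * gr a v x + 1 / 2 * ‖pd 4 v x‖ ^ 2 := by linarith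
      have n4 := mul_le_mul_of_nonneg_left n3 (sq_nonneg (ζ x))
      have n5 : ζ x ^ 2 * gr a v x ≤ 1 * gr a v x :=
        mul_le_mul_of_nonneg_right (pow_le_one₀ z0 z1) (gr_nonneg a v x)
      nlinarith
  -- the identity
  have key : (2 * Complex.I) * ((I0 : ℝ) : ℂ) =
      (∫ x, L a 0 (Lb a 0 v) x * conj (g2 ζ (pd 4 v) x))
      - (∫ x, Lb a 0 (L a 0 v) x * conj (g2 ζ (pd 4 v) x))
      - ∫ x, ρ x * conj (g2 ζ (pd 4 v) x) := by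
    have i1 : Integrable (fun x => L a 0 (Lb a 0 v) x * conj (g2 ζ (pd 4 v) x)) volume :=
      (Tst.mul_left (hLb.L hs 0) hg.conj).integrable
    have i2 : Integrable (fun x => Lb a 0 (L a 0 v) x * conj (g2 ζ (pd 4 v) x)) volume :=
      (Tst.mul_left (hL.Lb hs 0) hg.conj).integrable
    have i3 : Integrable (fun x => ρ x * conj (g2 ζ (pd 4 v) x)) volume :=
      (Tst.mul_left hρs hg.conj).integrable
    have i12 : Integrable (fun x => L a 0 (Lb a 0 v) x * conj (g2 ζ (pd 4 v) x) -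
        Lb a 0 (L a 0 v) x * conj (g2 ζ (pd 4 v) x)) volume := i1.sub i2
    rw [← integral_sub i1 i2, ← integral_sub i12 i3, hI0, ← integral_complex_ofReal,
      ← integral_const_mul]
    refine integral_congr_ae (Eventually.of_forall fun x => ?_)
    show 2 * Complex.I * ((ζ x ^ 2 * ‖pd 4 v x‖ ^ 2 : ℝ) : ℂ) = _
    have hc : pd 4 v x * conj (pd 4 v x) = ((‖pd 4 v x‖ ^ 2 : ℝ) : ℂ) := by
      rw [Complex.mul_conj, Complex.normSq_eq_norm_sq]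
    simp only [g2, map_mul, Complex.conj_ofReal, hρ]
    rw [Complex.ofReal_mul, ← hc]
    push_cast
    ring
  have hnorm : 2 * I0 = ‖(2 * Complex.I) * ((I0 : ℝ) : ℂ)‖ := by
    rw [norm_mul, norm_mul, Complex.norm_I, Complex.norm_ofNat, Complex.norm_real,
      Real.norm_eq_abs, abs_of_nonneg hI00]
    ring
  have hsum : 2 * I0 ≤ (η / 2 * X + 1 / 4 * I0 + (1 / (2 * η) + (3 * C * B) ^ 2) * G)
      + (η / 2 * X + 1 / 4 * I0 + (1 / (2 * η) + (3 * C * B) ^ 2) * G)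
      + (0 * X + 1 / 2 * I0 + 1 / 4 * G) := by
    rw [hnorm, key]
    refine (norm_sub_le _ _).trans (add_le_add ((norm_sub_le _ _).trans (add_le_add e1 e2)) e3)
  rw [← hI0, ← hX, ← hG]
  have hη' : 1 / (2 * η) + 1 / (2 * η) = 1 / η := by
    field_simp
    norm_num
  have hfin : (1 / η + 2 * (3 * C * B) ^ 2 + 1 / 4) * G ≤
      (18 * C ^ 2 + 1) * (1 / η + B ^ 2) * G := by
    refine mul_le_mul_of_nonneg_right ?_ hG0
    have u1 : 0 ≤ 1 / η := by positivity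
    have u2 : 0 ≤ C ^ 2 * (1 / η) := by positivity
    nlinarith
  nlinarith

end Pool.Agent.CR5
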