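import Pool.Agent.Lib.CR5.E.Spec

/-! # CR5, block E: interpolation for all derivatives of order `m + 1` -/

set_option autoImplicit false

open MeasureTheory Set Filter Topology
open scoped ENNReal ComplexConjugate

noncomputable section

namespace Pool.Agent.CR5

namespace EYAux

theorem sq_succ_eq {v : E5 → ℂ} (hv : Sm v) (m : ℕ) (x : E5) :
    sq (m + 1) v x = sL m fun I => ∑ k, ‖pd k (pdL I v) x‖ ^ 2 := by
  rw [sL_sum]
  show ∑ k : Fin 5, sq m (pd k v) x = _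
  refine Finset.sum_congr rfl fun k _ => ?_
  rw [sq_eq_sL]
  exact sL_congr fun I _ => by rw [pdL_pd hv]

theorem gq_pd_le (a : Str) (m : ℕ) (v : E5 → ℂ) (k : Fin 5) (x : E5) :
    gq a m (pd k v) x ≤ gq a (m + 1) v x := by
  rw [gq_succ]
  exact Finset.single_le_sum (f := fun k => gq a m (pd k v) x)
    (fun i _ => gq_nonneg a m _ x) (Finset.mem_univ k)

/-- The inequality for one function. -/
theorem one {C1 C2 : ℝ} (hC1 : 1 ≤ C1) (hC2 : 1 ≤ C2) {a : Str} (ha : SmS a)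
    (h1 : ∀ f, Sm f → ∀ x ∈ Metric.ball (0 : E5) 1,
      ∑ k, ‖pd k f x‖ ^ 2 ≤ C1 * (gr a f x + ‖pd 4 f x‖ ^ 2))
    {Ω : Set E5} (hΩ : IsOpen Ω) (hb : Ω ⊆ Metric.ball 0 1) {ζ : E5 → ℝ} {B : ℝ}
    (hζ : Cof ζ Ω B) (hB : 1 ≤ B)
    (h2 : ∀ v, Sm v → ∀ η : ℝ, 0 < η → η ≤ 1 →
      ∫ x, ζ x ^ 2 * ‖pd 4 v x‖ ^ 2
        ≤ η * (∫ x, ζ x ^ 4 * gr a (pd 4 v) x) + C2 * (1 / η + B ^ 2) * ∫ x in Ω, gr a v x)
    (m : ℕ) {v : E5 → ℂ} (hv : Sm v) {η : ℝ} (h0 : 0 < η) (hη : η ≤ 1) :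
    ∫ x, ζ x ^ 2 * sq (m + 1) v x
      ≤ η * (∫ x, ζ x ^ 4 * gq a (m + 1) v x)
        + (C1 + C1 ^ 2 * C2) * (1 / η + B ^ 2) * ∫ x in Ω, gq a m v x := by
  have C10 : 0 < C1 := by linarith
  have C20 : 0 < C2 := by linarith
  have cg : ∀ I : List (Fin 5), Continuous (gr a (pdL I v)) := fun I => gr_cont ha (hv.pdL I)
  have cn : ∀ I : List (Fin 5), Continuous fun x => ‖pd 4 (pdL I v) x‖ ^ 2 :=
    fun I => (((hv.pdL I).pd 4).cont.norm).pow 2
  have cn4 : ∀ I : List (Fin 5), Continuous (gr a (pd 4 (pdL I v))) :=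
    fun I => gr_cont ha ((hv.pdL I).pd 4)
  -- step 1
  have s1 : ∫ x, ζ x ^ 2 * sq (m + 1) v x
      ≤ ∫ x, sL m (fun I => C1 * (ζ x ^ 2 * gr a (pdL I v) x)
        + C1 * (ζ x ^ 2 * ‖pd 4 (pdL I v) x‖ ^ 2)) := by
    refine integral_mono (hζ.intg (sq_cont hv _) (by norm_num)) ?_ ?_
    · exact integrable_sL m fun I _ => ((hζ.intg (cg I) (by norm_num)).const_mul C1).add
        ((hζ.intg (cn I) (by norm_num)).const_mul C1)
    · intro x
      show ζ x ^ 2 * sq (m + 1) v x ≤ _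
      rw [sq_succ_eq hv, ← sL_mul_left]
      refine sL_mono fun I _ => ?_
      by_cases hx : x ∈ Ω
      · have := mul_le_mul_of_nonneg_left (h1 (pdL I v) (hv.pdL I) x (hb hx))
          (sq_nonneg (ζ x))
        linarith
      · rw [hζ.zero hx]; simp
  have s2 : ∫ x, sL m (fun I => C1 * (ζ x ^ 2 * gr a (pdL I v) x)
        + C1 * (ζ x ^ 2 * ‖pd 4 (pdL I v) x‖ ^ 2))
      = sL m fun I => (C1 * (∫ x, ζ x ^ 2 * gr a (pdL I v) x)
        + C1 * ∫ x, ζ x ^ 2 * ‖pd 4 (pdL I v) x‖ ^ 2) := by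
    rw [integral_sL m (F := fun I x => C1 * (ζ x ^ 2 * gr a (pdL I v) x)
        + C1 * (ζ x ^ 2 * ‖pd 4 (pdL I v) x‖ ^ 2)) fun I _ =>
      ((hζ.intg (cg I) (by norm_num)).const_mul C1).add
        ((hζ.intg (cn I) (by norm_num)).const_mul C1)]
    refine sL_congr fun I _ => ?_
    rw [integral_add ((hζ.intg (cg I) (by norm_num)).const_mul C1)
      ((hζ.intg (cn I) (by norm_num)).const_mul C1), integral_const_mul, integral_const_mul]
  have hη' : 0 < η / C1 := div_pos h0 C10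
  have hη'' : η / C1 ≤ 1 := (div_le_one C10).2 (hη.trans hC1)
  have s3 : sL m (fun I => (C1 * (∫ x, ζ x ^ 2 * gr a (pdL I v) x)
        + C1 * ∫ x, ζ x ^ 2 * ‖pd 4 (pdL I v) x‖ ^ 2))
      ≤ sL m fun I => ((C1 + C1 ^ 2 * C2) * (1 / η + B ^ 2)) * (∫ x in Ω, gr a (pdL I v) x)
        + η * ∫ x, ζ x ^ 4 * gr a (pd 4 (pdL I v)) x := by
    refine sL_mono fun I _ => ?_
    have k1 := hζ.le_setIntegral (n := 2) (cg I) (fun x => gr_nonneg a _ x) hΩ.measurableSet hb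
      (by norm_num)
    have k2 := h2 (pdL I v) (hv.pdL I) (η / C1) hη' hη''
    have k0 : 0 ≤ ∫ x in Ω, gr a (pdL I v) x :=
      setIntegral_nonneg hΩ.measurableSet fun x _ => gr_nonneg a _ x
    have k3 : C1 * (∫ x, ζ x ^ 2 * ‖pd 4 (pdL I v) x‖ ^ 2)
        ≤ η * (∫ x, ζ x ^ 4 * gr a (pd 4 (pdL I v)) x)
          + C1 * C2 * (C1 / η + B ^ 2) * ∫ x in Ω, gr a (pdL I v) x := by
      refine (mul_le_mul_of_nonneg_left k2 C10.le).trans (le_of_eq ?_)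
      field_simp
    have e1 : 1 ≤ 1 / η + B ^ 2 := by
      have : 1 ≤ 1 / η := by rw [le_div_iff₀ h0]; linarith
      nlinarith [sq_nonneg B]
    have e2 : C1 * C2 * (C1 / η + B ^ 2) ≤ C1 ^ 2 * C2 * (1 / η + B ^ 2) := by
      have : C1 ^ 2 * C2 * (1 / η + B ^ 2) - C1 * C2 * (C1 / η + B ^ 2)
          = C1 * C2 * (C1 - 1) * B ^ 2 := by field_simp; ring
      have h3 : 0 ≤ C1 * C2 * (C1 - 1) * B ^ 2 := by
        have : 0 ≤ C1 - 1 := by linarith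
        positivity
      linarith
    have e3 : C1 * (∫ x in Ω, gr a (pdL I v) x)
        ≤ C1 * (1 / η + B ^ 2) * ∫ x in Ω, gr a (pdL I v) x := by
      have := mul_le_mul_of_nonneg_left e1 C10.le
      rw [mul_one] at this
      exact mul_le_mul_of_nonneg_right this k0
    have e4 := mul_le_mul_of_nonneg_right e2 k0
    have e5 := mul_le_mul_of_nonneg_left k1 C10.le
    linarith
  have s4 : sL m (fun I => ((C1 + C1 ^ 2 * C2) * (1 / η + B ^ 2)) * (∫ x in Ω, gr a (pdL I v) x)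
        + η * ∫ x, ζ x ^ 4 * gr a (pd 4 (pdL I v)) x)
      = ((C1 + C1 ^ 2 * C2) * (1 / η + B ^ 2)) * (∫ x in Ω, gq a m v x)
        + η * ∫ x, ζ x ^ 4 * gq a m (pd 4 v) x := by
    rw [sL_add m (fun I => ((C1 + C1 ^ 2 * C2) * (1 / η + B ^ 2)) * (∫ x in Ω, gr a (pdL I v) x))
      (fun I => η * ∫ x, ζ x ^ 4 * gr a (pd 4 (pdL I v)) x), sL_mul_left, sL_mul_left]
    congr 2
    · exact (integral_sL m (F := fun I x => gr a (pdL I v) x)
        fun I _ => intOn_of_cont (cg I) hb).symm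
    · rw [← integral_sL m (F := fun I x => ζ x ^ 4 * gr a (pd 4 (pdL I v)) x)
        fun I _ => hζ.intg (cn4 I) (by norm_num)]
      refine integral_congr_ae (Eventually.of_forall fun x => ?_)
      show sL m (fun I => ζ x ^ 4 * gr a (pd 4 (pdL I v)) x)
        = ζ x ^ 4 * sL m (fun I => gr a (pdL I (pd 4 v)) x)
      rw [sL_mul_left]
      congr 1
      exact sL_congr fun I _ => by rw [pdL_pd hv]
  have s5 : ∫ x, ζ x ^ 4 * gq a m (pd 4 v) x ≤ ∫ x, ζ x ^ 4 * gq a (m + 1) v x := by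
    refine integral_mono (hζ.intg (gq_cont ha (hv.pd 4) m) (by norm_num))
      (hζ.intg (gq_cont ha hv (m + 1)) (by norm_num)) fun x => ?_
    exact mul_le_mul_of_nonneg_left (gq_pd_le a m v 4 x) (by positivity)
  have s6 := mul_le_mul_of_nonneg_left s5 h0.le
  linarith

end EYAux

open EYAux in
theorem pEY (hPw : S_EPw) (hTi : S_ETi) : S_EY := by
  obtain ⟨ε1, he1, C1, hC1, h1⟩ := hPw
  obtain ⟨ε2, he2, C2, hC2, h2⟩ := hTi
  refine ⟨min ε1 ε2, lt_min he1 he2, fun m => ⟨C1 + C1 ^ 2 * C2, ?_, ?_⟩⟩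
  · have : 0 ≤ C1 ^ 2 * C2 := by positivity
    linarith
  intro a ha Ω hΩ hb w hw ζ B hζ hB η h0 hη
  have hε : 0 ≤ min ε1 ε2 := (lt_min he1 he2).le
  have n1 : Near a 0 ε1 := ha.mono (by norm_num) hε (min_le_left _ _)
  have n2 : Near a 4 ε2 := ha.mono le_rfl hε (min_le_right _ _)
  have k : ∀ j, _ := fun j => one hC1 hC2 ha.sm (h1 a n1) hΩ hb hζ hB
    (fun v hv η' h0' h1' => h2 a n2 Ω hΩ hb v hv ζ B hζ hB η' h0' h1') m (hw j) h0 hη
  have e1 : ∫ x, ζ x ^ 2 * (sq (m + 1) (w 0) x + sq (m + 1) (w 1) x)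
      = (∫ x, ζ x ^ 2 * sq (m + 1) (w 0) x) + ∫ x, ζ x ^ 2 * sq (m + 1) (w 1) x := by
    rw [← integral_add (hζ.intg (sq_cont (hw 0) _) (by norm_num))
      (hζ.intg (sq_cont (hw 1) _) (by norm_num))]
    exact integral_congr_ae (Eventually.of_forall fun x => by simp only []; ring)
  have e2 : ∫ x, ζ x ^ 4 * (gq a (m + 1) (w 0) x + gq a (m + 1) (w 1) x)
      = (∫ x, ζ x ^ 4 * gq a (m + 1) (w 0) x) + ∫ x, ζ x ^ 4 * gq a (m + 1) (w 1) x := by
    rw [← integral_add (hζ.intg (gq_cont ha.sm (hw 0) _) (by norm_num))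
      (hζ.intg (gq_cont ha.sm (hw 1) _) (by norm_num))]
    exact integral_congr_ae (Eventually.of_forall fun x => by simp only []; ring)
  have e3 : ∫ x in Ω, (gq a m (w 0) x + gq a m (w 1) x)
      = (∫ x in Ω, gq a m (w 0) x) + ∫ x in Ω, gq a m (w 1) x :=
    integral_add (intOn_of_cont (gq_cont ha.sm (hw 0) _) hb)
      (intOn_of_cont (gq_cont ha.sm (hw 1) _) hb)
  rw [e1, e2, e3]
  have a0 := k 0
  have a1 := k 1
  linarith

end Pool.Agent.CR5
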