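import Pool.Agent.Lib.CR5.E.EOp
import Pool.Agent.Lib.CR5.E.ELe
import Pool.Agent.Lib.CR5.E.ECm
import Pool.Agent.Lib.CR5.E.EGq
import Pool.Agent.Lib.CR5.E.EPw
import Pool.Agent.Lib.CR5.E.ECom
import Pool.Agent.Lib.CR5.E.ESz
import Pool.Agent.Lib.CR5.E.EId
import Pool.Agent.Lib.CR5.E.EPair
import Pool.Agent.Lib.CR5.E.EEn
import Pool.Agent.Lib.CR5.E.ETi
import Pool.Agent.Lib.CR5.E.EEq
import Pool.Agent.Lib.CR5.E.EBd
import Pool.Agent.Lib.CR5.E.EY
import Pool.Agent.Lib.CR5.E.EX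
import Pool.Agent.Lib.CR5.E.ESt
import Pool.Agent.Lib.CR5.E.EIn
import Pool.Agent.Lib.CR5.E.ELoc
import Pool.Agent.Lib.CR5.B.Cmm
import Pool.Agent.Lib.CR5.B.Cfs

/-!
# CR5, block E: the interior estimates
-/

set_option autoImplicit false

namespace Pool.Agent.CR5

/-- Block E: interior estimates of all orders. -/
theorem eLOC (hBas : S_Bas) (hCut : S_CUT2) : S_LOC := by
  have hCm : S_ECm := pECm pELe
  have hGq : S_EGq := pEGq pEOp hCm
  have hEn : S_EEn := pEEn pEId pEPair hBas pESz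
  have hTi : S_ETi := pETi (pECom pCmm pCfs) pEPw pESz
  have hBd : S_EBd := pEBd pEOp hCm hGq
  exact pELoc (pEIn (pESt (pEX hEn pEEq hBd) (pEY pEPw hTi)) hCut) hGq

end Pool.Agent.CR5
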