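import Pool.Agent.Lib.CR5.F.Sq

/-!
# CR5, block E: definitions and basic facts

Iterated partial derivatives `pdL I f` along lists, sums `sL n F` over the lists of length `n`,
first order operators `FO c d`, their commutators `cm P I` with `pdL I`.
-/

open MeasureTheory Set Filter Topology
open scoped ENNReal ComplexConjugate

noncomputable section

namespace Pool.Agent.CR5

/-! ### Definitions -/

/-- Iterated partial derivatives: `pdL [k₁, …, k_n] f = ∂_{k_n} ⋯ ∂_{k₁} f`. -/
def pdL : List (Fin 5) → (E5 → ℂ) → E5 → ℂ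
  | [], f => f
  | k :: I, f => pdL I (pd k f)

/-- Sum over all lists of length `n`. -/
def sL : ℕ → (List (Fin 5) → ℝ) → ℝ
  | 0, F => F []
  | n + 1, F => ∑ k : Fin 5, sL n fun I => F (k :: I)

/-- The sum of `gr a (∂^I f)` over all lists `I` of length `n`. -/
def gq (a : Str) (n : ℕ) (f : E5 → ℂ) : E5 → ℝ := fun x => sL n fun I => gr a (pdL I f) x

/-- The sum of the squares of all derivatives up to the order `n`. -/
def sqs (n : ℕ) (f : E5 → ℂ) : E5 → ℝ := fun x => ∑ i ∈ Finset.range (n + 1), sq i f x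

/-- First order operator with coefficients `c k` and zero order coefficient `d`. -/
def FO (c : Fin 5 → E5 → ℂ) (d : E5 → ℂ) (f : E5 → ℂ) : E5 → ℂ := fun x =>
  ∑ k, c k x * pd k f x + d x * f x

/-- The commutator of `∂^I` and the operator `P`. -/
def cm (P : (E5 → ℂ) → E5 → ℂ) (I : List (Fin 5)) (f : E5 → ℂ) : E5 → ℂ := fun x =>
  pdL I (P f) x - P (pdL I f) x

/-- The derivatives of `c` up to the order `n` are at most `B` in the unit ball. -/
def Bd (n : ℕ) (B : ℝ) (c : E5 → ℂ) : Prop :=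
  ∀ i ≤ n, ∀ x ∈ Metric.ball (0 : E5) 1, sq i c x ≤ B ^ 2

/-- `P` is a first order operator with smooth coefficients, whose derivatives up to the order `n`
are at most `B` in the unit ball. -/
def OpB (n : ℕ) (B : ℝ) (P : (E5 → ℂ) → E5 → ℂ) : Prop :=
  ∃ (c : Fin 5 → E5 → ℂ) (d : E5 → ℂ), (∀ k, Sm (c k)) ∧ Sm d ∧ (∀ k, Bd n B (c k)) ∧ Bd n B d ∧
    ∀ f, Sm f → P f = FO c d f

/-- Bounds for the derivatives of the coefficients of a structure. -/
def BdS (n : ℕ) (B : ℝ) (a : Str) : Prop :=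
  ∀ j l i, i ≤ n → ∀ x, sq i (fun y => a j l y - a0 j l y) x ≤ B ^ 2

/-- A real cutoff function supported in `Ω` with values in `[0, 1]` and gradient at most `B`. -/
structure Cof (ζ : E5 → ℝ) (Ω : Set E5) (B : ℝ) : Prop where
  sm : ContDiff ℝ (⊤ : ℕ∞) ζ
  cs : HasCompactSupport ζ
  sub : tsupport ζ ⊆ Ω
  nn : ∀ x, 0 ≤ ζ x
  le : ∀ x, ζ x ≤ 1
  gd : ∀ k x, ‖pd k (fun y => (ζ y : ℂ)) x‖ ≤ B

/-! ### Sums over lists -/

theorem sL_mono {n : ℕ} : ∀ {F G : List (Fin 5) → ℝ},
    (∀ I, I.length = n → F I ≤ G I) → sL n F ≤ sL n G := by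
  induction n with
  | zero => intro F G h; exact h [] rfl
  | succ n ih =>
    intro F G h
    exact Finset.sum_le_sum fun k _ => ih fun I hI => h (k :: I) (by simp [hI])

theorem sL_congr {n : ℕ} {F G : List (Fin 5) → ℝ}
    (h : ∀ I, I.length = n → F I = G I) : sL n F = sL n G :=
  le_antisymm (sL_mono fun I hI => (h I hI).le) (sL_mono fun I hI => (h I hI).ge)

theorem sL_const (n : ℕ) (c : ℝ) : sL n (fun _ => c) = 5 ^ n * c := by
  induction n with
  | zero => simp [sL]
  | succ n ih =>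
    simp only [sL, ih, Finset.sum_const, Finset.card_univ, Fintype.card_fin, nsmul_eq_mul]
    push_cast; ring

theorem sL_nonneg {n : ℕ} {F : List (Fin 5) → ℝ} (h : ∀ I, I.length = n → 0 ≤ F I) :
    0 ≤ sL n F := by
  have := sL_mono (n := n) (F := fun _ => (0 : ℝ)) (G := F) h
  rwa [sL_const, mul_zero] at this

theorem sL_le_const {n : ℕ} {F : List (Fin 5) → ℝ} {c : ℝ} (h : ∀ I, I.length = n → F I ≤ c) :
    sL n F ≤ 5 ^ n * c := by
  rw [← sL_const]; exact sL_mono h

theorem sL_add (n : ℕ) : ∀ F G : List (Fin 5) → ℝ,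
    sL n (fun I => F I + G I) = sL n F + sL n G := by
  induction n with
  | zero => intro F G; rfl
  | succ n ih => intro F G; simp only [sL, ih, Finset.sum_add_distrib]

theorem sL_mul_left (n : ℕ) (c : ℝ) : ∀ F : List (Fin 5) → ℝ,
    sL n (fun I => c * F I) = c * sL n F := by
  induction n with
  | zero => intro F; rfl
  | succ n ih => intro F; simp only [sL, ih, Finset.mul_sum]

theorem sL_sum (n : ℕ) {ι : Type*} (s : Finset ι) : ∀ F : ι → List (Fin 5) → ℝ,
    sL n (fun I => ∑ i ∈ s, F i I) = ∑ i ∈ s, sL n (F i) := by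
  induction n with
  | zero => intro F; rfl
  | succ n ih =>
    intro F
    simp only [sL, ih]
    exact Finset.sum_comm

theorem le_sL {n : ℕ} : ∀ {F : List (Fin 5) → ℝ}, (∀ I, I.length = n → 0 ≤ F I) →
    ∀ {I : List (Fin 5)}, I.length = n → F I ≤ sL n F := by
  induction n with
  | zero =>
    intro F _ I hI
    rw [List.length_eq_zero_iff.1 hI]
    rfl
  | succ n ih =>
    intro F h I hI
    obtain ⟨k, J, rfl⟩ : ∃ k J, I = k :: J := by
      cases I with
      | nil => simp at hI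
      | cons k J => exact ⟨k, J, rfl⟩
    have hJ : J.length = n := by simpa using hI
    refine (ih (F := fun J => F (k :: J)) (fun J' hJ' => h _ (by simp [hJ'])) hJ).trans ?_
    exact Finset.single_le_sum
      (f := fun k => sL n fun J => F (k :: J))
      (fun k' _ => sL_nonneg fun J' hJ' => h _ (by simp [hJ'])) (Finset.mem_univ k)

theorem sL_continuous {X : Type*} [TopologicalSpace X] (n : ℕ) : ∀ {F : List (Fin 5) → X → ℝ},
    (∀ I, Continuous (F I)) → Continuous fun x => sL n fun I => F I x := by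
  induction n with
  | zero => intro F h; exact h []
  | succ n ih =>
    intro F h
    exact continuous_finsetSum _ fun k _ => ih fun I => h (k :: I)

theorem integrable_sL {μ : Measure E5} (n : ℕ) : ∀ {F : List (Fin 5) → E5 → ℝ},
    (∀ I, I.length = n → Integrable (F I) μ) → Integrable (fun x => sL n fun I => F I x) μ := by
  induction n with
  | zero => intro F h; exact h [] rfl
  | succ n ih =>
    intro F h
    exact integrable_finsetSum _ fun k _ => ih fun I hI => h (k :: I) (by simp [hI])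

theorem integral_sL {μ : Measure E5} (n : ℕ) : ∀ {F : List (Fin 5) → E5 → ℝ},
    (∀ I, I.length = n → Integrable (F I) μ) →
      ∫ x, sL n (fun I => F I x) ∂μ = sL n fun I => ∫ x, F I x ∂μ := by
  induction n with
  | zero => intro F h; rfl
  | succ n ih =>
    intro F h
    simp only [sL]
    rw [integral_finsetSum _ fun k _ => integrable_sL n fun I hI => h (k :: I) (by simp [hI])]
    exact Finset.sum_congr rfl fun k _ => ih fun I hI => h (k :: I) (by simp [hI])

/-! ### Iterated derivatives -/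

theorem Sm.pdL {f : E5 → ℂ} (hf : Sm f) : ∀ I : List (Fin 5), Sm (pdL I f) := by
  intro I
  induction I generalizing f with
  | nil => exact hf
  | cons k I ih => exact ih (hf.pd k)

theorem pdL_pd {f : E5 → ℂ} (hf : Sm f) (k : Fin 5) : ∀ I : List (Fin 5),
    pdL I (pd k f) = pd k (pdL I f) := by
  intro I
  induction I generalizing f with
  | nil => rfl
  | cons l I ih =>
    show pdL I (pd l (pd k f)) = pd k (pdL I (pd l f))
    rw [← ih (hf.pd l)]
    congr 1
    funext x
    exact pd_comm hf l k x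

theorem pdL_append (I J : List (Fin 5)) (f : E5 → ℂ) : pdL (I ++ J) f = pdL J (pdL I f) := by
  induction I generalizing f with
  | nil => rfl
  | cons k I ih => exact ih (pd k f)

theorem pdL_add {f g : E5 → ℂ} (hf : Sm f) (hg : Sm g) (I : List (Fin 5)) (x : E5) :
    pdL I (fun y => f y + g y) x = pdL I f x + pdL I g x := by
  induction I generalizing f g with
  | nil => rfl
  | cons k I ih =>
    show pdL I (pd k fun y => f y + g y) x = _
    have e : pd k (fun y => f y + g y) = fun y => pd k f y + pd k g y := by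
      funext y; exact pd_add hf hg k y
    rw [e, ih (hf.pd k) (hg.pd k)]
    rfl

theorem pdL_sub {f g : E5 → ℂ} (hf : Sm f) (hg : Sm g) (I : List (Fin 5)) (x : E5) :
    pdL I (fun y => f y - g y) x = pdL I f x - pdL I g x := by
  induction I generalizing f g with
  | nil => rfl
  | cons k I ih =>
    show pdL I (pd k fun y => f y - g y) x = _
    have e : pd k (fun y => f y - g y) = fun y => pd k f y - pd k g y := by
      funext y; exact pd_sub hf hg k y
    rw [e, ih (hf.pd k) (hg.pd k)]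
    rfl

theorem pdL_const_mul {f : E5 → ℂ} (hf : Sm f) (c : ℂ) (I : List (Fin 5)) (x : E5) :
    pdL I (fun y => c * f y) x = c * pdL I f x := by
  induction I generalizing f with
  | nil => rfl
  | cons k I ih =>
    show pdL I (pd k fun y => c * f y) x = _
    have e : pd k (fun y => c * f y) = fun y => c * pd k f y := by
      funext y; exact pd_const_mul hf c k y
    rw [e, ih (hf.pd k)]
    rfl

theorem pdL_neg {f : E5 → ℂ} (hf : Sm f) (I : List (Fin 5)) (x : E5) :
    pdL I (fun y => -f y) x = -pdL I f x := by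
  have e : (fun y => -f y) = fun y => (-1 : ℂ) * f y := by funext y; ring
  rw [e, pdL_const_mul hf]; ring

theorem pdL_zero (I : List (Fin 5)) (x : E5) : pdL I (fun _ => 0) x = 0 := by
  induction I with
  | nil => rfl
  | cons k I ih =>
    show pdL I (pd k fun _ => 0) x = 0
    have e : pd k (fun _ : E5 => (0 : ℂ)) = fun _ => 0 := by funext y; exact pd_const 0 k y
    rw [e, ih]

theorem pdL_sum {ι : Type*} (s : Finset ι) {f : ι → E5 → ℂ} (hf : ∀ i ∈ s, Sm (f i))
    (I : List (Fin 5)) (x : E5) :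
    pdL I (fun y => ∑ i ∈ s, f i y) x = ∑ i ∈ s, pdL I (f i) x := by
  classical
  induction s using Finset.induction_on with
  | empty => simpa using pdL_zero I x
  | insert i s hi ih =>
    simp only [Finset.sum_insert hi]
    rw [pdL_add (hf i (Finset.mem_insert_self i s))
      (Sm.sum s fun k hk => hf k (Finset.mem_insert_of_mem hk)),
      ih fun k hk => hf k (Finset.mem_insert_of_mem hk)]

/-- The derivatives at the points of an open set depend only on the values there. -/
theorem pdL_congr {Ω : Set E5} (hΩ : IsOpen Ω) {f g : E5 → ℂ} (h : ∀ x ∈ Ω, f x = g x)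
    (I : List (Fin 5)) : ∀ x ∈ Ω, pdL I f x = pdL I g x := by
  induction I generalizing f g with
  | nil => exact h
  | cons k I ih =>
    refine ih (f := pd k f) (g := pd k g) fun x hx => ?_
    show fderiv ℝ f x (e5 k) = fderiv ℝ g x (e5 k)
    have : f =ᶠ[𝓝 x] g := by
      filter_upwards [hΩ.mem_nhds hx] with y hy using h y hy
    rw [this.fderiv_eq]

theorem sq_eq_sL (n : ℕ) : ∀ (f : E5 → ℂ) (x : E5), sq n f x = sL n fun I => ‖pdL I f x‖ ^ 2 := by
  induction n with
  | zero => intro f x; rfl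
  | succ n ih =>
    intro f x
    show ∑ k : Fin 5, sq n (pd k f) x = _
    simp only [ih]
    rfl

theorem gr_nonneg (a : Str) (f : E5 → ℂ) (x : E5) : 0 ≤ gr a f x :=
  Finset.sum_nonneg fun _ _ => by positivity

theorem gq_nonneg (a : Str) (n : ℕ) (f : E5 → ℂ) (x : E5) : 0 ≤ gq a n f x :=
  sL_nonneg fun _ _ => gr_nonneg _ _ _

theorem gq_succ (a : Str) (n : ℕ) (f : E5 → ℂ) (x : E5) :
    gq a (n + 1) f x = ∑ k, gq a n (pd k f) x := rfl

theorem gq_zero (a : Str) (f : E5 → ℂ) (x : E5) : gq a 0 f x = gr a f x := rfl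

theorem sqs_nonneg (n : ℕ) (f : E5 → ℂ) (x : E5) : 0 ≤ sqs n f x :=
  Finset.sum_nonneg fun _ _ => sq_nonneg' _ _ _

theorem sq_le_sqs {i n : ℕ} (h : i ≤ n) (f : E5 → ℂ) (x : E5) : sq i f x ≤ sqs n f x :=
  Finset.single_le_sum (f := fun i => sq i f x) (fun _ _ => sq_nonneg' _ _ _)
    (Finset.mem_range.2 (Nat.lt_succ_of_le h))

theorem sqs_mono {n m : ℕ} (h : n ≤ m) (f : E5 → ℂ) (x : E5) : sqs n f x ≤ sqs m f x :=
  Finset.sum_le_sum_of_subset_of_nonneg
    (Finset.range_subset_range.2 (Nat.succ_le_succ h)) fun _ _ _ => sq_nonneg' _ _ _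

theorem sqs_succ (n : ℕ) (f : E5 → ℂ) (x : E5) :
    sqs (n + 1) f x = sqs n f x + sq (n + 1) f x := Finset.sum_range_succ _ _

/-- A single derivative is bounded by `sq`. -/
theorem norm_pdL_sq_le {f : E5 → ℂ} {I : List (Fin 5)} {n : ℕ} (h : I.length = n) (x : E5) :
    ‖pdL I f x‖ ^ 2 ≤ sq n f x := by
  rw [sq_eq_sL]
  exact le_sL (F := fun I => ‖pdL I f x‖ ^ 2) (fun _ _ => by positivity) h

theorem sq_cont {f : E5 → ℂ} (hf : Sm f) (n : ℕ) : Continuous (sq n f) := by
  have e : sq n f = fun x => sL n fun I => ‖pdL I f x‖ ^ 2 := by funext x; exact sq_eq_sL n f x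
  rw [e]
  exact sL_continuous (F := fun I x => ‖pdL I f x‖ ^ 2) n fun I => ((hf.pdL I).cont.norm).pow 2

theorem gr_cont {a : Str} (ha : SmS a) {f : E5 → ℂ} (hf : Sm f) : Continuous (gr a f) :=
  continuous_finsetSum _ fun j _ =>
    (((hf.L ha j).cont.norm).pow 2).add (((hf.Lb ha j).cont.norm).pow 2)

theorem gq_cont {a : Str} (ha : SmS a) {f : E5 → ℂ} (hf : Sm f) (n : ℕ) :
    Continuous (gq a n f) :=
  sL_continuous (F := fun I x => gr a (pdL I f) x) n fun I => gr_cont ha (hf.pdL I)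

theorem sqs_cont {f : E5 → ℂ} (hf : Sm f) (n : ℕ) : Continuous (sqs n f) :=
  continuous_finsetSum _ fun i _ => sq_cont hf i

/-- A continuous function is integrable on a subset of the unit ball. -/
theorem intOn_of_cont {g : E5 → ℝ} (hg : Continuous g) {Ω : Set E5}
    (h : Ω ⊆ Metric.ball 0 1) : IntegrableOn g Ω volume :=
  ((hg.continuousOn).integrableOn_compact (isCompact_closedBall (0 : E5) 1)).mono_set
    (h.trans Metric.ball_subset_closedBall)

/-! ### Monotonicity of the hypotheses -/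

theorem Near.mono {a : Str} {m m' : ℕ} {ε ε' : ℝ} (h : Near a m ε) (hm : m' ≤ m) (h0 : 0 ≤ ε)
    (he : ε ≤ ε') : Near a m' ε' :=
  ⟨h.sm, h.out, fun j l i hi x => (h.bd j l i (hi.trans hm) x).trans
    (pow_le_pow_left₀ h0 he 2)⟩

theorem BdS.mono {a : Str} {n n' : ℕ} {B : ℝ} (h : BdS n B a) (hn : n' ≤ n) : BdS n' B a :=
  fun j l i hi x => h j l i (hi.trans hn) x

theorem Near.bdS {a : Str} {m : ℕ} {ε : ℝ} (h : Near a m ε) : BdS m ε a := h.bd

theorem OpB.mono {n n' : ℕ} {B : ℝ} {P : (E5 → ℂ) → E5 → ℂ} (h : OpB n B P) (hn : n' ≤ n) :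
    OpB n' B P := by
  obtain ⟨c, d, h1, h2, h3, h4, h5⟩ := h
  exact ⟨c, d, h1, h2, fun k i hi x hx => h3 k i (hi.trans hn) x hx,
    fun i hi x hx => h4 i (hi.trans hn) x hx, h5⟩

theorem Cof.mono {ζ : E5 → ℝ} {Ω Ω' : Set E5} {B B' : ℝ} (h : Cof ζ Ω B) (hΩ : Ω ⊆ Ω')
    (hB : B ≤ B') : Cof ζ Ω' B' :=
  ⟨h.sm, h.cs, h.sub.trans hΩ, h.nn, h.le, fun k x => (h.gd k x).trans hB⟩

/-! ### Cutoff functions -/

theorem Cof.smC {ζ : E5 → ℝ} {Ω : Set E5} {B : ℝ} (h : Cof ζ Ω B) :
    Sm fun x => (ζ x : ℂ) := Sm.ofReal h.sm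

theorem Cof.tst {ζ : E5 → ℝ} {Ω : Set E5} {B : ℝ} (h : Cof ζ Ω B) :
    Tst fun x => (ζ x : ℂ) :=
  ⟨h.smC, h.cs.comp_left (g := fun r : ℝ => (r : ℂ)) Complex.ofReal_zero⟩

theorem Cof.zero {ζ : E5 → ℝ} {Ω : Set E5} {B : ℝ} (h : Cof ζ Ω B) {x : E5} (hx : x ∉ Ω) :
    ζ x = 0 := by
  by_contra h0
  exact hx (h.sub (subset_tsupport _ h0))

/-- A continuous function times a power of the cutoff is integrable. -/
theorem Cof.intg {ζ : E5 → ℝ} {Ω : Set E5} {B : ℝ} (h : Cof ζ Ω B) {g : E5 → ℝ}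
    (hg : Continuous g) {n : ℕ} (hn : n ≠ 0) : Integrable (fun x => ζ x ^ n * g x) volume := by
  refine Continuous.integrable_of_hasCompactSupport ((h.sm.continuous.pow n).mul hg) ?_
  have h1 : HasCompactSupport fun x => ζ x ^ n :=
    h.cs.comp_left (g := fun r : ℝ => r ^ n) (by simp [hn])
  exact h1.mul_right

/-- Replacing the cutoff by one on `Ω`. -/
theorem Cof.le_setIntegral {ζ : E5 → ℝ} {Ω : Set E5} {B : ℝ} (h : Cof ζ Ω B) {g : E5 → ℝ}
    (hg : Continuous g) (h0 : ∀ x, 0 ≤ g x) (hΩ : MeasurableSet Ω) (hb : Ω ⊆ Metric.ball 0 1)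
    {n : ℕ} (hn : n ≠ 0) : ∫ x, ζ x ^ n * g x ≤ ∫ x in Ω, g x := by
  rw [← setIntegral_eq_integral_of_forall_compl_eq_zero (s := Ω)
    (f := fun x => ζ x ^ n * g x) (fun x hx => by simp [h.zero hx, hn])]
  refine setIntegral_mono_on (h.intg hg hn).integrableOn (intOn_of_cont hg hb) hΩ fun x _ => ?_
  calc ζ x ^ n * g x ≤ 1 * g x :=
        mul_le_mul_of_nonneg_right (pow_le_one₀ (h.nn x) (h.le x)) (h0 x)
    _ = g x := one_mul _

end Pool.Agent.CR5
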