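import Pool.Agent.Lib.CR5.E.Spec

/-!
# CR5, block E: `L`, `Lb`, `Ls` are first order operators with bounded coefficients
-/

set_option autoImplicit false

open MeasureTheory Set Filter Topology
open scoped ENNReal ComplexConjugate

noncomputable section

namespace Pool.Agent.CR5

namespace EOpAux

/-! ### `sq` -/

theorem sqa (i : ℕ) {f g : E5 → ℂ} (hf : Sm f) (hg : Sm g) (x : E5) :
    sq i (fun y => f y + g y) x ≤ 2 * (sq i f x + sq i g x) := by
  rw [sq_eq_sL, sq_eq_sL, sq_eq_sL, ← sL_add, ← sL_mul_left]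
  refine sL_mono fun I _ => ?_
  rw [pdL_add hf hg]
  have h1 := norm_add_le (pdL I f x) (pdL I g x)
  have h2 := norm_nonneg (pdL I f x + pdL I g x)
  nlinarith [sq_nonneg (‖pdL I f x‖ - ‖pdL I g x‖), norm_nonneg (pdL I f x),
    norm_nonneg (pdL I g x)]

theorem sqc (i : ℕ) {f : E5 → ℂ} (hf : Sm f) (c : ℂ) (x : E5) :
    sq i (fun y => c * f y) x = ‖c‖ ^ 2 * sq i f x := by
  rw [sq_eq_sL, sq_eq_sL, ← sL_mul_left]
  refine sL_congr fun I _ => ?_
  rw [pdL_const_mul hf, norm_mul, mul_pow]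

theorem pdL_cj {f : E5 → ℂ} (hf : Sm f) (I : List (Fin 5)) (x : E5) :
    pdL I (fun y => conj (f y)) x = conj (pdL I f x) := by
  induction I generalizing f with
  | nil => rfl
  | cons k I ih =>
    show pdL I (pd k fun y => conj (f y)) x = _
    have e : pd k (fun y => conj (f y)) = fun y => conj (pd k f y) := by
      funext y; exact pd_conj hf k y
    rw [e, ih (hf.pd k)]
    rfl

theorem sqj (i : ℕ) {f : E5 → ℂ} (hf : Sm f) (x : E5) :
    sq i (fun y => conj (f y)) x = sq i f x := by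
  rw [sq_eq_sL, sq_eq_sL]
  refine sL_congr fun I _ => ?_
  rw [pdL_cj hf, RCLike.norm_conj]

theorem sqp (i : ℕ) (f : E5 → ℂ) (k : Fin 5) (x : E5) : sq i (pd k f) x ≤ sq (i + 1) f x :=
  Finset.single_le_sum (f := fun k => sq i (pd k f) x) (fun _ _ => sq_nonneg' i _ x)
    (Finset.mem_univ k)

/-! ### families of coefficients with uniform bounds -/

/-- uniform bounds for the derivatives up to the order `m` in the unit ball -/
def Gd (N : ℕ) (B : ℝ) (m : ℕ) (F : Str → E5 → ℂ) : Prop :=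
  ∃ M : ℝ, ∀ a, SmS a → BdS N B a → Sm (F a) ∧
    ∀ i ≤ m, ∀ x ∈ Metric.ball (0 : E5) 1, sq i (F a) x ≤ M

variable {N : ℕ} {B : ℝ} {m : ℕ} {F G : Str → E5 → ℂ}

theorem Gd.add (hF : Gd N B m F) (hG : Gd N B m G) : Gd N B m fun a x => F a x + G a x := by
  obtain ⟨M, hM⟩ := hF
  obtain ⟨M', hM'⟩ := hG
  refine ⟨2 * (M + M'), fun a ha hb => ⟨(hM a ha hb).1.add (hM' a ha hb).1, fun i hi x hx => ?_⟩⟩
  have h1 := sqa i (hM a ha hb).1 (hM' a ha hb).1 x
  have h2 := (hM a ha hb).2 i hi x hx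
  have h3 := (hM' a ha hb).2 i hi x hx
  linarith

theorem Gd.cmul (hF : Gd N B m F) (c : ℂ) : Gd N B m fun a x => c * F a x := by
  obtain ⟨M, hM⟩ := hF
  refine ⟨‖c‖ ^ 2 * M, fun a ha hb => ⟨(Sm.const c).mul (hM a ha hb).1, fun i hi x hx => ?_⟩⟩
  rw [sqc i (hM a ha hb).1]
  exact mul_le_mul_of_nonneg_left ((hM a ha hb).2 i hi x hx) (sq_nonneg _)

theorem Gd.neg (hF : Gd N B m F) : Gd N B m fun a x => -F a x := by
  have h := hF.cmul (-1)
  have e : (fun (a : Str) (x : E5) => (-1 : ℂ) * F a x) = fun a x => -F a x := by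
    funext a x; ring
  rwa [e] at h

theorem Gd.cj (hF : Gd N B m F) : Gd N B m fun a x => conj (F a x) := by
  obtain ⟨M, hM⟩ := hF
  refine ⟨M, fun a ha hb => ⟨(hM a ha hb).1.conj, fun i hi x hx => ?_⟩⟩
  rw [sqj i (hM a ha hb).1]
  exact (hM a ha hb).2 i hi x hx

theorem Gd.pd (hF : Gd N B (m + 1) F) (k : Fin 5) : Gd N B m fun a => pd k (F a) := by
  obtain ⟨M, hM⟩ := hF
  exact ⟨M, fun a ha hb => ⟨(hM a ha hb).1.pd k, fun i hi x hx =>
    (sqp i (F a) k x).trans ((hM a ha hb).2 (i + 1) (by omega) x hx)⟩⟩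

theorem Gd.mono (hF : Gd N B m F) {m' : ℕ} (h : m' ≤ m) : Gd N B m' F := by
  obtain ⟨M, hM⟩ := hF
  exact ⟨M, fun a ha hb => ⟨(hM a ha hb).1, fun i hi x hx =>
    (hM a ha hb).2 i (hi.trans h) x hx⟩⟩

/-- a fixed smooth function -/
theorem Gd.fix {f : E5 → ℂ} (hf : Sm f) : Gd N B m fun _ => f := by
  obtain ⟨M, hM⟩ := (isCompact_closedBall (0 : E5) 1).exists_bound_of_continuousOn
    (sqs_cont hf m).continuousOn
  refine ⟨M, fun a _ _ => ⟨hf, fun i hi x hx => ?_⟩⟩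
  have h1 := hM x (Metric.ball_subset_closedBall hx)
  rw [Real.norm_eq_abs] at h1
  exact (sq_le_sqs hi f x).trans ((le_abs_self _).trans h1)

theorem Gd.coef (j : Fin 2) (l : Fin 3) : Gd N B N fun a => a j l := by
  obtain ⟨M, hM⟩ := Gd.fix (N := N) (B := B) (m := N) (smS_a0 j l)
  refine ⟨2 * (B ^ 2 + M), fun a ha hb => ⟨ha j l, fun i hi x hx => ?_⟩⟩
  have e : a j l = fun y => (a j l y - a0 j l y) + a0 j l y := by funext y; ring
  have h1 := sqa i ((ha j l).sub (smS_a0 j l)) (smS_a0 j l) x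
  have h2 := hb j l i hi x
  have h3 : sq i (a0 j l) x ≤ M := (hM a ha hb).2 i hi x hx
  show sq i (a j l) x ≤ _
  rw [e]
  linarith

theorem Gd.db (hF : Gd N B (m + 1) F) (l : Fin 3) : Gd N B m fun a => db l (F a) := by
  rcases fin3_cases l with rfl | rfl | rfl
  · have e : (fun a : Str => CR5.db 0 (F a)) = fun a x =>
        (1 / 2 : ℂ) * (CR5.pd 0 (F a) x + Complex.I * CR5.pd 1 (F a) x) := by
      funext a x; rw [db_zero]; ring
    rw [e]
    exact ((hF.pd 0).add ((hF.pd 1).cmul _)).cmul _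
  · have e : (fun a : Str => CR5.db 1 (F a)) = fun a x =>
        (1 / 2 : ℂ) * (CR5.pd 2 (F a) x + Complex.I * CR5.pd 3 (F a) x) := by
      funext a x; rw [db_one]; ring
    rw [e]
    exact ((hF.pd 2).add ((hF.pd 3).cmul _)).cmul _
  · have e : (fun a : Str => CR5.db 2 (F a)) = fun a => CR5.pd 4 (F a) := by
      funext a x; rw [db_two]
    rw [e]
    exact hF.pd 4

theorem gd_dv (j : Fin 2) : Gd (m + 1) B m fun a => dv a j := by
  have e : (fun a : Str => dv a j) = fun a x => (CR5.db 0 (fun y => conj (a j 0 y)) x +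
      CR5.db 1 (fun y => conj (a j 1 y)) x) + CR5.db 2 (fun y => conj (a j 2 y)) x := by
    funext a x
    unfold dv
    rw [Fin.sum_univ_three]
  rw [e]
  exact (((Gd.coef j 0).cj.db 0).add ((Gd.coef j 1).cj.db 1)).add ((Gd.coef j 2).cj.db 2)

/-! ### the coefficients -/

/-- constant parts -/
def uu (j : Fin 2) (k : Fin 5) : ℂ :=
  (![![1 / 2, Complex.I / 2, 0, 0, 0], ![0, 0, 1 / 2, Complex.I / 2, 0]] : Fin 2 → Fin 5 → ℂ) j k

/-- factors -/
def vv (k : Fin 5) : ℂ :=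
  (![1 / 2, -Complex.I / 2, 1 / 2, -Complex.I / 2, 1] : Fin 5 → ℂ) k

/-- indices -/
def ll (k : Fin 5) : Fin 3 := (![0, 0, 1, 1, 2] : Fin 5 → Fin 3) k

/-- the coefficients of `L` -/
def cL (j : Fin 2) (k : Fin 5) (a : Str) : E5 → ℂ := fun x => uu j k + vv k * a j (ll k) x

theorem L_FO (a : Str) (j : Fin 2) (f : E5 → ℂ) :
    L a j f = FO (fun k => cL j k a) (fun _ => 0) f := by
  funext x
  unfold FO L cL
  rw [Fin.sum_univ_three, Fin.sum_univ_five, dz_zero, dz_one, dz_two]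
  fin_cases j
  · show db 0 f x + _ = _
    rw [db_zero]
    simp [uu, vv, ll]
    ring
  · show db 1 f x + _ = _
    rw [db_one]
    simp [uu, vv, ll]
    ring

theorem Lb_FO (a : Str) (j : Fin 2) (f : E5 → ℂ) :
    Lb a j f = FO (fun k x => conj (cL j k a x)) (fun _ => 0) f := by
  funext x
  unfold FO Lb cL
  rw [Fin.sum_univ_three, Fin.sum_univ_five, db_zero, db_one, db_two]
  fin_cases j
  · show dz 0 f x + _ = _
    rw [dz_zero]
    simp [uu, vv, ll, map_ofNat]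
    ring
  · show dz 1 f x + _ = _
    rw [dz_one]
    simp [uu, vv, ll, map_ofNat]
    ring

theorem gd_cL (n : ℕ) (j : Fin 2) (k : Fin 5) : Gd (n + 1) B n (cL j k) :=
  (Gd.fix (Sm.const (uu j k))).add (((Gd.coef j (ll k)).cmul (vv k)).mono (by omega))

/-- from families to operators -/
theorem mk {n : ℕ} {P : Str → (E5 → ℂ) → E5 → ℂ} {c : Fin 5 → Str → E5 → ℂ} {d : Str → E5 → ℂ}
    (hc : ∀ k, Gd (n + 1) B n (c k)) (hd : Gd (n + 1) B n d)
    (hP : ∀ a, SmS a → ∀ f, Sm f → P a f = FO (fun k => c k a) (d a) f) :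
    ∃ B₀ : ℝ, 0 ≤ B₀ ∧ ∀ B', B₀ ≤ B' → ∀ a, SmS a → BdS (n + 1) B a → OpB n B' (P a) := by
  choose M hM using hc
  obtain ⟨M', hM'⟩ := hd
  have hs : ∀ k, |M k| ≤ ∑ k, |M k| := fun k =>
    Finset.single_le_sum (f := fun k => |M k|) (fun _ _ => abs_nonneg _) (Finset.mem_univ k)
  have hs0 : 0 ≤ ∑ k, |M k| := Finset.sum_nonneg fun _ _ => abs_nonneg _
  refine ⟨1 + ∑ k, |M k| + |M'|, by positivity, fun B' hB' a ha hb => ?_⟩
  have h0 := abs_nonneg M'
  have h1 : ∀ t : ℝ, t ≤ B' → t ≤ B' ^ 2 := fun t ht => by nlinarith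
  refine ⟨fun k => c k a, d a, fun k => (hM k a ha hb).1, (hM' a ha hb).1, fun k i hi x hx => ?_,
    fun i hi x hx => ?_, hP a ha⟩
  · refine ((hM k a ha hb).2 i hi x hx).trans (h1 _ ?_)
    linarith [hs k, le_abs_self (M k)]
  · refine ((hM' a ha hb).2 i hi x hx).trans (h1 _ ?_)
    linarith [le_abs_self M']

end EOpAux

open EOpAux in
/-- **EOp.** -/
theorem pEOp : S_EOp := by
  intro n B
  have z : Gd (n + 1) B n fun _ _ => (0 : ℂ) := Gd.fix (Sm.const 0)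
  have h1 : ∀ j : Fin 2, ∃ B₀ : ℝ, 0 ≤ B₀ ∧ ∀ B', B₀ ≤ B' → ∀ a, SmS a → BdS (n + 1) B a →
      OpB n B' (L a j) := fun j =>
    mk (fun k => gd_cL n j k) z fun a _ f _ => L_FO a j f
  have h2 : ∀ j : Fin 2, ∃ B₀ : ℝ, 0 ≤ B₀ ∧ ∀ B', B₀ ≤ B' → ∀ a, SmS a → BdS (n + 1) B a →
      OpB n B' (Lb a j) := fun j =>
    mk (fun k => (gd_cL n j k).cj) z fun a _ f _ => Lb_FO a j f
  have h3 : ∀ j : Fin 2, ∃ B₀ : ℝ, 0 ≤ B₀ ∧ ∀ B', B₀ ≤ B' → ∀ a, SmS a → BdS (n + 1) B a →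
      OpB n B' (Ls a j) := fun j =>
    mk (fun k => (gd_cL n j k).cj.neg) (gd_dv j).neg fun a ha f hf => by
      funext x
      rw [Ls_eq ha hf, Lb_FO]
      unfold FO
      rw [Fin.sum_univ_five, Fin.sum_univ_five]
      ring
  choose b1 p1 q1 using h1
  choose b2 p2 q2 using h2
  choose b3 p3 q3 using h3
  refine ⟨(b1 0 + b1 1) + (b2 0 + b2 1) + (b3 0 + b3 1), fun a ha hb j => ?_⟩
  have e : ∀ b : Fin 2 → ℝ, (∀ j, 0 ≤ b j) → b j ≤ b 0 + b 1 := by
    intro b hb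
    fin_cases j
    · show b 0 ≤ _
      linarith [hb 1]
    · show b 1 ≤ _
      linarith [hb 0]
  have u1 := add_nonneg (p1 0) (p1 1)
  have u2 := add_nonneg (p2 0) (p2 1)
  have u3 := add_nonneg (p3 0) (p3 1)
  exact ⟨q1 j _ (by linarith [e b1 p1]) a ha hb, q2 j _ (by linarith [e b2 p2]) a ha hb,
    q3 j _ (by linarith [e b3 p3]) a ha hb⟩

end Pool.Agent.CR5
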