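import Pool.Agent.Lib.CR5.E.Spec

/-!
# CR5, block E, module EX (helper44): the energy inequality for all derivatives of order `m`
-/

set_option autoImplicit false

open MeasureTheory Set Filter Topology
open scoped ENNReal ComplexConjugate

noncomputable section

namespace Pool.Agent.CR5

namespace EXAux

theorem mono' {ζ : E5 → ℝ} {Ω : Set E5} {B : ℝ} (h : Cof ζ Ω B) {f g : E5 → ℝ}
    (hf : Continuous f) (hg : Continuous g) {n : ℕ} (hn : n ≠ 0)
    (hfg : ∀ x ∈ Ω, f x ≤ g x) : ∫ x, ζ x ^ n * f x ≤ ∫ x, ζ x ^ n * g x := by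
  refine integral_mono (h.intg hf hn) (h.intg hg hn) fun x => ?_
  by_cases hx : x ∈ Ω
  · exact mul_le_mul_of_nonneg_left (hfg x hx) (pow_nonneg (h.nn x) n)
  · simp [h.zero hx, hn]

theorem add' {ζ : E5 → ℝ} {Ω : Set E5} {B : ℝ} (h : Cof ζ Ω B) {f g : E5 → ℝ}
    (hf : Continuous f) (hg : Continuous g) {n : ℕ} (hn : n ≠ 0) :
    ∫ x, ζ x ^ n * (f x + g x) = (∫ x, ζ x ^ n * f x) + ∫ x, ζ x ^ n * g x := by
  simp only [mul_add]
  exact integral_add (h.intg hf hn) (h.intg hg hn)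

theorem smul' {ζ : E5 → ℝ} {f : E5 → ℝ} {n : ℕ} (c : ℝ) :
    ∫ x, ζ x ^ n * (c * f x) = c * ∫ x, ζ x ^ n * f x := by
  rw [← integral_const_mul]
  congr 1
  funext x
  ring

theorem nonneg' {ζ : E5 → ℝ} {Ω : Set E5} {B : ℝ} (h : Cof ζ Ω B) {f : E5 → ℝ}
    (hf : ∀ x, 0 ≤ f x) {n : ℕ} : 0 ≤ ∫ x, ζ x ^ n * f x :=
  integral_nonneg fun x => mul_nonneg (pow_nonneg (h.nn x) n) (hf x)

/-- the sum over the lists of length `m` -/
theorem sum_lists {ζ : E5 → ℝ} {Ω : Set E5} {B : ℝ} (h : Cof ζ Ω B) {m n : ℕ} (hn : n ≠ 0)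
    {F G : List (Fin 5) → E5 → ℝ} (hF : ∀ I, Continuous (F I)) (hG : ∀ I, Continuous (G I)) :
    ∫ x, ζ x ^ n * (sL m (fun I => F I x) + sL m (fun I => G I x))
      = sL m fun I => ∫ x, ζ x ^ n * (F I x + G I x) := by
  rw [← integral_sL m (F := fun I x => ζ x ^ n * (F I x + G I x))
    (fun I _ => h.intg ((hF I).add (hG I)) hn)]
  congr 1
  funext x
  rw [← sL_add, ← sL_mul_left]

/-- the final computation -/
theorem final {X Y T K B τ CE CB p : ℝ} (hY : 0 ≤ Y) (hT : 0 ≤ T) (hB : 1 ≤ B)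
    (hCE : 1 ≤ CE) (hCB : 1 ≤ CB) (hp : 1 ≤ p) (hK : K = p * CE * (2 * CB))
    (hτ : τ = 1 / (2 * K))
    (h : X ≤ p * (CE * (τ * (2 * CB * (T + Y + X)) + CB * (T + Y) + (B ^ 2 + 1 / τ) * Y))) :
    X ≤ (1 + 4 * K + 4 * K ^ 2) * (T + B ^ 2 * Y) := by
  have hpc : 1 ≤ p * CE := by nlinarith
  have hK1 : 2 ≤ K := by rw [hK]; nlinarith
  have hK0 : 0 < K := by linarith
  have hτ1 : 1 / τ = 2 * K := by rw [hτ]; field_simp
  have hpK : p * CE ≤ K := by rw [hK]; nlinarith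
  have hpK2 : p * CE * CB ≤ K := by rw [hK]; nlinarith [mul_nonneg (by linarith : 0 ≤ p * CE) (by linarith : (0:ℝ) ≤ CB)]
  have e1 : p * (CE * (τ * (2 * CB * (T + Y + X)) + CB * (T + Y) + (B ^ 2 + 1 / τ) * Y))
      = (K * τ) * (T + Y + X) + p * CE * CB * (T + Y) + p * CE * ((B ^ 2 + 2 * K) * Y) := by
    rw [hτ1, hK]; ring
  have e2 : K * τ = 1 / 2 := by rw [hτ]; field_simp
  rw [e1, e2] at h
  have hBB : 1 ≤ B ^ 2 := one_le_pow₀ hB
  have h1 : p * CE * CB * (T + Y) ≤ K * (T + Y) :=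
    mul_le_mul_of_nonneg_right hpK2 (by linarith)
  have h2 : p * CE * ((B ^ 2 + 2 * K) * Y) ≤ K * ((B ^ 2 + 2 * K) * Y) :=
    mul_le_mul_of_nonneg_right hpK (by positivity)
  have h3 : Y ≤ B ^ 2 * Y := by nlinarith
  have h4 : X ≤ (1 + 2 * K) * T + (1 + 2 * K + 4 * K ^ 2) * Y + 2 * K * (B ^ 2 * Y) := by
    nlinarith
  have h5 : (1 + 2 * K + 4 * K ^ 2) * Y ≤ (1 + 2 * K + 4 * K ^ 2) * (B ^ 2 * Y) :=
    mul_le_mul_of_nonneg_left h3 (by positivity)
  have h6 : (1 + 2 * K) * T ≤ (1 + 4 * K + 4 * K ^ 2) * T :=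
    mul_le_mul_of_nonneg_right (by nlinarith [sq_nonneg K]) hT
  calc X ≤ (1 + 2 * K) * T + (1 + 2 * K + 4 * K ^ 2) * Y + 2 * K * (B ^ 2 * Y) := h4
    _ ≤ (1 + 4 * K + 4 * K ^ 2) * T + (1 + 2 * K + 4 * K ^ 2) * (B ^ 2 * Y)
        + 2 * K * (B ^ 2 * Y) := by linarith
    _ = (1 + 4 * K + 4 * K ^ 2) * (T + B ^ 2 * Y) := by ring

end EXAux

open EXAux in
theorem pEX (hEn : S_EEn) (hEq : S_EEq) (hBd : S_EBd) : S_EX2 := by
  obtain ⟨ε, hε, CE, hCE, hEn⟩ := hEn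
  refine ⟨ε, hε, ?_⟩
  intro m M
  obtain ⟨CB, hCB, hBd⟩ := hBd m M
  have h5 : (1 : ℝ) ≤ 5 ^ m := one_le_pow₀ (by norm_num)
  have hpc : (1 : ℝ) ≤ 5 ^ m * CE := by nlinarith
  have hK1 : 2 ≤ 5 ^ m * CE * (2 * CB) := by nlinarith
  refine ⟨1 + 4 * (5 ^ m * CE * (2 * CB)) + 4 * (5 ^ m * CE * (2 * CB)) ^ 2, by nlinarith, ?_⟩
  intro a ha hb e he0 he1 Ω hΩ hΩb w f β b hw hf hβ hbs heq ζ B hζ hB
  have haS : SmS a := ha.smS
  have hΩm : MeasurableSet Ω := hΩ.measurableSet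
  -- the functions
  let D : E5 → ℝ := fun x => sqs m (f 0) x + sqs m (f 1) x + sqs m β x + sqs m b x
  let q : ℕ → E5 → ℝ := fun i x =>
    gq a i (w 0) x + gq a i (w 1) x + sq i (w 0) x + sq i (w 1) x
  let P : E5 → ℝ := fun x => D x + ∑ i ∈ Finset.range m, q i x
  let y : E5 → ℝ := fun x => sq m (w 0) x + sq m (w 1) x
  let g : E5 → ℝ := fun x => gq a m (w 0) x + gq a m (w 1) x
  have hDc : Continuous D := (((sqs_cont (hf 0) m).add (sqs_cont (hf 1) m)).add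
    (sqs_cont hβ m)).add (sqs_cont hbs m)
  have hqc : ∀ i, Continuous (q i) := fun i => (((gq_cont haS (hw 0) i).add
    (gq_cont haS (hw 1) i)).add (sq_cont (hw 0) i)).add (sq_cont (hw 1) i)
  have hsc : Continuous fun x => ∑ i ∈ Finset.range m, q i x :=
    continuous_finsetSum _ fun i _ => hqc i
  have hPc : Continuous P := hDc.add hsc
  have hyc : Continuous y := (sq_cont (hw 0) m).add (sq_cont (hw 1) m)
  have hPyc : Continuous fun x => P x + y x := hPc.add hyc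
  have hgc : Continuous g := (gq_cont haS (hw 0) m).add (gq_cont haS (hw 1) m)
  have hD0 : ∀ x, 0 ≤ D x := fun x => add_nonneg (add_nonneg (add_nonneg (sqs_nonneg _ _ _)
    (sqs_nonneg _ _ _)) (sqs_nonneg _ _ _)) (sqs_nonneg _ _ _)
  have hq0 : ∀ i x, 0 ≤ q i x := fun i x => add_nonneg (add_nonneg (add_nonneg (gq_nonneg _ _ _ _)
    (gq_nonneg _ _ _ _)) (sq_nonneg' _ _ _)) (sq_nonneg' _ _ _)
  have hP0 : ∀ x, 0 ≤ P x := fun x => add_nonneg (hD0 x) (Finset.sum_nonneg fun i _ => hq0 i x)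
  have hy0 : ∀ x, 0 ≤ y x := fun x => add_nonneg (sq_nonneg' _ _ _) (sq_nonneg' _ _ _)
  have hg0 : ∀ x, 0 ≤ g x := fun x => add_nonneg (gq_nonneg _ _ _ _) (gq_nonneg _ _ _ _)
  set T : ℝ := Dat m Ω f β b + Lo a m Ω w with hT
  set X : ℝ := ∫ x, ζ x ^ 4 * g x with hX
  set Y : ℝ := ∫ x, ζ x ^ 2 * y x with hY
  have hY0 : 0 ≤ Y := nonneg' hζ hy0
  have hw0 : 0 ≤ ∫ x in Ω, (‖w 0 x‖ ^ 2 + ‖w 1 x‖ ^ 2) :=
    integral_nonneg fun x => by positivity
  have hPT : ∫ x, ζ x ^ 4 * P x ≤ T := by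
    have h1 := hζ.le_setIntegral hPc hP0 hΩm hΩb (n := 4) (by norm_num)
    have h2 : ∫ x in Ω, P x = Dat m Ω f β b + ∑ i ∈ Finset.range m, Qo a i Ω w := by
      have h3 : ∫ x in Ω, P x = (∫ x in Ω, D x) + ∫ x in Ω, ∑ i ∈ Finset.range m, q i x :=
        integral_add (intOn_of_cont hDc hΩb) (intOn_of_cont hsc hΩb)
      have h4 : ∫ x in Ω, ∑ i ∈ Finset.range m, q i x
          = ∑ i ∈ Finset.range m, ∫ x in Ω, q i x :=
        integral_finsetSum _ fun i _ => intOn_of_cont (hqc i) hΩb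
      rw [h3, h4]
      rfl
    rw [h2] at h1
    rw [hT]
    unfold Lo
    linarith
  have hT0 : 0 ≤ T := le_trans (nonneg' hζ hP0) hPT
  have hy4 : ∫ x, ζ x ^ 4 * y x ≤ Y := by
    refine integral_mono (hζ.intg hyc (by norm_num)) (hζ.intg hyc (by norm_num)) fun x => ?_
    refine mul_le_mul_of_nonneg_right ?_ (hy0 x)
    exact pow_le_pow_of_le_one (hζ.nn x) (hζ.le x) (by norm_num)
  -- the sums of the functions
  have hWG : ∀ x, sqs m (f 0) x + sqs m (f 1) x + sqs m β x + sqs m b x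
      + sqs m (w 0) x + sqs m (w 1) x
      + ∑ i ∈ Finset.range (m + 1), (gq a i (w 0) x + gq a i (w 1) x) = P x + y x + g x := by
    intro x
    have h1 : sqs m (w 0) x + sqs m (w 1) x
        + ∑ i ∈ Finset.range (m + 1), (gq a i (w 0) x + gq a i (w 1) x)
        = ∑ i ∈ Finset.range (m + 1), q i x := by
      unfold sqs
      rw [← Finset.sum_add_distrib, ← Finset.sum_add_distrib]
      refine Finset.sum_congr rfl fun i _ => ?_
      show _ = gq a i (w 0) x + gq a i (w 1) x + sq i (w 0) x + sq i (w 1) x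
      ring
    have h2 : sqs m (f 0) x + sqs m (f 1) x + sqs m β x + sqs m b x
      + sqs m (w 0) x + sqs m (w 1) x
      + ∑ i ∈ Finset.range (m + 1), (gq a i (w 0) x + gq a i (w 1) x)
      = D x + ∑ i ∈ Finset.range (m + 1), q i x := by
      rw [← h1]
      show _ = (sqs m (f 0) x + sqs m (f 1) x + sqs m β x + sqs m b x) + _
      ring
    rw [h2, Finset.sum_range_succ]
    show _ = (D x + ∑ i ∈ Finset.range m, q i x) + (sq m (w 0) x + sq m (w 1) x)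
      + (gq a m (w 0) x + gq a m (w 1) x)
    show D x + (∑ i ∈ Finset.range m, q i x + (gq a m (w 0) x + gq a m (w 1) x + sq m (w 0) x
      + sq m (w 1) x)) = _
    ring
  have hW : ∀ x, sqs m β x + sqs m b x + sqs m (w 0) x + sqs m (w 1) x ≤ P x + y x := by
    intro x
    have h1 : sqs m (w 0) x + sqs m (w 1) x ≤ ∑ i ∈ Finset.range m, q i x + y x := by
      unfold sqs
      rw [← Finset.sum_add_distrib, Finset.sum_range_succ]
      refine add_le_add (Finset.sum_le_sum fun i _ => ?_) le_rfl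
      show _ ≤ gq a i (w 0) x + gq a i (w 1) x + sq i (w 0) x + sq i (w 1) x
      have := gq_nonneg a i (w 0) x
      have := gq_nonneg a i (w 1) x
      linarith
    have h2 := sqs_nonneg m (f 0) x
    have h3 := sqs_nonneg m (f 1) x
    show _ ≤ ((sqs m (f 0) x + sqs m (f 1) x + sqs m β x + sqs m b x)
      + ∑ i ∈ Finset.range m, q i x) + y x
    linarith
  have key : ∀ τ : ℝ, 0 < τ → τ ≤ 1 → ∀ I : List (Fin 5), I.length = m →
      ∫ x, ζ x ^ 4 * (gr a (pdL I (w 0)) x + gr a (pdL I (w 1)) x)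
        ≤ CE * (τ * (2 * CB * (T + Y + X)) + CB * (T + Y) + (B ^ 2 + 1 / τ) * Y) := by
    intro τ hτ0 hτ1 I hI
    obtain ⟨hR, hβI, hbI, hE⟩ := hEq a haS e Ω hΩ w f β b hw hf hβ hbs heq I
    have h1 := hEn a ha e he0 he1 Ω hΩ hΩb (fun j => pdL I (w j)) (RI a w f β b I)
      (βI a w β I) (bI a w b I) (fun j => (hw j).pdL I) hR hβI hbI hE ζ B hζ hB τ hτ0 hτ1
    have h2 : ∫ x, ζ x ^ 4 * (‖RI a w f β b I 0 x‖ ^ 2 + ‖RI a w f β b I 1 x‖ ^ 2)
        ≤ 2 * CB * (T + Y + X) := by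
      have h3 : ∫ x, ζ x ^ 4 * (‖RI a w f β b I 0 x‖ ^ 2 + ‖RI a w f β b I 1 x‖ ^ 2)
          ≤ ∫ x, ζ x ^ 4 * ((2 * CB) * (P x + y x + g x)) := by
        refine mono' hζ (((hR 0).cont.norm.pow 2).add ((hR 1).cont.norm.pow 2))
          (continuous_const.mul (hPyc.add hgc)) (by norm_num) fun x hx => ?_
        have h4 := (hBd a haS hb w f β b hw hf hβ hbs I hI x (hΩb hx)).2
        rw [hWG] at h4
        have h5 := h4 0
        have h6 := h4 1
        show ‖RI a w f β b I 0 x‖ ^ 2 + ‖RI a w f β b I 1 x‖ ^ 2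
          ≤ 2 * CB * (P x + y x + g x)
        linarith
      rw [smul', add' hζ hPyc hgc (by norm_num), add' hζ hPc hyc (by norm_num)] at h3
      refine h3.trans (mul_le_mul_of_nonneg_left ?_ (by linarith))
      linarith
    have h3 : ∫ x, ζ x ^ 4 * (‖βI a w β I x‖ ^ 2 + ‖bI a w b I x‖ ^ 2) ≤ CB * (T + Y) := by
      have h4 : ∫ x, ζ x ^ 4 * (‖βI a w β I x‖ ^ 2 + ‖bI a w b I x‖ ^ 2)
          ≤ ∫ x, ζ x ^ 4 * (CB * (P x + y x)) := by
        refine mono' hζ ((hβI.cont.norm.pow 2).add (hbI.cont.norm.pow 2))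
          (continuous_const.mul hPyc) (by norm_num) fun x hx => ?_
        have h5 := (hBd a haS hb w f β b hw hf hβ hbs I hI x (hΩb hx)).1
        exact h5.trans (mul_le_mul_of_nonneg_left (hW x) (by linarith))
      rw [smul', add' hζ hPc hyc (by norm_num)] at h4
      refine h4.trans (mul_le_mul_of_nonneg_left ?_ (by linarith))
      linarith
    have h4 : ∫ x, ζ x ^ 2 * (‖pdL I (w 0) x‖ ^ 2 + ‖pdL I (w 1) x‖ ^ 2) ≤ Y := by
      refine mono' hζ ((((hw 0).pdL I).cont.norm.pow 2).add (((hw 1).pdL I).cont.norm.pow 2))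
        hyc (by norm_num) fun x _ => ?_
      exact add_le_add (norm_pdL_sq_le hI x) (norm_pdL_sq_le hI x)
    refine h1.trans (mul_le_mul_of_nonneg_left ?_ (by linarith))
    refine add_le_add (add_le_add (mul_le_mul_of_nonneg_left h2 hτ0.le) h3)
      (mul_le_mul_of_nonneg_left h4 (by positivity))
  have hXs : X = sL m fun I => ∫ x, ζ x ^ 4 * (gr a (pdL I (w 0)) x + gr a (pdL I (w 1)) x) :=
    sum_lists hζ (by norm_num) (F := fun I x => gr a (pdL I (w 0)) x)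
      (G := fun I x => gr a (pdL I (w 1)) x)
      (fun I => gr_cont haS ((hw 0).pdL I)) (fun I => gr_cont haS ((hw 1).pdL I))
  have hτ0 : 0 < 1 / (2 * (5 ^ m * CE * (2 * CB))) := by positivity
  have hτ1 : 1 / (2 * (5 ^ m * CE * (2 * CB))) ≤ 1 := by
    rw [div_le_one (by positivity)]; linarith
  have hmain := sL_le_const (n := m) (key _ hτ0 hτ1)
  rw [← hXs] at hmain
  exact final hY0 hT0 hB hCE hCB h5 rfl rfl hmain

end Pool.Agent.CR5
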