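import Pool.Agent.Lib.CR5.E.Base

/-!
# CR5, block E: interior estimates of all orders (statements with complete proofs in words)

Goal: `S_LOC'` (the interface statement `S_LOC`, uniform in the structure).
Every statement `S_X` is proved in `E/X.lean` as `theorem pX`; the statements used are hypotheses.
All estimates are for squares; `∂^I w` (`pdL I`) for every list `I` separately.
-/

open MeasureTheory Set Filter Topology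
open scoped ENNReal ComplexConjugate

noncomputable section

namespace Pool.Agent.CR5

/-! ### First order operators -/

/-- **EOp** (80 lines). The fields `L a j`, `Lb a j`, `Ls a j` are first order operators with bounded
coefficients.

Proof. `L a j f = ∑_k c k * pd k f` where, by the definitions of `db`, `dz`,
`c (2j) = 1/2 + a j 0 / 2` ... explicitly for `j = 0`:
`c 0 = 1/2 + a 0 0 / 2`, `c 1 = I/2 - I * a 0 0 / 2`, `c 2 = a 0 1 / 2`, `c 3 = - I * a 0 1 / 2`,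
`c 4 = a 0 2`; for `j = 1`: `c 0 = a 1 0 / 2`, `c 1 = -I * a 1 0 / 2`, `c 2 = 1/2 + a 1 1 / 2`,
`c 3 = I/2 - I * a 1 1 / 2`, `c 4 = a 1 2`.  For `Lb` the conjugates.  For `Ls`: `Ls_eq`, so the
coefficients are minus those of `Lb` and `d = -dv a j`.
Bounds: `sq i (a j l) ≤ 2 (sq i (a j l - a0 j l) + sq i (a0 j l))` and in the unit ball
`sq 0 (a0 j l) ≤ 1`, `sq 1 (a0 j l) ≤ 2`, `sq i (a0 j l) = 0` for `i ≥ 2` (`a0 j l` is linear);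
`sq i (c f)`, `sq i (conj f)`, `sq i (db l f) ≤ 2 sq (i + 1) f`, `sq i (f + g) ≤ 2 (sq i f + sq i g)`.
`dv a j` uses `n + 1` derivatives of `a`. -/
def S_EOp : Prop := ∀ (n : ℕ) (B : ℝ), ∃ B' : ℝ, ∀ a : Str, SmS a → BdS (n + 1) B a →
  ∀ j, OpB n B' (L a j) ∧ OpB n B' (Lb a j) ∧ OpB n B' (Ls a j)

/-- **ELe** (60 lines). Derivatives of `P f`.

Proof. First: if `Bd n B c` then `sq i (fun x => c x * f x) x ≤ C_i * B^2 * sqs i f x` for `i ≤ n`,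
`x` in the ball.  Induction on `i` for all `n ≥ i`, `c`, `f`:
`sq (i+1) (c f) = ∑_k sq i (pd k (c f))`, `pd k (c f) = c * pd k f + pd k c * f` (`pd_mul`),
`sq i (g + h) ≤ 2 (sq i g + sq i h)` (by `sq_eq_sL`, `pdL_add`), `Bd (n-1) B (pd k c)`
(`sq i (pd k c) ≤ sq (i+1) c`), and `∑_k sqs i (pd k f) ≤ sqs (i+1) f`.
Then for `FO c d f`, a sum of six such terms, `sqs i (pd k f) ≤ sqs (i + 1) f`. -/
def S_ELe : Prop := ∀ (n : ℕ) (B : ℝ), ∃ C : ℝ, 0 ≤ C ∧ ∀ P, OpB n B P → ∀ f, Sm f →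
  ∀ i ≤ n, ∀ x ∈ Metric.ball (0 : E5) 1, sq i (P f) x ≤ C * sqs (i + 1) f x

/-- **ECm** (100 lines). Commutators with `∂^I` have order `|I|`.

Proof. Induction on `n`, for all `B`.  `I = []`: `cm P [] f = 0`.  `I = k :: J`: let `P'` be the
operator with coefficients `pd k (c l)`, `pd k d` (`FO`), so that `pd k (P f) = P (pd k f) + P' f`
(`pd_sum`, `pd_mul`, `pd_comm`).  Then `pdL (k :: J) (P f) = pdL J (P (pd k f)) + pdL J (P' f)`, hence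
`cm P (k :: J) f = cm P J (pd k f) + pdL J (P' f)`.  Here
`‖cm P J (pd k f) x‖^2 ≤ C sqs |J| (pd k f) x ≤ C sqs (|J| + 1) f x` by induction
(`OpB (n+1) B P → OpB n B P`), and `‖pdL J (P' f) x‖^2 ≤ sq |J| (P' f) x ≤ C sqs (|J| + 1) f x` by
`S_ELe` (`OpB n B P'`). -/
def S_ECm : Prop := ∀ (n : ℕ) (B : ℝ), ∃ C : ℝ, 0 ≤ C ∧ ∀ P, OpB n B P → ∀ f, Sm f →
  ∀ I : List (Fin 5), I.length ≤ n → ∀ x ∈ Metric.ball (0 : E5) 1,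
    ‖cm P I f x‖ ^ 2 ≤ C * sqs I.length f x

/-- **EGq** (60 lines). Derivatives of `L f`, `Lb f`, `Ls f` in terms of `gq` and lower order terms.

Proof. `pdL I (P f) x = P (pdL I f) x + cm P I f x`; `‖L a j (pdL I f) x‖^2 ≤ gr a (pdL I f) x`, the
same for `Lb`; `Ls a j g = -Lb a j g - dv a j * g` (`Ls_eq`) and `dv a j` is bounded in the ball
(`dv` is minus the zero order coefficient of `Ls`; or from `BdS 1 B a` directly).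
Sum over the lists of length `i` (`sq_eq_sL`, `sL_mono`, `sL_add`), commutators by `S_ECm`, `S_EOp`. -/
def S_EGq : Prop := ∀ (n : ℕ) (B : ℝ), ∃ C : ℝ, 0 ≤ C ∧ ∀ a : Str, SmS a → BdS (n + 1) B a →
  ∀ f, Sm f → ∀ i ≤ n, ∀ x ∈ Metric.ball (0 : E5) 1, ∀ j,
    sq i (L a j f) x ≤ C * (gq a i f x + sqs i f x) ∧
    sq i (Lb a j f) x ≤ C * (gq a i f x + sqs i f x) ∧
    sq i (Ls a j f) x ≤ C * (gq a i f x + sqs i f x)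

/-! ### Pointwise facts for structures close to the standard one -/

/-- **EPw** (70 lines). All derivatives are bounded by the horizontal gradient and the `t`-derivative.

Proof. Put `α j l = a j l - a0 j l`, `|α j l x| ≤ ε`.  `L a j f = db j f - I z_j pd 4 f + ∑_l α j l dz l f`,
so `|db j f| ≤ |L a j f| + |z_j| |pd 4 f| + ε (|dz 0 f| + |dz 1 f| + |pd 4 f|)` and the conjugate
inequality for `|dz j f|`, `|Lb a j f|`.  With `P = ∑_j (|db j f| + |dz j f|)`: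
`P ≤ ∑_j (|L f| + |Lb f|) + 4 |pd 4 f| + 4 ε (P + |pd 4 f|)`; with `ε = 1/8` absorb.
`pd 0 f = dz 0 f + db 0 f`, `pd 1 f = I (dz 0 f - db 0 f)` etc. -/
def S_EPw : Prop := ∃ ε > 0, ∃ C ≥ 1, ∀ a : Str, Near a 0 ε → ∀ f, Sm f →
  ∀ x ∈ Metric.ball (0 : E5) 1, ∑ k, ‖pd k f x‖ ^ 2 ≤ C * (gr a f x + ‖pd 4 f x‖ ^ 2)

/-- **ECom** (30 lines). The commutator `[L 0, Lb 0] = 2 i ∂_t + small`.

Proof. `S_Cmm` and `S_Cfs` of `SpecB` (proved: `pCmm`, `pCfs`; use them as hypotheses) with `j = k = 0`: the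
difference is `∑_l (cA a 0 0 l x * db l f x - cB a 0 0 l x * dz l f x)`, six terms with coefficients
`≤ C ε`; `‖db l f‖, ‖dz l f‖ ≤ ∑_k ‖pd k f‖`, Cauchy-Schwarz. -/
def S_ECom : Prop := ∃ C ≥ 1, ∀ ε : ℝ, 0 < ε → ε ≤ 1 → ∀ a : Str, Near a 2 ε → ∀ f, Sm f →
  ∀ x ∈ Metric.ball (0 : E5) 1,
    ‖L a 0 (Lb a 0 f) x - Lb a 0 (L a 0 f) x - 2 * Complex.I * pd 4 f x‖ ^ 2
      ≤ C * ε ^ 2 * ∑ k, ‖pd k f x‖ ^ 2

/-- **ESz** (60 lines). Sizes: `L θ`, `Lb θ` by the gradient of `θ`, and the divergences.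

Proof. In the ball `|a j l| ≤ |a0 j l| + 1 ≤ 2`; `dv a j = ∑_l db l (conj (a j l))`, and
`db l (conj (a0 j l)) = 0` (`conj (a0 j 2) = I conj z_j` does not depend on `t`), so
`|dv a j| ≤ ∑_l |db l (conj α)| ≤ C ε ≤ C`. -/
def S_ESz : Prop := ∃ C ≥ 1, ∀ a : Str, Near a 1 1 → ∀ x ∈ Metric.ball (0 : E5) 1, ∀ j,
  ‖dv a j x‖ ≤ C ∧ ∀ θ : E5 → ℂ, Sm θ → ∀ B : ℝ, (∀ k, ‖pd k θ x‖ ≤ B) →
    ‖L a j θ x‖ ≤ C * B ∧ ‖Lb a j θ x‖ ≤ C * B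

/-! ### The energy inequality -/

/-- **EId** (100 lines). The energy identity for a real test function `θ`.

Proof. `Box a u j = L a j (D0s a u) + (D1s a (D1 a u)) j`.  By `ibp_L` (with `g = θ^2 u_j`, a test
function) `∑_j ∫ L a j (D0s a u) conj (θ^2 u_j) = ∫ D0s a u * conj (D0s a (θ^2 u))`, and, by `ibp_L'`
conjugated, `∑_j ∫ (D1s a v)_j conj (θ^2 u_j) = ∫ v * conj (D1 a (θ^2 u))`, `v = D1 a u`.
Pointwise, with `σ = ∑_j Lb a j θ * u_j` and `conj θ = θ`: `D0s a (θ u) = θ D0s a u - σ`,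
`D0s a (θ^2 u) = θ^2 D0s a u - 2 θ σ` (`Ls_mul`, `Lb_mul`), so
`‖D0s a (θ u)‖^2 = Re (D0s a u * conj (D0s a (θ^2 u))) + ‖σ‖^2`.
Same for `D1` with `τ = L a 0 θ * u 1 - L a 1 θ * u 0`: `D1 a (θ u) = θ D1 a u + τ`,
`D1 a (θ^2 u) = θ^2 D1 a u + 2 θ τ`. -/
def S_EId : Prop := ∀ a : Str, SmS a → ∀ u : F2, (∀ j, Sm (u j)) → ∀ θ : E5 → ℂ, Tst θ →
  (∀ x, conj (θ x) = θ x) →
  (∫ x, ‖D0s a (fun j y => θ y * u j y) x‖ ^ 2) + ∫ x, ‖D1 a (fun j y => θ y * u j y) x‖ ^ 2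
    = (∫ x, ∑ j, Box a u j x * conj (θ x ^ 2 * u j x)).re
      + (∫ x, ‖∑ j, Lb a j θ x * u j x‖ ^ 2)
      + ∫ x, ‖L a 0 θ x * u 1 x - L a 1 θ x * u 0 x‖ ^ 2

/-- **EPair** (100 lines). The pairing of the right side with `θ^2 u`, and the sign of the
regularising term.

Proof. Replace `Box a u j` on `Ω` by `R j + D1s a β j + D0 a b j - e (u j - ∂_t² u j)`; outside `Ω` the
factor `θ` vanishes (`tsupport θ ⊆ Ω`).  `∑_j ∫ D1s a β j conj (θ² u_j) = ∫ β conj (D1 a (θ² u))` and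
`∑_j ∫ D0 a b j conj (θ² u_j) = ∫ b conj (D0s a (θ² u))` (`ibp_L`, `ibp_L'`, conjugated).
Regularising term: `Re ∫ u conj (θ² u) = ∫ |θ u|² ≥ 0`;
`Re ∫ ∂_t² u conj (θ² u) = - Re ∫ ∂_t u conj (θ² ∂_t u + 2 θ ∂_t θ u)
  ≤ - ∫ |θ ∂_t u|² + 2 ∫ |θ ∂_t u| |∂_t θ u| ≤ ∫ |∂_t θ|² |u|²` (`ibp_pd`), and `0 ≤ e ≤ 1`. -/
def S_EPair : Prop := ∀ a : Str, SmS a → ∀ e : ℝ, 0 ≤ e → e ≤ 1 → ∀ Ω : Set E5, IsOpen Ω →
  ∀ (u R : F2) (β b : E5 → ℂ), (∀ j, Sm (u j)) → (∀ j, Sm (R j)) → Sm β → Sm b →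
  (∀ j, ∀ x ∈ Ω, BoxE a e u j x = R j x + D1s a β j x + D0 a b j x) →
  ∀ θ : E5 → ℂ, Tst θ → (∀ x, conj (θ x) = θ x) → tsupport θ ⊆ Ω →
  (∫ x, ∑ j, Box a u j x * conj (θ x ^ 2 * u j x)).re
    ≤ (∫ x, ‖θ x‖ ^ 2 * ∑ j, ‖R j x‖ * ‖u j x‖)
      + (∫ x, ‖β x‖ * ‖D1 a (fun j y => θ y ^ 2 * u j y) x‖)
      + (∫ x, ‖b x‖ * ‖D0s a (fun j y => θ y ^ 2 * u j y) x‖)
      + ∫ x, ‖pd 4 θ x‖ ^ 2 * ∑ j, ‖u j x‖ ^ 2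

/-- **EEn** (200 lines). The energy inequality with the cutoff `θ = ζ²`.

Proof.  Use `S_EId`, `S_EPair`, `S_Bas`, `S_ESz` with `θ = ζ²` (complex valued).  `|Lθ|, |Lb θ|, |∂_t θ|
≤ 2 C B ζ`, `|L ζ⁴|, |Lb ζ⁴| ≤ 4 C B ζ³` in the ball (`ζ = 0` outside `Ω ⊆` ball; there everything
vanishes).
(1) `ζ⁴ gr a u_j ≤ 2 gr a (ζ² u_j) + C B² ζ² |u_j|²` pointwise (`L(θ u) = θ L u + Lθ u`).
(2) `S_Bas` for `ζ² u`: `c ∑_j ∫ gr a (ζ² u_j) ≤ ∫ |D0s (ζ² u)|² + ∫ |D1 (ζ² u)|²` = right side of `S_EId`,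
whose last two terms are `≤ C B² ∫ ζ² |u|²`.
(3) the terms of `S_EPair`: `ζ⁴ |R_j| |u_j| ≤ τ ζ⁴ |R_j|² + (1/(4τ)) ζ² |u_j|²`;
`|D1 a (ζ⁴ u)| ≤ ζ⁴ |D1 a u| + C B ζ³ |u|`, `|D1 a u|² ≤ 2 ∑_j gr a u_j`, hence
`|β| |D1 a (ζ⁴ u)| ≤ κ ζ⁴ ∑_j gr a u_j + (C/κ) ζ⁴ |β|² + C B² ζ² |u|²` for every `0 < κ ≤ 1`; the same for
`b` with `|D0s a u| ≤ ∑_j (|Lb a j u_j| + C |u_j|)`; the last term is `≤ C B² ∫ ζ² |u|²`.
Choose `κ` small compared with `c` and absorb `κ ∫ ζ⁴ ∑_j gr a u_j` (finite: integrable). -/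
def S_EEn : Prop := ∃ ε > 0, ∃ C ≥ 1, ∀ a : Str, Near a 4 ε → ∀ e : ℝ, 0 ≤ e → e ≤ 1 →
  ∀ Ω : Set E5, IsOpen Ω → Ω ⊆ Metric.ball 0 1 →
  ∀ (u R : F2) (β b : E5 → ℂ), (∀ j, Sm (u j)) → (∀ j, Sm (R j)) → Sm β → Sm b →
  (∀ j, ∀ x ∈ Ω, BoxE a e u j x = R j x + D1s a β j x + D0 a b j x) →
  ∀ (ζ : E5 → ℝ) (B : ℝ), Cof ζ Ω B → 1 ≤ B → ∀ τ : ℝ, 0 < τ → τ ≤ 1 →
  ∫ x, ζ x ^ 4 * (gr a (u 0) x + gr a (u 1) x)
    ≤ C * (τ * (∫ x, ζ x ^ 4 * (‖R 0 x‖ ^ 2 + ‖R 1 x‖ ^ 2))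
      + (∫ x, ζ x ^ 4 * (‖β x‖ ^ 2 + ‖b x‖ ^ 2))
      + (B ^ 2 + 1 / τ) * ∫ x, ζ x ^ 2 * (‖u 0 x‖ ^ 2 + ‖u 1 x‖ ^ 2))

/-- **ETi** (200 lines). Interpolation for the `t`-derivative.

Proof. Let `I = ∫ ζ² |v_t|²`, `v_t = pd 4 v`.  By `S_ECom`
`2 I ≤ |∫ L0 (Lb0 v) conj (ζ² v_t)| + |∫ Lb0 (L0 v) conj (ζ² v_t)| + ∫ ζ² |ρ| |v_t|`,
`|ρ|² ≤ C ε² ∑_k |pd k v|² ≤ C' ε² (gr a v + |v_t|²)` (`S_EPw`).
First term: `ibp_L` gives `∫ Lb0 v conj (Ls0 (ζ² v_t))`,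
`|Ls0 (ζ² v_t)| ≤ |Lb0 (ζ² v_t)| + |dv| ζ² |v_t| ≤ ζ² |Lb0 v_t| + C (B + 1) ζ |v_t|` (`S_ESz`), and the factor
`Lb0 v` is only needed on `Ω`:  `≤ ∫_Ω (gr a v)^{1/2} (ζ² (gr a v_t)^{1/2} + 2 C B ζ |v_t|)
≤ (η/2) ∫ ζ⁴ gr a v_t + (1/4) I + C (1/η + B²) ∫_Ω gr a v`.  Second term: conjugate (`conj_Lb`,
`Lb0 (L0 v) = conj (L0 (conj (L0 v)))`, `ibp_L`, then `Ls0 (ζ² conj v_t)` and `conj_L` again).
Third term: `≤ C'' ε (I + ∫_Ω gr a v)`; take `ε` small; absorb `I` (finite). -/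
def S_ETi : Prop := ∃ ε > 0, ∃ C ≥ 1, ∀ a : Str, Near a 4 ε →
  ∀ Ω : Set E5, IsOpen Ω → Ω ⊆ Metric.ball 0 1 → ∀ v, Sm v →
  ∀ (ζ : E5 → ℝ) (B : ℝ), Cof ζ Ω B → 1 ≤ B → ∀ η : ℝ, 0 < η → η ≤ 1 →
  ∫ x, ζ x ^ 2 * ‖pd 4 v x‖ ^ 2
    ≤ η * (∫ x, ζ x ^ 4 * gr a (pd 4 v) x) + C * (1 / η + B ^ 2) * ∫ x in Ω, gr a v x

/-! ### The differentiated equation -/

/-- The commutators for `D1s`. -/
def cmS (a : Str) (I : List (Fin 5)) (v : E5 → ℂ) : F2 := fun j x =>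
  if j = 0 then -cm (Ls a 1) I v x else cm (Ls a 0) I v x

/-- New `b`. -/
def bI (a : Str) (w : F2) (b : E5 → ℂ) (I : List (Fin 5)) : E5 → ℂ := fun x =>
  pdL I b x - (cm (Ls a 0) I (w 0) x + cm (Ls a 1) I (w 1) x)

/-- New `β`. -/
def βI (a : Str) (w : F2) (β : E5 → ℂ) (I : List (Fin 5)) : E5 → ℂ := fun x =>
  pdL I β x - (cm (L a 0) I (w 1) x - cm (L a 1) I (w 0) x)

/-- New right side. -/
def RI (a : Str) (w f : F2) (β b : E5 → ℂ) (I : List (Fin 5)) : F2 := fun j x =>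
  pdL I (f j) x + cmS a I β j x + cm (L a j) I b x - cm (L a j) I (D0s a w) x
    - cmS a I (D1 a w) j x

/-- **EEq** (90 lines). The equation for `∂^I w`.

Proof. Apply `pdL I` to the equation (`pdL_congr`, `Ω` open).  By the definition of `cm`:
`pdL I (L a j g) = L a j (pdL I g) + cm (L a j) I g` and the same for `Ls`.  So, for functions,
`pdL I (D0s a w) = D0s a (∂^I w) + (cm (Ls a 0) I (w 0) + cm (Ls a 1) I (w 1))`,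
`pdL I (D1 a w) = D1 a (∂^I w) + (cm (L a 0) I (w 1) - cm (L a 1) I (w 0))`, and
`pdL I (D0 a g j) = D0 a (pdL I g) j + cm (L a j) I g`, `pdL I (D1s a v j) = D1s a (pdL I v) j + cmS a I v j`.
Insert `g = D0s a w`, `v = D1 a w`, `g = b`, `v = β`; `L a j`, `Ls a j` are additive (`L_add`, `L_sub`,
`Ls_add`, `Ls_sub`; all functions are smooth: `Sm.pdL`, `Sm.L`, ...); `pdL I` commutes with `pd 4`
(`pdL_pd`). -/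
def S_EEq : Prop := ∀ a : Str, SmS a → ∀ e : ℝ, ∀ Ω : Set E5, IsOpen Ω →
  ∀ (w f : F2) (β b : E5 → ℂ), (∀ j, Sm (w j)) → (∀ j, Sm (f j)) → Sm β → Sm b →
  (∀ j, ∀ x ∈ Ω, BoxE a e w j x = f j x + D1s a β j x + D0 a b j x) →
  ∀ I : List (Fin 5), (∀ j, Sm (RI a w f β b I j)) ∧ Sm (βI a w β I) ∧ Sm (bI a w b I) ∧
    ∀ j, ∀ x ∈ Ω, BoxE a e (fun j => pdL I (w j)) j x
      = RI a w f β b I j x + D1s a (βI a w β I) j x + D0 a (bI a w b I) j x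

/-- **EBd** (100 lines). Bounds for the new data.

Proof. `S_ECm` (with `S_EOp`) for the commutators with `β`, `b`, `w j`; for those with `D0s a w`, `D1 a w`:
`‖cm P I g x‖² ≤ C sqs m g x` and `sqs m (D0s a w) ≤ 2 ∑_k sqs m (Ls a k (w k))`,
`sq i (Ls a k (w k)) ≤ C (gq a i (w k) + sqs i (w k))` (`S_EGq`), the same for `D1`.
`‖pdL I f x‖² ≤ sq m f x ≤ sqs m f x`. -/
def S_EBd : Prop := ∀ (m : ℕ) (B : ℝ), ∃ C ≥ 1, ∀ a : Str, SmS a → BdS (m + 1) B a →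
  ∀ (w f : F2) (β b : E5 → ℂ), (∀ j, Sm (w j)) → (∀ j, Sm (f j)) → Sm β → Sm b →
  ∀ I : List (Fin 5), I.length = m → ∀ x ∈ Metric.ball (0 : E5) 1,
    ‖βI a w β I x‖ ^ 2 + ‖bI a w b I x‖ ^ 2
      ≤ C * (sqs m β x + sqs m b x + sqs m (w 0) x + sqs m (w 1) x) ∧
    ∀ j, ‖RI a w f β b I j x‖ ^ 2 ≤ C * (sqs m (f 0) x + sqs m (f 1) x + sqs m β x + sqs m b x
      + sqs m (w 0) x + sqs m (w 1) x
      + ∑ i ∈ Finset.range (m + 1), (gq a i (w 0) x + gq a i (w 1) x))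

/-! ### One step, and the induction -/

/-- The data of order `m` on `Ω`. -/
def Dat (m : ℕ) (Ω : Set E5) (f : F2) (β b : E5 → ℂ) : ℝ :=
  ∫ x in Ω, (sqs m (f 0) x + sqs m (f 1) x + sqs m β x + sqs m b x)

/-- The quantities of order `i` on `Ω`. -/
def Qo (a : Str) (i : ℕ) (Ω : Set E5) (w : F2) : ℝ :=
  ∫ x in Ω, (gq a i (w 0) x + gq a i (w 1) x + sq i (w 0) x + sq i (w 1) x)

/-- The quantities of order less than `m`, and the `L²` norm. -/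
def Lo (a : Str) (m : ℕ) (Ω : Set E5) (w : F2) : ℝ :=
  (∫ x in Ω, (‖w 0 x‖ ^ 2 + ‖w 1 x‖ ^ 2)) + ∑ i ∈ Finset.range m, Qo a i Ω w

/-- **EY** (120 lines). The interpolation inequality for all derivatives of order `m + 1`.

Proof. `sq (m+1) (w k) = sL m (fun J => ∑_i ‖pd i (pdL J (w k))‖²)` (definition of `sq`, `sq_eq_sL`,
`pdL_pd`), and by `S_EPw`, for `v = pdL J (w k)`, `∑_i ‖pd i v‖² ≤ C (gr a v + ‖pd 4 v‖²)` in the ball.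
Multiply by `ζ²`, integrate (`integral_sL`), `∫ ζ² gr a v ≤ ∫_Ω gr a v` (`Cof.le_setIntegral`), use `S_ETi`
for `v`; `sum_J gr a v = gq a m (w k)` and `gr a (pd 4 (pdL J (w k))) = gr a (pdL (4 :: J) (w k))`
(`pdL_pd`) is one of the terms of `gq a (m+1) (w k)`, all of them nonnegative. The powers
of `ζ` are supported in `Ω ⊆` ball. `η` of the statement is obtained from `η / C`. -/
def S_EY : Prop := ∃ ε > 0, ∀ m : ℕ, ∃ C ≥ 1, ∀ a : Str, Near a 4 ε →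
  ∀ Ω : Set E5, IsOpen Ω → Ω ⊆ Metric.ball 0 1 → ∀ w : F2, (∀ j, Sm (w j)) →
  ∀ (ζ : E5 → ℝ) (B : ℝ), Cof ζ Ω B → 1 ≤ B → ∀ η : ℝ, 0 < η → η ≤ 1 →
  ∫ x, ζ x ^ 2 * (sq (m + 1) (w 0) x + sq (m + 1) (w 1) x)
    ≤ η * (∫ x, ζ x ^ 4 * (gq a (m + 1) (w 0) x + gq a (m + 1) (w 1) x))
      + C * (1 / η + B ^ 2) * ∫ x in Ω, (gq a m (w 0) x + gq a m (w 1) x)

/-- **EX** (160 lines). The energy inequality for all derivatives of order `m`.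

Proof. For every list `I` of length `m` apply `S_EEn` to `u = ∂^I w`, with the data of `S_EEq`, `S_EBd`
and `τ ≤ 1` to be chosen, and sum over the lists (`sL_mono`, `sL_add`, `sL_mul_left`, `sL_const`,
`integral_sL`).  With `X = ∫ ζ⁴ (gq a m (w 0) + gq a m (w 1))`, `Y = ∫ ζ² (sq m (w 0) + sq m (w 1))`:
the `R`-terms are `≤ C₂ (Dat + X + Lo + Y)` (`ζ⁴ ≤ ζ²`, `ζ⁴ ≤ 1` and supported in `Ω`; the
terms `i < m` of the sums go into `Lo`), the `β`, `b`-terms are `≤ C₂ (Dat + Lo + Y)`, and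
`∑_I ∫ ζ² |∂^I w|² = Y`.  So `X ≤ C₃ (τ (Dat + X + Lo + Y) + Dat + Lo + Y + (B² + 1/τ) Y)`;
take `τ = 1 / (2 C₃)`, absorb `X`. -/
def S_EX2 : Prop := ∃ ε > 0, ∀ (m : ℕ) (M : ℝ), ∃ C ≥ 1, ∀ a : Str, Near a 4 ε → BdS (m + 1) M a →
  ∀ e : ℝ, 0 ≤ e → e ≤ 1 → ∀ Ω : Set E5, IsOpen Ω → Ω ⊆ Metric.ball 0 1 →
  ∀ (w f : F2) (β b : E5 → ℂ), (∀ j, Sm (w j)) → (∀ j, Sm (f j)) → Sm β → Sm b →
  (∀ j, ∀ x ∈ Ω, BoxE a e w j x = f j x + D1s a β j x + D0 a b j x) →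
  ∀ (ζ : E5 → ℝ) (B : ℝ), Cof ζ Ω B → 1 ≤ B →
  ∫ x, ζ x ^ 4 * (gq a m (w 0) x + gq a m (w 1) x)
    ≤ C * (Dat m Ω f β b + Lo a m Ω w
      + B ^ 2 * ∫ x, ζ x ^ 2 * (sq m (w 0) x + sq m (w 1) x))

/-- **ESt** (80 lines). One step.

Proof. `m = 0`: `Y ≤ ∫_Ω |w|² ≤ Lo` and `S_EX2`.  `m = n + 1`: by `S_EX2` and `S_EY` (for `n`)
`X ≤ C (Dat + Lo + B² Y)`, `Y ≤ η X + C (1/η + B²) Lo` (`∫_Ω gq a n ≤ Qo a n ≤ Lo a (n+1)`); with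
`η = 1 / (2 C B²)`: `X ≤ 2 C (Dat + Lo + B² C (2 C B² + B²) Lo)`, then `Y`. Everything `≤ C' B⁴ (Dat + Lo)`.
All quantities are nonnegative and finite. -/
def S_ESt : Prop := ∃ ε > 0, ∀ (m : ℕ) (M : ℝ), ∃ C ≥ 1, ∀ a : Str, Near a 4 ε → BdS (m + 1) M a →
  ∀ e : ℝ, 0 ≤ e → e ≤ 1 → ∀ Ω : Set E5, IsOpen Ω → Ω ⊆ Metric.ball 0 1 →
  ∀ (w f : F2) (β b : E5 → ℂ), (∀ j, Sm (w j)) → (∀ j, Sm (f j)) → Sm β → Sm b →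
  (∀ j, ∀ x ∈ Ω, BoxE a e w j x = f j x + D1s a β j x + D0 a b j x) →
  ∀ (ζ : E5 → ℝ) (B : ℝ), Cof ζ Ω B → 1 ≤ B →
  (∫ x, ζ x ^ 4 * (gq a m (w 0) x + gq a m (w 1) x))
      + (∫ x, ζ x ^ 2 * (sq m (w 0) x + sq m (w 1) x))
    ≤ C * B ^ 4 * (Dat m Ω f β b + Lo a m Ω w)

/-- **EIn** (150 lines). The induction.

Proof. Induction on `m` (the constants for `m + 1` from those for `m`; `BdS` of order `m + 1` gives that of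
smaller order).  Given `Ω' ⊆ Ω` at distance `s` let `Ω₁ = {x | ∃ y ∈ Ω', dist x y < s / 2}` (`Metric.thickening`), open,
`Ω' ⊆ Ω₁ ⊆ Ω`, `Inn Ω₁ Ω (s/2)`.  Take `χ` from `S_CUT2 1` for `A = Ω'` and `s / 2` : `χ = 1` on `Ω'`,
`χ ≠ 0` only at distance `< s/2` from `Ω'`; to have `tsupport χ ⊆ Ω₁` use `S_CUT2` with `s / 4`:
the support is then contained in the closed set `{x | infDist x Ω' ≤ s/4} ⊆ Ω₁`.  If `Ω' = ∅` all is trivial.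
`ζ x = (χ x).re`, `‖pd k χ‖ ≤ sqrt (sq 1 χ) ≤ 4 C / s =: B`.  `Cof ζ Ω₁ B`; compact support because
`Ω₁ ⊆` ball.  `S_ESt` on `Ω₁` gives `Qo a m Ω' w ≤ C B⁴ (Dat m Ω₁ + Lo a m Ω₁ w)` (`ζ = 1` on `Ω'`:
`∫_{Ω'} g ≤ ∫ ζ^n g`), `Dat m Ω₁ ≤ Dat m Ω`, and `Lo a m Ω₁ w ≤ (C/s)^p (Dat (m-1) Ω + ∫_Ω |w|²)` by induction
(for `Ω₁`, `Ω`, `s / 2`).  For `m = 0`, `Lo a 0 Ω₁ w = ∫_{Ω₁} |w|²`. -/
def S_EIn : Prop := ∃ ε > 0, ∀ (m : ℕ) (M : ℝ), ∃ (C : ℝ) (p : ℕ), 1 ≤ C ∧ ∀ a : Str,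
  Near a 4 ε → BdS (m + 1) M a → ∀ s : ℝ, 0 < s → s ≤ 1 → ∀ Ω' Ω : Set E5, IsOpen Ω' → IsOpen Ω →
  Ω' ⊆ Ω → Inn Ω' Ω s → Ω ⊆ Metric.ball 0 1 → ∀ e : ℝ, 0 ≤ e → e ≤ 1 →
  ∀ (w f : F2) (β b : E5 → ℂ), (∀ j, Sm (w j)) → (∀ j, Sm (f j)) → Sm β → Sm b →
  (∀ j, ∀ x ∈ Ω, BoxE a e w j x = f j x + D1s a β j x + D0 a b j x) →
  ∑ i ∈ Finset.range (m + 1), Qo a i Ω' w
    ≤ (C / s) ^ p * (Dat m Ω f β b + ∫ x in Ω, (‖w 0 x‖ ^ 2 + ‖w 1 x‖ ^ 2))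

/-- **ELoc** (180 lines). The interface statement (uniform form).

Proof. For every `i ≤ m` use `S_EIn` (with the maximum of the constants over `i ≤ m`): `Qo a i Ω' w ≤
(C/s)^p (Dat i Ω + W)`, `W = ∫_Ω (‖w 0‖² + ‖w 1‖²)`.  By `S_EGq` (in the ball) `sq i (D0s a w), sq i (D1 a w)
≤ C (gq a i (w 0) + gq a i (w 1) + sqs i (w 0) + sqs i (w 1))`, so the integrals over `Ω'` of
`sq i (w k)`, `sq i (D0s a w)`, `sq i (D1 a w)` are all `≤ (C'/s)^p (Dat i Ω + W)`.  Square roots: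
`sqrt (Dat i Ω) ≤ ∑_{l ≤ i} (sqrt ∫_Ω sq l (f 0) + ...)` (`sqrt` is subadditive), multiply by `h i ≤ h l ≤ 1`:
`h i * sqrt (∫_Ω' sq i g) ≤ (C'/s)^p (NN2 h m Ω f + NN h m Ω β + NN h m Ω b + sqrt W)`; sum over `i ≤ m`. -/
def S_LOC' : Prop := ∃ ε > 0, ∀ (m : ℕ) (M : ℝ), ∃ (C : ℝ) (p : ℕ), 1 ≤ C ∧ ∀ a : Str,
  Near a 4 ε → BdS (m + 4) M a →
  ∀ h : ℕ → ℝ, Wt h → ∀ s : ℝ, 0 < s → s ≤ 1 → ∀ Ω' Ω : Set E5, IsOpen Ω' → IsOpen Ω →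
  Ω' ⊆ Ω → Inn Ω' Ω s → Ω ⊆ Metric.ball 0 1 → ∀ e : ℝ, 0 ≤ e → e ≤ 1 →
  ∀ (w f : F2) (β b : E5 → ℂ), (∀ j, Sm (w j)) → (∀ j, Sm (f j)) → Sm β → Sm b →
  (∀ j, ∀ x ∈ Ω, BoxE a e w j x = f j x + D1s a β j x + D0 a b j x) →
  NN2 h m Ω' w + NN h m Ω' (D0s a w) + NN h m Ω' (D1 a w)
    ≤ (C / s) ^ p * (NN2 h m Ω f + NN h m Ω β + NN h m Ω b
      + Real.sqrt (∫ x in Ω, (‖w 0 x‖ ^ 2 + ‖w 1 x‖ ^ 2)))

end Pool.Agent.CR5
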